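import Pool.Agent.W91_5f6b2a.Bridge
import Pool.Agent.W74_5f6b2a_tape.Forms
import Pool.Agent.W_MP_5f6b2a_lc.Valid

/-!
Inclusions between the classes.
-/

namespace Pool.Agent.W91_5f6b2a

open Pool.Agent.W_MP_5f6b2a_lc Pool.Agent.W74_5f6b2a_tape

theorem NetLeaf.not {n N D : ℕ} {C : Net n N} {f : (Fin n → Bool) → Prop} (h : NetLeaf D C f) :
    NetLeaf D C fun z => ¬ f z := by
  rcases h with ⟨p, b, h⟩ | ⟨g, b, h⟩
  · refine Or.inl ⟨p, !b, fun x => ?_⟩
    show ¬ f x ↔ _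
    rw [h x]
    cases b <;> cases x p <;> simp
  · refine Or.inr ⟨g, !b, fun x => ?_⟩
    show ¬ f x ↔ _
    rw [h x]
    cases b <;> cases C.run x D g <;> simp

theorem NetLeaf.lit {n N D : ℕ} {C : Net n N} (x : Fin n) (b : Bool) :
    NetLeaf D C fun z => z x = b :=
  Or.inl ⟨x, b, fun _ => Iff.rfl⟩

/-- Para-AC0 reductions are a special case. PROOF: as `W74_5f6b2a_tape.tape_of_AC` (in
`W74_5f6b2a_tape/Mono.lean`), with the circuit without gates (`N = 0`) and `q = 0`. -/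
theorem sparse_of_AC {D : ℕ} {ε : ℝ} {Q Q' : ParamProblem} (h : ParaAC0Reducible Q Q') :
    SparseReducible D ε Q Q' := by
  obtain ⟨c, f, g, h⟩ := h
  refine ⟨c, f, g, fun k n => ?_⟩
  obtain ⟨n', R, κ, hn', hκ, hR, hκ', hQ⟩ := h k n
  refine ⟨0, 0, ⟨fun i => i.elim0, fun i => i.elim0, fun i => i.elim0, fun i => i.elim0⟩, n', R, κ,
    ⟨fun i => i.elim0, fun i => i.elim0⟩, ?_, ?_, hn', hκ, ?_, ?_, hQ⟩
  · have : (0 : ℝ) ≤ f k * (n + 1 : ℝ) ^ (1 + ε) := by positivity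
    simpa [Net.wires] using this
  · have : (0 : ℝ) ≤ f k * (n + 1 : ℝ) ^ ε := by positivity
    simpa using this
  · intro i
    exact Frm.of_form (Form.of_AC (fun x b => NetLeaf.lit x b) (hR i))
  · intro j
    exact Frm.of_form (Form.of_AC (fun x b => NetLeaf.lit x b) (hκ' j))

theorem W_subset_WS (D : ℕ) (ε : ℝ) (t : ℕ) : W t ⊆ WS D ε t := by
  rintro Q ⟨d, hd, h⟩
  exact ⟨d, hd, sparse_of_AC h⟩

open ValidAux in
/-- PROOF: as `W74_5f6b2a_tape.WT_subset` (in `W74_5f6b2a_tape/Mono.lean`). -/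
theorem WS_subset (D : ℕ) (ε : ℝ) (t : ℕ) : WS D ε t ⊆ WS D ε (t + 1) := by
  classical
  rintro Q ⟨d, hd, c, f, g, hred⟩
  obtain ⟨c0, hc0⟩ := inClass_AC t d
  refine ⟨d, hd, c * (c0 + 1) + c + c0 + 1, fun k => (f k + 2) ^ (c0 + 1), g, fun k n => ?_⟩
  obtain ⟨N₀, q, C, n', R, κ, hC, hwires, hq, hn', hκ, hR, hκ', hQ⟩ := hred k n
  set S := (f k + 2) ^ (c0 + 1) * (n + 1) ^ (c * (c0 + 1) + c + c0 + 1) with hS
  have hcc : c ≤ c * (c0 + 1) + c + c0 + 1 := by omega
  have hfk : f k ≤ (f k + 2) ^ (c0 + 1) := by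
    calc f k ≤ f k + 2 := by omega
      _ = (f k + 2) ^ 1 := (pow_one _).symm
      _ ≤ _ := Nat.pow_le_pow_right (by omega) (by omega)
  have hfk' : (f k : ℝ) ≤ (((f k + 2) ^ (c0 + 1) : ℕ) : ℝ) := by exact_mod_cast hfk
  have hwires' : (C.wires : ℝ) ≤ (((f k + 2) ^ (c0 + 1) : ℕ) : ℝ) *
      (n + 1 : ℝ) ^ (1 + ε) :=
    hwires.trans (mul_le_mul_of_nonneg_right hfk' (by positivity))
  have hq' : (q : ℝ) ≤ (((f k + 2) ^ (c0 + 1) : ℕ) : ℝ) * (n + 1 : ℝ) ^ ε :=
    hq.trans (mul_le_mul_of_nonneg_right hfk' (by positivity))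
  have hnot : ∀ f : (Fin n → Bool) → Prop, NetLeaf D C f → NetLeaf D C fun z => ¬ f z :=
    fun f hf => hf.not
  have hpow1 : 1 ≤ (n + 1) ^ (c * (c0 + 1) + c + c0 + 1) := Nat.one_le_pow _ _ (by omega)
  have hS2 : 2 ≤ S := by
    have h1 : 2 ≤ (f k + 2) ^ (c0 + 1) := by
      calc 2 ≤ f k + 2 := by omega
        _ = (f k + 2) ^ 1 := (pow_one _).symm
        _ ≤ _ := Nat.pow_le_pow_right (by omega) (by omega)
    calc 2 = 2 * 1 := rfl
      _ ≤ S := Nat.mul_le_mul h1 hpow1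
  have hS1 : 1 ≤ S := by omega
  have hSf : f k * (n + 1) ^ c ≤ S := by
    apply Nat.mul_le_mul hfk
    exact Nat.pow_le_pow_right (by omega) (by nlinarith [Nat.zero_le c, Nat.zero_le c0])
  have hSc : (f k * (n + 1) ^ c) ^ c0 ≤ S := by
    rw [mul_pow, ← pow_mul]
    apply Nat.mul_le_mul
    · calc f k ^ c0 ≤ (f k + 2) ^ c0 := Nat.pow_le_pow_left (by omega) _
        _ ≤ _ := Nat.pow_le_pow_right (by omega) (by omega)
    · exact Nat.pow_le_pow_right (by omega) (by nlinarith [Nat.zero_le c, Nat.zero_le c0])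
  have hκ'' : ∀ j, Frm (NetLeaf D C) S (c * (c0 + 1) + c + c0 + 1) fun x => κ x = j :=
    fun j => Frm.of_form (Form.mono hS1 hSf hcc (hκ' j).form)
  by_cases hN : ∃ N, (N + 1) * (N + 3) = n'
  · obtain ⟨N, rfl⟩ := hN
    refine ⟨N₀, q, C, (N + 1) * (N + 3),
      fun x i => R x i && decide ((decode N (R x)).InClass t d), κ, hC, hwires', hq',
      hn'.trans hSf, hκ, fun i => ?_, hκ'', fun x => ?_⟩
    · have h1 := Form.comp (φ := R) hnot (fun i => (hR i).form) (hc0 N)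
      have hN2 : (N + 2) ^ c0 ≤ S := by
        refine (Nat.pow_le_pow_left ?_ c0).trans hSc
        refine le_trans ?_ hn'
        nlinarith [Nat.zero_le N]
      have h2 : Form (NetLeaf D C) S (c + c0) fun x => (decode N (R x)).InClass t d :=
        h1.mono_size (max_le hN2 hSf)
      have h3 : Form (NetLeaf D C) S (c + c0) fun x => R x i = true :=
        Form.mono hS1 hSf (by omega) (hR i).form
      refine Frm.of_form (((Form.and hS2 h3 h2).mono_depth hS1 ?_).congr fun x => ?_)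
      · nlinarith [Nat.zero_le c, Nat.zero_le c0]
      · simp
    · rw [hQ, pWSAT_iff, pWSAT_iff]
      beta_reduce
      by_cases hx : (decode N (R x)).InClass t d
      · have : (fun i => R x i && decide ((decode N (R x)).InClass t d)) = R x := by
          funext i
          simp [hx]
        rw [this]
        exact ⟨fun h => ⟨inClass_mono h.1, h.2⟩, fun h => ⟨hx, h.2⟩⟩
      · have : (fun i => R x i && decide ((decode N (R x)).InClass t d)) = fun _ => false := by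
          funext i
          simp [hx]
        rw [this]
        exact ⟨fun h => absurd h.1 hx, fun h => absurd h.1.1 (not_correct_false N)⟩
  · refine ⟨N₀, q, C, n', R, κ, hC, hwires', hq', hn'.trans hSf, hκ,
      fun i => Frm.of_form (Form.mono hS1 hSf hcc (hR i).form), hκ'', fun x => ?_⟩
    rw [hQ]
    constructor
    · rintro ⟨N, h, _⟩
      exact absurd ⟨N, h⟩ hN
    · rintro ⟨N, h, _⟩
      exact absurd ⟨N, h⟩ hN

end Pool.Agent.W91_5f6b2a
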