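import Mathlib

/-!
Live positions.
-/

namespace Pool.Agent.W91_5f6b2a

/-- The position `y` of the block `y.1` is live if it is the chosen one. The live position of the
block `β` has the value `v β`, the other positions have the values given by `x`. -/
def cube {B : Type} {h : ℕ} (p : B → Fin h) (x : B × Fin h → Bool) (v : B → Bool) :
    B × Fin h → Bool := fun y => if y.2 = p y.1 then v y.1 else x y

/-- The number of live elements of `S`. -/
def hits {B : Type} {h : ℕ} (S : Finset (B × Fin h)) (p : B → Fin h) : ℕ :=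
  (S.filter fun y => y.2 = p y.1).card

open Classical in
/-- The set of the first `m` elements in the enumeration `e`. -/
noncomputable def top {Y : Type} {n : ℕ} (e : Fin n → Y) (m : ℕ) : Finset Y :=
  (Finset.univ.filter fun i : Fin n => (i : ℕ) < m).image e

theorem mem_top {Y : Type} {n : ℕ} {e : Fin n → Y} {m : ℕ} {y : Y} :
    y ∈ top e m ↔ ∃ i : Fin n, (i : ℕ) < m ∧ e i = y := by
  classical
  unfold top
  rw [Finset.mem_image]
  constructor
  · rintro ⟨i, hi, h⟩
    exact ⟨i, (Finset.mem_filter.1 hi).2, h⟩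
  · rintro ⟨i, hi, h⟩
    exact ⟨i, Finset.mem_filter.2 ⟨Finset.mem_univ _, hi⟩, h⟩

theorem card_top_le {Y : Type} {n : ℕ} (e : Fin n → Y) (m : ℕ) : (top e m).card ≤ m := by
  classical
  refine Finset.card_image_le.trans ?_
  have : (Finset.univ.filter fun i : Fin n => (i : ℕ) < m).card ≤ (Finset.range m).card := by
    refine Finset.card_le_card_of_injOn (fun i => (i : ℕ)) ?_ ?_
    · intro i hi
      simpa using hi
    · intro i _ j _ h
      exact Fin.ext h
  simpa using this

theorem top_subset {Y : Type} {n : ℕ} (e : Fin n → Y) (m : ℕ) (S : Finset Y)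
    (he : ∀ i, e i ∈ S) : top e m ⊆ S := by
  classical
  intro y hy
  obtain ⟨i, -, rfl⟩ := Finset.mem_image.1 hy
  exact he i

theorem top_mono {Y : Type} {n : ℕ} (e : Fin n → Y) {m m' : ℕ} (h : m ≤ m') :
    top e m ⊆ top e m' := by
  classical
  refine Finset.image_subset_image fun i hi => ?_
  rw [Finset.mem_filter] at hi ⊢
  exact ⟨hi.1, hi.2.trans_le h⟩

theorem hits_mono {B : Type} {h : ℕ} {S S' : Finset (B × Fin h)} (hS : S ⊆ S')
    (p : B → Fin h) : hits S p ≤ hits S' p :=
  Finset.card_le_card (Finset.filter_subset_filter _ hS)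

theorem hits_le {B : Type} [Fintype B] {h : ℕ} (S : Finset (B × Fin h)) (p : B → Fin h) :
    hits S p ≤ Fintype.card B := by
  classical
  rw [← Finset.card_univ]
  refine Finset.card_le_card_of_injOn Prod.fst (fun _ _ => Finset.mem_coe.2 (Finset.mem_univ _)) ?_
  intro y hy y' hy' h
  rw [Finset.mem_coe, Finset.mem_filter] at hy hy'
  refine Prod.ext h ?_
  rw [hy.2, hy'.2, h]

/-- PROOF: `e` is injective. -/
theorem hits_top {B : Type} {h n : ℕ} (e : Fin n → B × Fin h) (he : Function.Injective e)
    (m : ℕ) (p : B → Fin h) :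
    hits (top e m) p =
      ((Finset.univ.filter fun i : Fin n => (e i).2 = p (e i).1).filter
        fun i : Fin n => (i : ℕ) < m).card := by
  symm
  refine Finset.card_bij (fun i _ => e i) ?_ (fun i _ j _ h => he h) ?_
  · intro i hi
    rw [Finset.mem_filter, Finset.mem_filter] at hi
    exact Finset.mem_filter.2 ⟨mem_top.2 ⟨i, hi.2, rfl⟩, hi.1.2⟩
  · intro y hy
    obtain ⟨h1, h2⟩ := Finset.mem_filter.1 hy
    obtain ⟨i, hi, rfl⟩ := mem_top.1 h1
    refine ⟨i, ?_, rfl⟩
    rw [Finset.mem_filter, Finset.mem_filter]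
    exact ⟨⟨Finset.mem_univ _, h2⟩, hi⟩

end Pool.Agent.W91_5f6b2a
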