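import Pool.Agent.W91_5f6b2a.Gate
import Pool.Agent.W91_5f6b2a.Cube
import Pool.Agent.W74_5f6b2a_tape.Restrict

/-!
The assignment to the bits of all blocks given by the choice of a pair in every good block.
-/

namespace Pool.Agent.W91_5f6b2a

open Pool.Agent.W74_5f6b2a_tape

variable {m h : ℕ} {B : Finset (Fin m)}

open Classical in
/-- The first bit of a pair is true if and only if it is the chosen one; the second bits of the
pairs `f β r` are given by `z`; all other bits are false. -/
noncomputable def asg (f : B → Fin h → Fin (2 * h)) (p : B → Fin h) (z : B × Fin h → Bool) :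
    Fin (m * (2 * h * 2)) → Bool := fun a =>
  let y := (posEquiv m (2 * h) 2).symm a
  decide (∃ (β : B) (r : Fin h), (β : Fin m) = y.1 ∧ f β r = y.2.1 ∧
    if y.2.2 = 0 then p β = r else z (β, r) = true)

variable {f : B → Fin h → Fin (2 * h)}

theorem asg_zero (p : B → Fin h) (z : B × Fin h → Bool) (i : Fin m) (j : Fin (2 * h)) :
    asg f p z (pos i j 0) = true ↔ ∃ β : B, (β : Fin m) = i ∧ f β (p β) = j := by
  unfold asg
  simp only [posEquiv_symm, decide_eq_true_eq, if_true]
  constructor
  · rintro ⟨β, r, h1, h2, h3⟩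
    exact ⟨β, h1, by rw [h3]; exact h2⟩
  · rintro ⟨β, h1, h2⟩
    exact ⟨β, p β, h1, h2, rfl⟩

theorem asg_one (p : B → Fin h) (z : B × Fin h → Bool) (i : Fin m) (j : Fin (2 * h)) :
    asg f p z (pos i j 1) = true ↔ ∃ (β : B) (r : Fin h), (β : Fin m) = i ∧ f β r = j ∧
      z (β, r) = true := by
  have h10 : ¬ ((1 : Fin 2) = 0) := by decide
  unfold asg
  simp only [posEquiv_symm, decide_eq_true_eq, if_neg h10]

/-- Every bit is a first or a second bit of a pair. -/
theorem exists_pos (a : Fin (m * (2 * h * 2))) :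
    ∃ (i : Fin m) (j : Fin (2 * h)), a = pos i j 0 ∨ a = pos i j 1 := by
  have h1 : a = posEquiv m (2 * h) 2 ((posEquiv m (2 * h) 2).symm a) := by simp
  generalize (posEquiv m (2 * h) 2).symm a = y at h1
  obtain ⟨i, j, c⟩ := y
  refine ⟨i, j, ?_⟩
  have h2 : a = pos i j c := h1
  fin_cases c
  · exact Or.inl h2
  · exact Or.inr h2

theorem pos_inj {i i' : Fin m} {j j' : Fin (2 * h)} {c c' : Fin 2}
    (e : (pos i j c : Fin (m * (2 * h * 2))) = pos i' j' c') : i = i' ∧ j = j' ∧ c = c' := by
  have h1 := congrArg (posEquiv m (2 * h) 2).symm e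
  rw [posEquiv_symm, posEquiv_symm] at h1
  simp only [Prod.mk.injEq] at h1
  exact h1

/-- The second bits of the pairs `f β r` which are in `U`. -/
noncomputable def pull (f : B → Fin h → Fin (2 * h)) (U : Finset (Fin (m * (2 * h * 2)))) :
    Finset (B × Fin h) :=
  Finset.univ.filter fun y => pos (y.1 : Fin m) (f y.1 y.2) 1 ∈ U

theorem pos_val_inj (hf : ∀ β, Function.Injective (f β)) {y y' : B × Fin h}
    (e : (pos (y.1 : Fin m) (f y.1 y.2) 1 : Fin (m * (2 * h * 2))) =
      pos (y'.1 : Fin m) (f y'.1 y'.2) 1) : y = y' := by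
  obtain ⟨h1, h2, -⟩ := pos_inj e
  obtain ⟨β, r⟩ := y
  obtain ⟨β', r'⟩ := y'
  have h3 : β = β' := Subtype.ext h1
  subst h3
  have h4 : r = r' := hf β h2
  rw [h4]

/-- PROOF: `y ↦ pos y.1 (f y.1 y.2) 1` is injective. -/
theorem card_pull_le (hf : ∀ β, Function.Injective (f β)) (U : Finset (Fin (m * (2 * h * 2)))) :
    (pull f U).card ≤ U.card := by
  refine Finset.card_le_card_of_injOn (fun y => pos (y.1 : Fin m) (f y.1 y.2) 1) ?_ ?_
  · intro y hy
    exact (Finset.mem_filter.1 hy).2
  · intro y _ y' _ e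
    exact pos_val_inj hf e

/-- PROOF: every `a` is `pos i j 0` or `pos i j 1` (`posEquiv` is surjective); use `asg_zero`,
`asg_one`. -/
theorem asg_congr (p : B → Fin h) {z z' : B × Fin h → Bool}
    {U : Finset (Fin (m * (2 * h * 2)))} (hz : ∀ y ∈ pull f U, z y = z' y) :
    ∀ a ∈ U, asg f p z a = asg f p z' a := by
  intro a ha
  obtain ⟨i, j, rfl | rfl⟩ := exists_pos a
  · rw [Bool.eq_iff_iff, asg_zero, asg_zero]
  · rw [Bool.eq_iff_iff, asg_one, asg_one]
    constructor
    · rintro ⟨β, r, h1, h2, h3⟩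
      refine ⟨β, r, h1, h2, ?_⟩
      rw [← hz (β, r) (Finset.mem_filter.2 ⟨Finset.mem_univ _, by rw [h1, h2]; exact ha⟩)]
      exact h3
    · rintro ⟨β, r, h1, h2, h3⟩
      refine ⟨β, r, h1, h2, ?_⟩
      rw [hz (β, r) (Finset.mem_filter.2 ⟨Finset.mem_univ _, by rw [h1, h2]; exact ha⟩)]
      exact h3

/-- PROOF. For `a ∈ U` of the form `pos i j 0` the terms of `a` in the left side and in the first
sum on the right side agree (`asg_zero`). If `a = pos i j 1` then its term in the first sum on the
right side is zero, and its term on the left side is zero unless `a = pos β (f β r) 1` for some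
(unique) `(β, r)` (`hf`), when it is `if z (β, r) = true then w a else 0`. -/
theorem asg_sum (hf : ∀ β, Function.Injective (f β)) (U : Finset (Fin (m * (2 * h * 2))))
    (w : Fin (m * (2 * h * 2)) → ℝ) (p : B → Fin h) (z : B × Fin h → Bool) :
    (∑ a ∈ U, if asg f p z a = true then w a else 0) =
      (∑ a ∈ U, if asg f p (fun _ => false) a = true then w a else 0) +
        ∑ y ∈ pull f U, if z y = true then w (pos (y.1 : Fin m) (f y.1 y.2) 1) else 0 := by
  classical
  rw [← Finset.sum_fiberwise_of_maps_to (s := pull f U) (t := U)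
    (g := fun y : B × Fin h => pos (y.1 : Fin m) (f y.1 y.2) 1)
    (fun y hy => (Finset.mem_filter.1 hy).2), ← Finset.sum_add_distrib]
  refine Finset.sum_congr rfl fun a ha => ?_
  obtain ⟨i, j, rfl | rfl⟩ := exists_pos a
  · -- first bit
    have h1 : (pull f U).filter (fun y : B × Fin h =>
        (pos (y.1 : Fin m) (f y.1 y.2) 1 : Fin (m * (2 * h * 2))) = pos i j 0) = ∅ := by
      rw [Finset.filter_eq_empty_iff]
      intro y _ e
      exact absurd (pos_inj e).2.2 (by decide)
    rw [h1, Finset.sum_empty, add_zero]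
    have h2 : asg f p z (pos i j 0) = asg f p (fun _ => false) (pos i j 0) := by
      rw [Bool.eq_iff_iff, asg_zero, asg_zero]
    rw [h2]
  · -- second bit
    have h0 : ¬ (asg f p (fun _ => false) (pos i j 1) = true) := by
      rw [asg_one]
      rintro ⟨β, r, -, -, h3⟩
      exact Bool.false_ne_true h3
    rw [if_neg h0, zero_add]
    by_cases hex : ∃ y : B × Fin h,
        (pos (y.1 : Fin m) (f y.1 y.2) 1 : Fin (m * (2 * h * 2))) = pos i j 1
    · obtain ⟨y, hy⟩ := hex
      have h1 : (pull f U).filter (fun y : B × Fin h =>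
          (pos (y.1 : Fin m) (f y.1 y.2) 1 : Fin (m * (2 * h * 2))) = pos i j 1) = {y} := by
        ext y'
        rw [Finset.mem_filter, Finset.mem_singleton]
        constructor
        · rintro ⟨-, e⟩
          exact pos_val_inj hf (e.trans hy.symm)
        · rintro rfl
          exact ⟨Finset.mem_filter.2 ⟨Finset.mem_univ _, by rw [hy]; exact ha⟩, hy⟩
      rw [h1, Finset.sum_singleton, ← hy]
      obtain ⟨β, r⟩ := y
      obtain ⟨h3, h4, -⟩ := pos_inj hy
      have h5 : asg f p z (pos (β : Fin m) (f β r) 1) = true ↔ z (β, r) = true := by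
        rw [asg_one]
        constructor
        · rintro ⟨β', r', h6, h7, h8⟩
          have h9 : β' = β := Subtype.ext h6
          subst h9
          rw [← hf β' h7]
          exact h8
        · intro h6
          exact ⟨β, r, rfl, rfl, h6⟩
      by_cases h6 : z (β, r) = true
      · rw [if_pos h6, if_pos (h5.2 h6)]
      · rw [if_neg h6, if_neg (fun h => h6 (h5.1 h))]
    · have h1 : (pull f U).filter (fun y : B × Fin h =>
          (pos (y.1 : Fin m) (f y.1 y.2) 1 : Fin (m * (2 * h * 2))) = pos i j 1) = ∅ := by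
        rw [Finset.filter_eq_empty_iff]
        intro y _ e
        exact hex ⟨y, e⟩
      rw [h1, Finset.sum_empty, if_neg]
      rw [asg_one]
      rintro ⟨β, r, h6, h7, -⟩
      exact hex ⟨(β, r), by rw [h6, h7]⟩

/-- A gate of the bits of the blocks is a gate of the second bits. PROOF: `asg_congr`, `asg_sum`,
`card_pull_le`. -/
theorem asg_gate {q : ℕ} (hf : ∀ β, Function.Injective (f β))
    {U : Finset (Fin (m * (2 * h * 2)))} {φ : (Fin (m * (2 * h * 2)) → Bool) → Bool}
    (hφ : IsGate q U φ) :
    (∀ (p : B → Fin h) z z', (∀ y ∈ pull f U, z y = z' y) → φ (asg f p z) = φ (asg f p z')) ∧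
      ((pull f U).card ≤ q ∨
        ∃ (w : B × Fin h → ℝ) (F : ℝ → Bool) (c : (B → Fin h) → ℝ), Jumps q F ∧
          ∀ p z, φ (asg f p z) = F (c p + ∑ y ∈ pull f U, if z y = true then w y else 0)) := by
  refine ⟨fun p z z' hz => hφ.1 _ _ (asg_congr p hz), ?_⟩
  rcases hφ.2 with h1 | ⟨w, F, hF, h2⟩
  · exact Or.inl ((card_pull_le hf U).trans h1)
  · refine Or.inr ⟨fun y => w (pos (y.1 : Fin m) (f y.1 y.2) 1), F,
      fun p => ∑ a ∈ U, if asg f p (fun _ => false) a = true then w a else 0, hF, fun p z => ?_⟩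
    rw [h2, asg_sum hf]

open Classical in
/-- The restricted assignment: the live pair of the block `β` carries `v β` if `β ∉ Del` and is
false if `β ∈ Del`. -/
noncomputable def sub (f : B → Fin h → Fin (2 * h)) (p : B → Fin h) (x : B × Fin h → Bool)
    (Del : Finset B) (v : Fin m → Bool) : Fin (m * (2 * h * 2)) → Bool :=
  asg f p (cube p x fun β => v β && decide (β ∉ Del))

/-- The blocks which survive. -/
def surv (Del : Finset B) : Finset (Fin m) := (Delᶜ : Finset B).image Subtype.val

/-- Every bit of the restricted assignment is a function of at most one variable. PROOF: the bits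
`pos i j 0` are constant. If `pos i j 1` is not constant false, then `j = f β r` with `β = i`
(unique by `hf`), and the bit is `v β && decide (β ∉ Del)` if `r = p β` and `x (β, r)`
otherwise. -/
theorem sub_jun (hf : ∀ β, Function.Injective (f β)) (p : B → Fin h) (x : B × Fin h → Bool)
    (Del : Finset B) (a : Fin (m * (2 * h * 2))) : Jun (surv Del) fun v => sub f p x Del v a := by
  classical
  obtain ⟨i, j, rfl | rfl⟩ := exists_pos a
  · refine ⟨∅, Finset.empty_subset _, by simp, fun v v' _ => ?_⟩
    unfold sub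
    rw [Bool.eq_iff_iff, asg_zero, asg_zero]
  · by_cases hex : ∃ y : B × Fin h,
        (pos (y.1 : Fin m) (f y.1 y.2) 1 : Fin (m * (2 * h * 2))) = pos i j 1
    · obtain ⟨⟨β, r⟩, hy⟩ := hex
      have h5 : ∀ z : B × Fin h → Bool, asg f p z (pos i j 1) = z (β, r) := by
        intro z
        rw [← hy, Bool.eq_iff_iff, asg_one]
        constructor
        · rintro ⟨β', r', h6, h7, h8⟩
          have h9 : β' = β := Subtype.ext h6
          subst h9
          have h10 : r' = r := hf β' h7
          subst h10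
          exact h8
        · intro h6
          exact ⟨β, r, rfl, rfl, h6⟩
      by_cases hr : r = p β
      · by_cases hβ : β ∈ Del
        · refine ⟨∅, Finset.empty_subset _, by simp, fun v v' _ => ?_⟩
          simp only [sub, h5, cube]
          rw [if_pos hr, if_pos hr]
          simp [hβ]
        · refine ⟨{(β : Fin m)}, ?_, by simp, fun v v' hv => ?_⟩
          · rw [Finset.singleton_subset_iff, surv, Finset.mem_image]
            exact ⟨β, by simpa using hβ, rfl⟩
          · simp only [sub, h5, cube]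
            rw [if_pos hr, if_pos hr, hv (β : Fin m) (Finset.mem_singleton_self _)]
      · refine ⟨∅, Finset.empty_subset _, by simp, fun v v' _ => ?_⟩
        simp only [sub, h5, cube]
        rw [if_neg hr, if_neg hr]
    · refine ⟨∅, Finset.empty_subset _, by simp, fun v v' _ => ?_⟩
      unfold sub
      rw [Bool.eq_iff_iff, asg_one, asg_one]
      constructor
      · rintro ⟨β, r, h6, h7, -⟩
        exact absurd ⟨(β, r), by rw [h6, h7]⟩ hex
      · rintro ⟨β, r, h6, h7, -⟩
        exact absurd ⟨(β, r), by rw [h6, h7]⟩ hex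

/-- The decoded bits. PROOF: if the left side holds then `i = β` for some `β : B` and
`j = f β (p β) = f β r`, `r = p β`, so `cube …` is `v β && decide (β ∉ Del)`. Conversely take
`j = f β (p β)`. -/
theorem sub_dec (hf : ∀ β, Function.Injective (f β)) (p : B → Fin h) (x : B × Fin h → Bool)
    (Del : Finset B) (V : Finset (Fin (m * (2 * h * 2))))
    (hV : ∀ (β : B) (r : Fin h), pos (β : Fin m) (f β r) 0 ∈ V ∧ pos (β : Fin m) (f β r) 1 ∈ V)
    (v : Fin m → Bool) (i : Fin m) :
    (∃ j : Fin (2 * h), (sub f p x Del v (pos i j 0) = true ∧ pos i j 0 ∈ V) ∧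
      sub f p x Del v (pos i j 1) = true ∧ pos i j 1 ∈ V) ↔ v i = true ∧ i ∈ surv Del := by
  classical
  constructor
  · rintro ⟨j, ⟨h1, -⟩, h2, -⟩
    unfold sub at h1 h2
    rw [asg_zero] at h1
    rw [asg_one] at h2
    obtain ⟨β, h3, h4⟩ := h1
    obtain ⟨β', r, h5, h6, h7⟩ := h2
    have h8 : β' = β := Subtype.ext (h5.trans h3.symm)
    subst h8
    have h9 : r = p β' := hf β' (h6.trans h4.symm)
    simp only [cube] at h7
    rw [if_pos h9, Bool.and_eq_true, decide_eq_true_eq] at h7
    refine ⟨by rw [← h3]; exact h7.1, ?_⟩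
    rw [surv, Finset.mem_image]
    exact ⟨β', by simpa using h7.2, h3⟩
  · rintro ⟨h1, h2⟩
    rw [surv, Finset.mem_image] at h2
    obtain ⟨β, h3, rfl⟩ := h2
    have h3' : β ∉ Del := by simpa using h3
    refine ⟨f β (p β), ⟨?_, (hV β (p β)).1⟩, ?_, (hV β (p β)).2⟩
    · unfold sub
      rw [asg_zero]
      exact ⟨β, rfl, rfl⟩
    · unfold sub
      rw [asg_one]
      refine ⟨β, p β, rfl, rfl, ?_⟩
      simp only [cube, if_true]
      rw [Bool.and_eq_true, decide_eq_true_eq]
      exact ⟨h1, h3'⟩

/-- PROOF: `(surv Del)ᶜ = Bᶜ ∪ Del.image (↑)`. -/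
theorem card_surv_compl (Del : Finset B) : (surv Del)ᶜ.card ≤ Bᶜ.card + Del.card := by
  classical
  have h1 : (surv Del)ᶜ ⊆ Bᶜ ∪ Del.image Subtype.val := by
    intro i hi
    rw [Finset.mem_compl, surv, Finset.mem_image] at hi
    rw [Finset.mem_union, Finset.mem_compl, Finset.mem_image]
    by_cases hB : i ∈ B
    · right
      refine ⟨⟨i, hB⟩, ?_, rfl⟩
      by_contra hD
      exact hi ⟨⟨i, hB⟩, by simpa using hD, rfl⟩
    · exact Or.inl hB
  calc (surv Del)ᶜ.card ≤ (Bᶜ ∪ Del.image Subtype.val).card := Finset.card_le_card h1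
    _ ≤ Bᶜ.card + (Del.image Subtype.val).card := Finset.card_union_le _ _
    _ ≤ Bᶜ.card + Del.card := Nat.add_le_add_left Finset.card_image_le _

end Pool.Agent.W91_5f6b2a
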