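import Mathlib

/-!
Averaging over one coordinate.
-/

namespace Pool.Agent.W91_5f6b2a

/-- PROOF: count the pairs `(t, c)` with `P (Function.update t g c)`. For every `t` there are at
most `q` such `c`. On the other hand, for every `t'` with `P t'` there are exactly `T + 1` pairs with
`Function.update t g c = t'`, namely `(Function.update t' g c', t' g)` for `c' : Fin (T + 1)`. -/
theorem upd_count {ι : Type} [Fintype ι] [DecidableEq ι] {T q : ℕ} (g : ι)
    (P : (ι → Fin (T + 1)) → Prop) [DecidablePred P]
    (hP : ∀ t, (Finset.univ.filter fun c => P (Function.update t g c)).card ≤ q) :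
    (T + 1) * (Finset.univ.filter P).card ≤ q * (T + 1) ^ Fintype.card ι := by
  have h1 : ((Finset.univ.filter P) ×ˢ (Finset.univ : Finset (Fin (T + 1)))).card ≤
      ((Finset.univ : Finset (ι → Fin (T + 1))).sigma
        (fun t => Finset.univ.filter fun c => P (Function.update t g c))).card := by
    refine Finset.card_le_card_of_injOn
      (fun p => (⟨Function.update p.1 g p.2, p.1 g⟩ :
        (_ : ι → Fin (T + 1)) × Fin (T + 1))) ?_ ?_
    · rintro ⟨t, c⟩ hp
      rw [Finset.mem_coe, Finset.mem_product, Finset.mem_filter] at hp
      rw [Finset.mem_coe, Finset.mem_sigma, Finset.mem_filter]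
      refine ⟨Finset.mem_univ _, Finset.mem_univ _, ?_⟩
      rw [Function.update_idem, Function.update_eq_self]
      exact hp.1.2
    · rintro ⟨t, c⟩ _ ⟨t', c'⟩ _ h
      have h2 : Function.update t g c = Function.update t' g c' := congrArg Sigma.fst h
      have h3 : t g = t' g := congrArg Sigma.snd h
      have h4 : c = c' := by
        have h5 := congrFun h2 g
        rw [Function.update_self, Function.update_self] at h5
        exact h5
      have h6 : t = t' := by
        funext i
        by_cases hi : i = g
        · rw [hi]
          exact h3
        · have h5 := congrFun h2 i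
          rw [Function.update_of_ne hi, Function.update_of_ne hi] at h5
          exact h5
      rw [h4, h6]
  rw [Finset.card_product, Finset.card_univ, Fintype.card_fin, Finset.card_sigma] at h1
  have h2 : ∑ t : ι → Fin (T + 1), (Finset.univ.filter fun c =>
      P (Function.update t g c)).card ≤ ∑ _t : ι → Fin (T + 1), q :=
    Finset.sum_le_sum fun t _ => hP t
  rw [Finset.sum_const, Finset.card_univ, Fintype.card_fun, Fintype.card_fin,
    smul_eq_mul] at h2
  calc (T + 1) * (Finset.univ.filter P).card = (Finset.univ.filter P).card * (T + 1) :=
        mul_comm _ _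
    _ ≤ _ := h1
    _ ≤ (T + 1) ^ Fintype.card ι * q := h2
    _ = q * (T + 1) ^ Fintype.card ι := mul_comm _ _

end Pool.Agent.W91_5f6b2a
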