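import Pool.Agent.W91_5f6b2a.Own
import Pool.Agent.W91_5f6b2a.Upd

/-!
Averaging over the thresholds.
-/

namespace Pool.Agent.W91_5f6b2a

open Classical in
/-- The assignment given by the thresholds `t`: the representative `e g (r g u i)` has its upper
value for the weights `w g` if `i < t g` and its lower value otherwise. The other positions are
false. -/
noncomputable def own {ι Y : Type} {m k : ι → ℕ} {T : ℕ} (w : ι → Y → ℝ)
    (e : (g : ι) → Fin (m g) → Y) (r : (g : ι) → Fin (k g) → Fin T → Fin (m g))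
    (t : ι → Fin (T + 1)) : Y → Bool := fun y =>
  decide (∃ (g : ι) (u : Fin (k g)) (i : Fin T), e g (r g u i) = y ∧
    (((i : ℕ) < (t g : ℕ) ∧ 0 < w g y) ∨ (¬ (i : ℕ) < (t g : ℕ) ∧ w g y < 0)))

/-- For at most a fraction of `q / (T + 1)` of all `t` the gate is not constant on the cube.

PROOF: `upd_count` for the predicate `P t := ∃ v v', F (c0 + …) ≠ F (c0 + …)`; for given `t`, the
hypothesis of `upd_count` is `own_count` for `x c = own w e r (Function.update t g c)` and
`r := r g`, `e := e g`. Its hypotheses `hx1`, `hx2` follow from the injectivity `hinj` and the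
definition of `own` (a representative of a gate `g' ≠ g` has a value which does not depend on
`c`). -/
theorem own_avg {B ι : Type} [Fintype B] [DecidableEq B] [Fintype ι] [DecidableEq ι]
    {h ℓ T q : ℕ} (hℓ : 1 ≤ ℓ) (p : B → Fin h)
    (S : ι → Finset (B × Fin h)) (w : ι → B × Fin h → ℝ)
    (e : (g : ι) → Fin (S g).card → B × Fin h) (he : ∀ g, Function.Injective (e g))
    (heS : ∀ g i, e g i ∈ S g) (hsurj : ∀ g, ∀ y ∈ S g, ∃ i, e g i = y)
    (hsort : ∀ g i j, i ≤ j → |w g (e g j)| ≤ |w g (e g i)|)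
    (r : (g : ι) → Fin ((S g).card / ℓ) → Fin T → Fin (S g).card)
    (hr : ∀ (g : ι) (u : Fin ((S g).card / ℓ)) (i : Fin T),
        (u : ℕ) * ℓ ≤ (r g u i : ℕ) ∧ (r g u i : ℕ) < ((u : ℕ) + 1) * ℓ)
    (hinj : ∀ (g : ι) (u : Fin ((S g).card / ℓ)) (i : Fin T) (g' : ι)
        (u' : Fin ((S g').card / ℓ)) (i' : Fin T),
        e g (r g u i) = e g' (r g' u' i') → g = g' ∧ (u : ℕ) = u' ∧ i = i')
    (g : ι) {F : ℝ → Bool} (hF : Jumps q F) (c0 : ℝ)
    (hpre : ∀ u : ℕ, 1 ≤ u → 2 * hits (top (e g) (u * ℓ)) p < u)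
    (P : (ι → Fin (T + 1)) → Prop) [DecidablePred P]
    (hP : ∀ t, P t → ∃ v v' : B → Bool,
      F (c0 + ∑ y ∈ S g, if cube p (own w e r t) v y = true then w g y else 0) ≠
        F (c0 + ∑ y ∈ S g, if cube p (own w e r t) v' y = true then w g y else 0)) :
    (T + 1) * (Finset.univ.filter P).card ≤ q * (T + 1) ^ Fintype.card ι := by
  refine upd_count g P fun t => ?_
  refine own_count hℓ p (S g) (w g) hF c0 (e g) (he g) (heS g) (hsurj g) (hsort g) (r g) (hr g)
    (fun u i i' h => (hinj g u i g u i' (by rw [h])).2.2)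
    (fun c => own w e r (Function.update t g c)) ?_ ?_ hpre
    (fun c => P (Function.update t g c)) (fun c hc => hP _ hc)
  · intro c u i
    have h1 : (∃ (g' : ι) (u' : Fin ((S g').card / ℓ)) (i' : Fin T),
        e g' (r g' u' i') = e g (r g u i) ∧
        (((i' : ℕ) < (Function.update t g c g' : ℕ) ∧ 0 < w g' (e g (r g u i))) ∨
          (¬ (i' : ℕ) < (Function.update t g c g' : ℕ) ∧ w g' (e g (r g u i)) < 0))) ↔
        (((i : ℕ) < (c : ℕ) ∧ 0 < w g (e g (r g u i))) ∨
          (¬ (i : ℕ) < (c : ℕ) ∧ w g (e g (r g u i)) < 0)) := by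
      constructor
      · rintro ⟨g', u', i', h, h2⟩
        obtain ⟨h3, -, h5⟩ := hinj g' u' i' g u i h
        subst h3
        subst h5
        rwa [Function.update_self] at h2
      · intro h2
        refine ⟨g, u, i, rfl, ?_⟩
        rwa [Function.update_self]
    have h2 : own w e r (Function.update t g c) (e g (r g u i)) =
        decide (((i : ℕ) < (c : ℕ) ∧ 0 < w g (e g (r g u i))) ∨
          (¬ (i : ℕ) < (c : ℕ) ∧ w g (e g (r g u i)) < 0)) := by
      unfold own
      exact decide_eq_decide.2 h1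
    rw [h2]
    by_cases h3 : (i : ℕ) < (c : ℕ)
    · rw [if_pos h3]
      exact decide_eq_decide.2 (by simp [h3])
    · rw [if_neg h3]
      exact decide_eq_decide.2 (by simp [h3])
  · intro c c' y hy
    have h1 : ∀ d d' : Fin (T + 1), (∃ (g' : ι) (u' : Fin ((S g').card / ℓ)) (i' : Fin T),
        e g' (r g' u' i') = y ∧
        (((i' : ℕ) < (Function.update t g d g' : ℕ) ∧ 0 < w g' y) ∨
          (¬ (i' : ℕ) < (Function.update t g d g' : ℕ) ∧ w g' y < 0))) →
        (∃ (g' : ι) (u' : Fin ((S g').card / ℓ)) (i' : Fin T), e g' (r g' u' i') = y ∧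
        (((i' : ℕ) < (Function.update t g d' g' : ℕ) ∧ 0 < w g' y) ∨
          (¬ (i' : ℕ) < (Function.update t g d' g' : ℕ) ∧ w g' y < 0))) := by
      rintro d d' ⟨g', u', i', h, h2⟩
      have hg : g' ≠ g := by
        rintro rfl
        exact hy u' i' h.symm
      refine ⟨g', u', i', h, ?_⟩
      rw [Function.update_of_ne hg] at h2 ⊢
      exact h2
    unfold own
    exact decide_eq_decide.2 ⟨h1 c c', h1 c' c⟩

end Pool.Agent.W91_5f6b2a
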