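import Mathlib

/-!
Blocks with many good pairs.
-/

namespace Pool.Agent.W91_5f6b2a

/-- `G i j` says that the pair number `j` of the block number `i` is good. PROOF: let `B` be the set
of the blocks with at least `h` good pairs. In the other blocks there are at least `h` bad pairs.
For `i ∈ B` an injection `Fin h → Fin (2 * h)` into the set of good `j` exists by cardinality. -/
theorem good_blocks {m h b : ℕ} (G : Fin m → Fin (2 * h) → Prop) [∀ i j, Decidable (G i j)]
    (hbad : (Finset.univ.filter fun x : Fin m × Fin (2 * h) => ¬ G x.1 x.2).card ≤ b) :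
    ∃ (B : Finset (Fin m)) (f : B → Fin h → Fin (2 * h)), h * Bᶜ.card ≤ b ∧
      (∀ β, Function.Injective (f β)) ∧ ∀ (β : B) (r : Fin h), G β (f β r) := by
  classical
  let B : Finset (Fin m) :=
    Finset.univ.filter fun i => h ≤ (Finset.univ.filter fun j => G i j).card
  have hB : ∀ i ∈ B, ∃ f : Fin h → Fin (2 * h), Function.Injective f ∧ ∀ r, G i (f r) := by
    intro i hi
    have h1 : h ≤ (Finset.univ.filter fun j => G i j).card := (Finset.mem_filter.1 hi).2
    obtain ⟨t, ht, htc⟩ := Finset.exists_subset_card_eq h1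
    refine ⟨fun r => t.orderEmbOfFin htc r, (t.orderEmbOfFin htc).injective, fun r => ?_⟩
    exact (Finset.mem_filter.1 (ht (Finset.orderEmbOfFin_mem t htc r))).2
  refine ⟨B, fun β => (hB β.1 β.2).choose, ?_, fun β => (hB β.1 β.2).choose_spec.1,
    fun β r => (hB β.1 β.2).choose_spec.2 r⟩
  have hsum : (Finset.univ.filter fun x : Fin m × Fin (2 * h) => ¬ G x.1 x.2).card =
      ∑ i : Fin m, (Finset.univ.filter fun j => ¬ G i j).card := by
    rw [Finset.card_eq_sum_card_fiberwise (f := Prod.fst) (t := Finset.univ)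
      (fun x _ => Finset.mem_univ _)]
    refine Finset.sum_congr rfl fun i _ => ?_
    refine Finset.card_bij' (fun x _ => x.2) (fun j _ => (i, j)) ?_ ?_ ?_ ?_
    · intro x hx
      simp only [Finset.mem_filter, Finset.mem_univ, true_and] at hx ⊢
      rw [← hx.2]
      exact hx.1
    · intro j hj
      simp only [Finset.mem_filter, Finset.mem_univ, true_and] at hj ⊢
      exact ⟨hj, trivial⟩
    · intro x hx
      simp only [Finset.mem_filter, Finset.mem_univ, true_and] at hx
      exact Prod.ext hx.2.symm rfl
    · intro j _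
      rfl
  calc h * Bᶜ.card = ∑ i ∈ Bᶜ, h := by rw [Finset.sum_const, smul_eq_mul, mul_comm]
    _ ≤ ∑ i ∈ Bᶜ, (Finset.univ.filter fun j => ¬ G i j).card := by
        refine Finset.sum_le_sum fun i hi => ?_
        have h1 : ¬ h ≤ (Finset.univ.filter fun j => G i j).card := by
          intro hcon
          exact Finset.mem_compl.1 hi (Finset.mem_filter.2 ⟨Finset.mem_univ _, hcon⟩)
        have h2 := Finset.card_filter_add_card_filter_not
          (s := (Finset.univ : Finset (Fin (2 * h)))) (fun j => G i j)
        rw [Finset.card_univ, Fintype.card_fin] at h2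
        omega
    _ ≤ ∑ i : Fin m, (Finset.univ.filter fun j => ¬ G i j).card :=
        Finset.sum_le_sum_of_subset (Finset.subset_univ _)
    _ ≤ b := hsum ▸ hbad

/-- PROOF: double counting, `∑ y, #{g | y ∈ S g} = ∑ g, (S g).card`, Markov. -/
theorem card_big_deg {ι Y : Type} [Fintype ι] [Fintype Y] [DecidableEq Y] (S : ι → Finset Y)
    {Δ W : ℕ} (hW : ∑ g, (S g).card ≤ W) :
    Δ * (Finset.univ.filter fun y => Δ < (Finset.univ.filter fun g => y ∈ S g).card).card ≤ W := by
  classical
  have hdc : ∑ y : Y, (Finset.univ.filter fun g => y ∈ S g).card = ∑ g, (S g).card := by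
    have h1 : ∀ y : Y, (Finset.univ.filter fun g => y ∈ S g).card =
        ∑ g, if y ∈ S g then 1 else 0 := fun y => Finset.card_filter _ _
    have h2 : ∀ g, (S g).card = ∑ y : Y, if y ∈ S g then 1 else 0 := by
      intro g
      rw [← Finset.card_filter]
      congr 1
      ext y
      simp
    rw [Finset.sum_congr rfl fun y _ => h1 y, Finset.sum_congr rfl fun g _ => h2 g,
      Finset.sum_comm]
  set F := Finset.univ.filter fun y => Δ < (Finset.univ.filter fun g => y ∈ S g).card with hF
  calc Δ * F.card = ∑ y ∈ F, Δ := by rw [Finset.sum_const, smul_eq_mul, mul_comm]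
    _ ≤ ∑ y ∈ F, (Finset.univ.filter fun g => y ∈ S g).card :=
        Finset.sum_le_sum fun y hy => (Finset.mem_filter.1 hy).2.le
    _ ≤ ∑ y : Y, (Finset.univ.filter fun g => y ∈ S g).card :=
        Finset.sum_le_sum_of_subset (Finset.subset_univ _)
    _ ≤ W := hdc ▸ hW

end Pool.Agent.W91_5f6b2a
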