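import Pool.Agent.W91_5f6b2a.Defs
import Pool.Agent.W74_5f6b2a_tape.Defs
import Pool.Agent.W74_5f6b2a_tape.Pad

/-!
Comparison with the definitions in `W74_5f6b2a_tape`.
-/

namespace Pool.Agent.W91_5f6b2a

open Pool.Agent.W74_5f6b2a_tape

theorem place_eq {m L : ℕ} (i : Fin m) (j : Fin L) (b : Fin 2) : place i j b = pos i j b := rfl

theorem Frm.form {X : Type} {𝓛 : ((X → Bool) → Prop) → Prop} {s d : ℕ} {f : (X → Bool) → Prop}
    (h : Frm 𝓛 s d f) : Form 𝓛 s d f := by
  induction h with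
  | leaf f hf => exact Form.leaf f hf
  | all m hm g _ ih => exact Form.all m hm g ih
  | ex m hm g _ ih => exact Form.ex m hm g ih

theorem Frm.of_form {X : Type} {𝓛 : ((X → Bool) → Prop) → Prop} {s d : ℕ}
    {f : (X → Bool) → Prop} (h : Form 𝓛 s d f) : Frm 𝓛 s d f := by
  induction h with
  | leaf f hf => exact Frm.leaf f hf
  | all m hm g _ ih => exact Frm.all m hm g ih
  | ex m hm g _ ih => exact Frm.ex m hm g ih

end Pool.Agent.W91_5f6b2a
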