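import Pool.Agent.W91_5f6b2a.Prob

/-!
The expected damage of one gate.
-/

namespace Pool.Agent.W91_5f6b2a

/-- The bad event: the live elements are dense in some initial segment. PROOF: there is `u ≥ 1`
with `u ≤ 2 * hits (top e (u * ℓ)) p ≤ 2 * card B < 2 ^ L` (`hits_le`). Let `i = Nat.log 2 u < L`;
then `2 ^ i ≤ u < 2 ^ (i + 1)`, so `2 ^ i ≤ u ≤ 2 * hits (top e (u * ℓ)) p ≤
2 * hits (top e (2 ^ (i + 1) * ℓ)) p`, and the term number `i` of the sum is at least `1`. -/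
theorem bad_le {B : Type} [Fintype B] {h n L ℓ : ℕ} (e : Fin n → B × Fin h)
    (hB : 2 * Fintype.card B < 2 ^ L) (p : B → Fin h)
    (hbad : ∃ u : ℕ, 1 ≤ u ∧ u ≤ 2 * hits (top e (u * ℓ)) p) :
    (1 : ℝ) ≤ ∑ i ∈ Finset.range L, 2 / 2 ^ i * (hits (top e (2 ^ (i + 1) * ℓ)) p : ℝ) := by
  obtain ⟨u, hu1, hu⟩ := hbad
  have hle := hits_le (top e (u * ℓ)) p
  have huL : u < 2 ^ L := by omega
  set i := Nat.log 2 u with hi
  have hiL : i < L := Nat.log_lt_of_lt_pow (by omega) huL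
  have h1 : 2 ^ i ≤ u := Nat.pow_log_le_self 2 (by omega)
  have h2 : u < 2 ^ (i + 1) := Nat.lt_pow_succ_log_self (by norm_num) u
  have h3 : hits (top e (u * ℓ)) p ≤ hits (top e (2 ^ (i + 1) * ℓ)) p :=
    hits_mono (top_mono e (Nat.mul_le_mul_right _ h2.le)) p
  have h4 : 2 ^ i ≤ 2 * hits (top e (2 ^ (i + 1) * ℓ)) p := by omega
  have h5 : ((2 : ℝ) ^ i) ≤ 2 * (hits (top e (2 ^ (i + 1) * ℓ)) p : ℝ) := by exact_mod_cast h4
  have h6 : (1 : ℝ) ≤ 2 / 2 ^ i * (hits (top e (2 ^ (i + 1) * ℓ)) p : ℝ) := by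
    rw [div_mul_eq_mul_div, le_div_iff₀ (by positivity), one_mul]
    exact h5
  refine h6.trans ?_
  exact Finset.single_le_sum
    (f := fun i => 2 / 2 ^ i * (hits (top e (2 ^ (i + 1) * ℓ)) p : ℝ))
    (fun i _ => by positivity) (Finset.mem_range.2 hiL)

theorem gate_cost_small {B ι : Type} [Fintype B] [DecidableEq B] [Fintype ι] [DecidableEq ι]
    {h L ℓ T R K : ℕ} (hpos : 1 ≤ h)
    (hh : 16 * L * ℓ * R * K * (R * K) ≤ h)
    (S : Finset (B × Fin h))
    (N : (B → Fin h) → (ι → Fin (T + 1)) → Prop) [∀ p t, Decidable (N p t)]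
    (hs : S.card ≤ 16 * L * ℓ * R * K) :
    R * K * h * ∑ p : B → Fin h, ∑ t : ι → Fin (T + 1),
        (if 2 ≤ hits S p ∧ N p t then hits S p else 0) ≤
      h ^ Fintype.card B * (T + 1) ^ Fintype.card ι * S.card := by
  classical
  have h1 : (∑ p : B → Fin h, ∑ t : ι → Fin (T + 1),
      (if 2 ≤ hits S p ∧ N p t then hits S p else 0)) ≤
      (T + 1) ^ Fintype.card ι * ∑ p : B → Fin h, hits S p * (hits S p - 1) := by
    rw [Finset.mul_sum]
    refine Finset.sum_le_sum fun p _ => ?_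
    have : ∀ t ∈ (Finset.univ : Finset (ι → Fin (T + 1))),
        (if 2 ≤ hits S p ∧ N p t then hits S p else 0) ≤ hits S p * (hits S p - 1) := by
      intro t _
      split_ifs with hc
      · exact Nat.le_mul_of_pos_right _ (by omega)
      · exact Nat.zero_le _
    refine (Finset.sum_le_card_nsmul _ _ _ this).trans ?_
    rw [Finset.card_univ, Fintype.card_fun, Fintype.card_fin, smul_eq_mul]
  have h2 := sum_hits_pred S
  refine Nat.le_of_mul_le_mul_left ?_ hpos
  calc h * (R * K * h * ∑ p : B → Fin h, ∑ t : ι → Fin (T + 1),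
        (if 2 ≤ hits S p ∧ N p t then hits S p else 0))
      ≤ h * (R * K * h * ((T + 1) ^ Fintype.card ι *
          ∑ p : B → Fin h, hits S p * (hits S p - 1))) :=
        Nat.mul_le_mul_left _ (Nat.mul_le_mul_left _ h1)
    _ = R * K * (T + 1) ^ Fintype.card ι *
          (h ^ 2 * ∑ p : B → Fin h, hits S p * (hits S p - 1)) := by ring
    _ ≤ R * K * (T + 1) ^ Fintype.card ι * (h ^ Fintype.card B * (S.card * S.card)) :=
        Nat.mul_le_mul_left _ h2
    _ = (R * K * S.card) * (h ^ Fintype.card B * (T + 1) ^ Fintype.card ι * S.card) := by ring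
    _ ≤ (R * K * (16 * L * ℓ * R * K)) *
          (h ^ Fintype.card B * (T + 1) ^ Fintype.card ι * S.card) :=
        Nat.mul_le_mul_right _ (Nat.mul_le_mul_left _ hs)
    _ ≤ h * (h ^ Fintype.card B * (T + 1) ^ Fintype.card ι * S.card) := by
        refine Nat.mul_le_mul_right _ ?_
        refine le_trans (le_of_eq ?_) hh
        ring

open Classical in
theorem first_le {B : Type} [Fintype B] [DecidableEq B]
    {h L ℓ : ℕ} (hB : 2 * Fintype.card B < 2 ^ L)
    (S : Finset (B × Fin h)) (e : Fin S.card → B × Fin h) :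
    (h : ℝ) ^ 2 * (∑ p : B → Fin h, if (∃ u : ℕ, 1 ≤ u ∧ u ≤ 2 * hits (top e (u * ℓ)) p) then
      (hits S p : ℝ) else 0) ≤ 4 * L * ℓ * (h : ℝ) ^ Fintype.card B * (h + S.card) := by
  have h1 : (∑ p : B → Fin h, if (∃ u : ℕ, 1 ≤ u ∧ u ≤ 2 * hits (top e (u * ℓ)) p) then
      (hits S p : ℝ) else 0) ≤ ∑ p : B → Fin h, ∑ i ∈ Finset.range L,
        2 / 2 ^ i * ((hits S p : ℝ) * (hits (top e (2 ^ (i + 1) * ℓ)) p : ℝ)) := by
    refine Finset.sum_le_sum fun p _ => ?_
    split_ifs with hb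
    · have := bad_le e hB p hb
      calc (hits S p : ℝ) = hits S p * 1 := (mul_one _).symm
        _ ≤ hits S p * ∑ i ∈ Finset.range L,
            2 / 2 ^ i * (hits (top e (2 ^ (i + 1) * ℓ)) p : ℝ) :=
            mul_le_mul_of_nonneg_left this (Nat.cast_nonneg _)
        _ = _ := by
            rw [Finset.mul_sum]
            refine Finset.sum_congr rfl fun i _ => ?_
            ring
    · exact Finset.sum_nonneg fun i _ => by positivity
  have h2 : ∀ i ∈ Finset.range L, (h : ℝ) ^ 2 * (∑ p : B → Fin h,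
      2 / 2 ^ i * ((hits S p : ℝ) * (hits (top e (2 ^ (i + 1) * ℓ)) p : ℝ))) ≤
      4 * ℓ * (h : ℝ) ^ Fintype.card B * (h + S.card) := by
    intro i _
    have h3 := sum_hits_mul S (top e (2 ^ (i + 1) * ℓ))
    have h4 := card_top_le e (2 ^ (i + 1) * ℓ)
    have h3' : (h : ℝ) ^ 2 * ∑ p : B → Fin h,
        (hits S p : ℝ) * (hits (top e (2 ^ (i + 1) * ℓ)) p : ℝ) ≤
        (h : ℝ) ^ Fintype.card B * (h * (top e (2 ^ (i + 1) * ℓ)).card +
          S.card * (top e (2 ^ (i + 1) * ℓ)).card) := by exact_mod_cast h3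
    have h4' : ((top e (2 ^ (i + 1) * ℓ)).card : ℝ) ≤ 2 ^ (i + 1) * ℓ := by exact_mod_cast h4
    rw [← Finset.mul_sum]
    calc (h : ℝ) ^ 2 * (2 / 2 ^ i * ∑ p : B → Fin h,
          (hits S p : ℝ) * (hits (top e (2 ^ (i + 1) * ℓ)) p : ℝ))
        = 2 / 2 ^ i * ((h : ℝ) ^ 2 * ∑ p : B → Fin h,
          (hits S p : ℝ) * (hits (top e (2 ^ (i + 1) * ℓ)) p : ℝ)) := by ring
      _ ≤ 2 / 2 ^ i * ((h : ℝ) ^ Fintype.card B * (h * (top e (2 ^ (i + 1) * ℓ)).card +
          S.card * (top e (2 ^ (i + 1) * ℓ)).card)) :=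
          mul_le_mul_of_nonneg_left h3' (by positivity)
      _ = 2 / 2 ^ i * ((h : ℝ) ^ Fintype.card B * (h + S.card)) *
          (top e (2 ^ (i + 1) * ℓ)).card := by ring
      _ ≤ 2 / 2 ^ i * ((h : ℝ) ^ Fintype.card B * (h + S.card)) * (2 ^ (i + 1) * ℓ) :=
          mul_le_mul_of_nonneg_left h4' (by positivity)
      _ = 4 * ℓ * (h : ℝ) ^ Fintype.card B * (h + S.card) := by
          rw [pow_succ]
          field_simp
          ring
  calc (h : ℝ) ^ 2 * (∑ p : B → Fin h, if (∃ u : ℕ, 1 ≤ u ∧ u ≤ 2 * hits (top e (u * ℓ)) p) then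
      (hits S p : ℝ) else 0)
      ≤ (h : ℝ) ^ 2 * ∑ p : B → Fin h, ∑ i ∈ Finset.range L,
        2 / 2 ^ i * ((hits S p : ℝ) * (hits (top e (2 ^ (i + 1) * ℓ)) p : ℝ)) :=
        mul_le_mul_of_nonneg_left h1 (by positivity)
    _ = ∑ i ∈ Finset.range L, (h : ℝ) ^ 2 * (∑ p : B → Fin h,
        2 / 2 ^ i * ((hits S p : ℝ) * (hits (top e (2 ^ (i + 1) * ℓ)) p : ℝ))) := by
        rw [Finset.sum_comm, Finset.mul_sum]
    _ ≤ ∑ i ∈ Finset.range L, 4 * ℓ * (h : ℝ) ^ Fintype.card B * (h + S.card) :=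
        Finset.sum_le_sum h2
    _ = 4 * L * ℓ * (h : ℝ) ^ Fintype.card B * (h + S.card) := by
        rw [Finset.sum_const, Finset.card_range, nsmul_eq_mul]
        ring

open Classical in
theorem second_le {B ι : Type} [Fintype B] [DecidableEq B] [Fintype ι] [DecidableEq ι]
    {h ℓ q T : ℕ}
    (S : Finset (B × Fin h)) (e : Fin S.card → B × Fin h)
    (N : (B → Fin h) → (ι → Fin (T + 1)) → Prop) [∀ p t, Decidable (N p t)]
    (hN : ∀ p, (∀ u : ℕ, 1 ≤ u → 2 * hits (top e (u * ℓ)) p < u) →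
      (T + 1) * (Finset.univ.filter (N p)).card ≤ q * (T + 1) ^ Fintype.card ι) :
    (T + 1) * h * (∑ p : B → Fin h, if (∃ u : ℕ, 1 ≤ u ∧ u ≤ 2 * hits (top e (u * ℓ)) p) then
      0 else hits S p * (Finset.univ.filter (N p)).card) ≤
      q * (T + 1) ^ Fintype.card ι * (h ^ Fintype.card B * S.card) := by
  rw [← sum_hits S]
  calc (T + 1) * h * (∑ p : B → Fin h,
      if (∃ u : ℕ, 1 ≤ u ∧ u ≤ 2 * hits (top e (u * ℓ)) p) then
      0 else hits S p * (Finset.univ.filter (N p)).card)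
      = h * ∑ p : B → Fin h, (T + 1) *
        (if (∃ u : ℕ, 1 ≤ u ∧ u ≤ 2 * hits (top e (u * ℓ)) p) then
        0 else hits S p * (Finset.univ.filter (N p)).card) := by
        rw [← Finset.mul_sum]
        ring
    _ ≤ h * ∑ p : B → Fin h, (q * (T + 1) ^ Fintype.card ι) * hits S p := by
        refine Nat.mul_le_mul_left _ (Finset.sum_le_sum fun p _ => ?_)
        split_ifs with hb
        · simp
        · have hgood : ∀ u : ℕ, 1 ≤ u → 2 * hits (top e (u * ℓ)) p < u := by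
            intro u hu
            by_contra hcon
            exact hb ⟨u, hu, not_lt.1 hcon⟩
          calc (T + 1) * (hits S p * (Finset.univ.filter (N p)).card)
              = ((T + 1) * (Finset.univ.filter (N p)).card) * hits S p := by ring
            _ ≤ (q * (T + 1) ^ Fintype.card ι) * hits S p :=
                Nat.mul_le_mul_right _ (hN p hgood)
    _ = q * (T + 1) ^ Fintype.card ι * (h * ∑ p : B → Fin h, hits S p) := by
        rw [← Finset.mul_sum]
        ring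

open Classical in
theorem split_le {B ι : Type} [Fintype B] [DecidableEq B] [Fintype ι] [DecidableEq ι]
    {h ℓ T : ℕ}
    (S : Finset (B × Fin h)) (e : Fin S.card → B × Fin h)
    (N : (B → Fin h) → (ι → Fin (T + 1)) → Prop) [∀ p t, Decidable (N p t)] :
    (∑ p : B → Fin h, ∑ t : ι → Fin (T + 1),
        (if 2 ≤ hits S p ∧ N p t then hits S p else 0)) ≤
      (T + 1) ^ Fintype.card ι * (∑ p : B → Fin h,
        if (∃ u : ℕ, 1 ≤ u ∧ u ≤ 2 * hits (top e (u * ℓ)) p) then hits S p else 0) +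
      ∑ p : B → Fin h, if (∃ u : ℕ, 1 ≤ u ∧ u ≤ 2 * hits (top e (u * ℓ)) p) then
        0 else hits S p * (Finset.univ.filter (N p)).card := by
  rw [Finset.mul_sum, ← Finset.sum_add_distrib]
  refine Finset.sum_le_sum fun p _ => ?_
  split_ifs with hb
  · rw [add_zero]
    have : ∀ t ∈ (Finset.univ : Finset (ι → Fin (T + 1))),
        (if 2 ≤ hits S p ∧ N p t then hits S p else 0) ≤ hits S p := by
      intro t _
      split_ifs with hc
      · exact le_rfl
      · exact Nat.zero_le _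
    refine (Finset.sum_le_card_nsmul _ _ _ this).trans ?_
    rw [Finset.card_univ, Fintype.card_fun, Fintype.card_fin, smul_eq_mul]
  · rw [mul_zero, zero_add]
    have : ∀ t ∈ (Finset.univ : Finset (ι → Fin (T + 1))),
        (if 2 ≤ hits S p ∧ N p t then hits S p else 0) ≤ if N p t then hits S p else 0 := by
      intro t _
      by_cases h1 : N p t
      · rw [if_pos h1]
        split_ifs with hc
        · exact le_rfl
        · exact Nat.zero_le _
      · rw [if_neg (fun h => h1 h.2), if_neg h1]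
    refine (Finset.sum_le_sum this).trans ?_
    rw [← Finset.sum_filter, Finset.sum_const, smul_eq_mul, mul_comm]

theorem cost_arith {X F G H T' s h L ℓ q T R K : ℕ} (hq : 1 ≤ q) (hT : T = 4 * R * K * q)
    (hpos : 1 ≤ h) (hs : 16 * L * ℓ * R * K ≤ s) (hWh : 16 * L * ℓ * R * K ≤ h)
    (hsplit : X ≤ T' * F + G) (hsecond : (T + 1) * h * G ≤ q * T' * (H * s))
    (hfirst : (h : ℝ) ^ 2 * (F : ℝ) ≤ 4 * L * ℓ * (H : ℝ) * (h + s)) :
    R * K * h * X ≤ H * T' * s := by
  -- the second sum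
  have hG2 : 4 * (R * K * h * G) ≤ T' * (H * s) := by
    refine Nat.le_of_mul_le_mul_left ?_ hq
    calc q * (4 * (R * K * h * G)) = (4 * R * K * q) * h * G := by ring
      _ ≤ (T + 1) * h * G := by
          rw [← hT]
          exact Nat.mul_le_mul_right _ (Nat.mul_le_mul_right _ (Nat.le_succ T))
      _ ≤ q * T' * (H * s) := hsecond
      _ = q * (T' * (H * s)) := by ring
  -- the first sum
  have hhR : (0 : ℝ) < h := by exact_mod_cast hpos
  have hF2 : 2 * ((R : ℝ) * K * h * F) ≤ H * s := by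
    have hsR : (16 : ℝ) * L * ℓ * R * K ≤ s := by exact_mod_cast hs
    have hhR' : (16 : ℝ) * L * ℓ * R * K ≤ h := by exact_mod_cast hWh
    have hH0 : (0 : ℝ) ≤ H := Nat.cast_nonneg _
    have hs0 : (0 : ℝ) ≤ s := Nat.cast_nonneg _
    refine le_of_mul_le_mul_left ?_ hhR
    have e1 : (h : ℝ) * (2 * ((R : ℝ) * K * h * F)) = 2 * (R * K) * ((h : ℝ) ^ 2 * F) := by ring
    have e2 : 2 * ((R : ℝ) * K) * ((h : ℝ) ^ 2 * F) ≤
        2 * (R * K) * (4 * L * ℓ * (H : ℝ) * (h + s)) :=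
      mul_le_mul_of_nonneg_left hfirst (by positivity)
    have e3 : 2 * ((R : ℝ) * K) * (4 * L * ℓ * (H : ℝ) * (h + s)) =
        (1 / 2) * (H * h * (16 * L * ℓ * R * K)) + (1 / 2) * (H * s * (16 * L * ℓ * R * K)) := by
      ring
    have e4 : (H : ℝ) * h * (16 * L * ℓ * R * K) ≤ H * h * s :=
      mul_le_mul_of_nonneg_left hsR (by positivity)
    have e5 : (H : ℝ) * s * (16 * L * ℓ * R * K) ≤ H * s * h :=
      mul_le_mul_of_nonneg_left hhR' (by positivity)
    rw [e1]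
    refine e2.trans ?_
    rw [e3]
    have e6 : (h : ℝ) * (H * s) = H * h * s := by ring
    have e7 : (H : ℝ) * s * h = H * h * s := by ring
    rw [e6]
    rw [e7] at e5
    linarith
  have hG3 : 4 * ((R : ℝ) * K * h * G) ≤ T' * (H * s) := by exact_mod_cast hG2
  have hsplitR : (X : ℝ) ≤ T' * F + G := by exact_mod_cast hsplit
  have hT0 : (0 : ℝ) ≤ T' := Nat.cast_nonneg _
  have goal : (R : ℝ) * K * h * X ≤ H * T' * s := by
    have f1 : (R : ℝ) * K * h * X ≤ R * K * h * (T' * F + G) :=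
      mul_le_mul_of_nonneg_left hsplitR (by positivity)
    have f2 : (T' : ℝ) * (2 * ((R : ℝ) * K * h * F)) ≤ T' * (H * s) :=
      mul_le_mul_of_nonneg_left hF2 hT0
    have f3 : (0 : ℝ) ≤ T' * (H * s) := by positivity
    have f4 : (R : ℝ) * K * h * (T' * F + G) =
        (1 / 2) * (T' * (2 * ((R : ℝ) * K * h * F))) + (1 / 4) * (4 * (R * K * h * G)) := by ring
    have f5 : (H : ℝ) * T' * s = T' * (H * s) := by ring
    rw [f5]
    rw [f4] at f1
    linarith
  exact_mod_cast goal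

/-- PROOF. Write `H = h ^ card B`, `T' = (T + 1) ^ card ι`, `s = S.card`, and `Σ` for the double sum
on the left side.

Case 1: `s < 16 * L * ℓ * R * K`. Since `hits * [2 ≤ hits] ≤ hits * (hits - 1)`, we have
`h ^ 2 * Σ ≤ T' * H * s * s` by `sum_hits_pred`. So `h * (R * K * h * Σ) ≤ R * K * T' * H * s * s ≤
(R * K * 16 * L * ℓ * R * K) * T' * H * s ≤ h * T' * H * s` by `hh`; cancel `h > 0`.

Case 2: `16 * L * ℓ * R * K ≤ s`. Then `s > q` (since `ℓ ≥ q` by `hℓ`), so `hN` holds with its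
second part. Call `p` bad if there is `u ≥ 1` with `u ≤ 2 * hits (top e (u * ℓ)) p`. Then (in the
real numbers) `Σ ≤ T' * ∑ p, hits S p * [p bad] + ∑ p good, hits S p * #{t | N p t}`.
The second sum: `(T + 1) * second ≤ q * T' * ∑ p, hits S p`, so by `sum_hits`
`(T + 1) * h * second ≤ q * T' * H * s`; as `T = 4 * R * K * q` this gives
`4 * R * K * h * second ≤ T' * H * s`.
The first sum: by `bad_le` and `sum_hits_mul` (with `S' = top e (2 ^ (i + 1) * ℓ)` of cardinality at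
most `2 ^ (i + 1) * ℓ` by `card_top_le`), `h ^ 2 * ∑ p, hits S p * [p bad] ≤
∑ i < L, 2 / 2 ^ i * (H * (h + s) * 2 ^ (i + 1) * ℓ) = 4 * L * ℓ * H * (h + s)`. So
`R * K * h * first ≤ T' * H * (4 * L * ℓ * R * K * (h + s) / h) ≤
T' * H * (4 * L * ℓ * R * K + (1 / 4) * s) ≤ T' * H * s / 2` by `hh` and the case assumption.
Altogether `R * K * h * Σ ≤ (3 / 4) * T' * H * s`. -/
theorem gate_cost {B ι : Type} [Fintype B] [DecidableEq B] [Fintype ι] [DecidableEq ι]
    {h L ℓ q T R K : ℕ} (hq : 1 ≤ q) (hR : 1 ≤ R) (hK : 1 ≤ K) (hL : 1 ≤ L)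
    (hB : 2 * Fintype.card B < 2 ^ L) (hℓ : q ≤ ℓ) (hT : T = 4 * R * K * q)
    (hh : 16 * L * ℓ * R * K * (R * K) ≤ h)
    (S : Finset (B × Fin h)) (e : Fin S.card → B × Fin h) (heS : ∀ i, e i ∈ S)
    (N : (B → Fin h) → (ι → Fin (T + 1)) → Prop) [∀ p t, Decidable (N p t)]
    (hN : S.card ≤ q ∨ ∀ p, (∀ u : ℕ, 1 ≤ u → 2 * hits (top e (u * ℓ)) p < u) →
      (T + 1) * (Finset.univ.filter (N p)).card ≤ q * (T + 1) ^ Fintype.card ι) :
    R * K * h * ∑ p : B → Fin h, ∑ t : ι → Fin (T + 1),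
        (if 2 ≤ hits S p ∧ N p t then hits S p else 0) ≤
      h ^ Fintype.card B * (T + 1) ^ Fintype.card ι * S.card := by
  classical
  have hℓ1 : 1 ≤ ℓ := hq.trans hℓ
  have hRK : 1 ≤ R * K := Nat.mul_pos hR hK
  have hLℓ : 1 ≤ L * ℓ := Nat.mul_pos hL hℓ1
  have hW : 1 ≤ 16 * L * ℓ * R * K := by
    have : 16 * L * ℓ * R * K = 16 * (L * ℓ) * (R * K) := by ring
    rw [this]
    exact Nat.mul_pos (Nat.mul_pos (by norm_num) hLℓ) hRK
  have hWh : 16 * L * ℓ * R * K ≤ h :=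
    (Nat.le_mul_of_pos_right _ hRK).trans hh
  have hpos : 1 ≤ h := hW.trans hWh
  rcases le_total S.card (16 * L * ℓ * R * K) with hs | hs
  · exact gate_cost_small hpos hh S N hs
  rcases hN with hN | hN
  · refine gate_cost_small hpos hh S N ?_
    refine hN.trans (hℓ.trans ?_)
    have : 16 * L * ℓ * R * K = ℓ * (16 * L * (R * K)) := by ring
    rw [this]
    exact Nat.le_mul_of_pos_right _ (Nat.mul_pos (Nat.mul_pos (by norm_num) hL) hRK)
  refine cost_arith hq hT hpos hs hWh (split_le (ℓ := ℓ) S e N) (second_le S e N hN) ?_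
  have := first_le (ℓ := ℓ) hB S e
  push_cast
  exact this

end Pool.Agent.W91_5f6b2a
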