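import Mathlib

/-!
Distinct representatives of the windows.
-/

namespace Pool.Agent.W91_5f6b2a

/-- The sets `S g` are enumerated by the injections `e g`; the window number `u` of `S g` consists
of the elements `e g r` with `u * (Δ * T) ≤ r < (u + 1) * (Δ * T)`. If every `y` is in at most `Δ`
of the sets `S g`, then we can choose `T` elements of every window, `e g (r g u i)` for `i : Fin T`,
so that all chosen elements (of all windows of all sets) are different.

PROOF: Hall's theorem `Finset.all_card_le_biUnion_card_iff_exists_injective` for the index type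
`Σ g, Fin ((S g).card / (Δ * T)) × Fin T` and the family of windows `t ⟨g, u, i⟩` (the window
number `u` of `S g`, as a finset of `Y`, of cardinality `Δ * T`). Hall's condition, by double
counting: for a finite set `s` of indices, `Δ * T * s.card = ∑ x ∈ s, (t x).card =
∑ y ∈ s.biUnion t, #{x ∈ s | y ∈ t x} ≤ (s.biUnion t).card * (Δ * T)`, because for every `y` there
are at most `Δ` values of `g`, at most one `u` for every `g` (`e g` is injective) and `T` values of
`i`. -/
theorem exists_rep {ι Y : Type} [Fintype ι] [DecidableEq Y] (S : ι → Finset Y)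
    (e : ∀ g, Fin (S g).card → Y) (he : ∀ g, Function.Injective (e g))
    (heS : ∀ g i, e g i ∈ S g) {Δ T : ℕ} (hΔ : 1 ≤ Δ) (hT : 1 ≤ T)
    (hdeg : ∀ y, (Finset.univ.filter fun g => y ∈ S g).card ≤ Δ) :
    ∃ r : (g : ι) → Fin ((S g).card / (Δ * T)) → Fin T → Fin (S g).card,
      (∀ (g : ι) (u : Fin ((S g).card / (Δ * T))) (i : Fin T),
        (u : ℕ) * (Δ * T) ≤ (r g u i : ℕ) ∧ (r g u i : ℕ) < ((u : ℕ) + 1) * (Δ * T)) ∧
      ∀ (g : ι) (u : Fin ((S g).card / (Δ * T))) (i : Fin T) (g' : ι)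
        (u' : Fin ((S g').card / (Δ * T))) (i' : Fin T),
        e g (r g u i) = e g' (r g' u' i') → g = g' ∧ (u : ℕ) = u' ∧ i = i' := by
  classical
  let I : Type := Σ g : ι, Fin ((S g).card / (Δ * T)) × Fin T
  let t : I → Finset Y := fun x =>
    (Finset.univ.filter fun r : Fin (S x.1).card =>
      (x.2.1 : ℕ) * (Δ * T) ≤ (r : ℕ) ∧ (r : ℕ) < ((x.2.1 : ℕ) + 1) * (Δ * T)).image (e x.1)
  have hmem : ∀ (x : I) (y : Y), y ∈ t x ↔ ∃ r : Fin (S x.1).card,
      ((x.2.1 : ℕ) * (Δ * T) ≤ (r : ℕ) ∧ (r : ℕ) < ((x.2.1 : ℕ) + 1) * (Δ * T)) ∧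
        e x.1 r = y := by
    intro x y
    simp [t]
  have hpos : 0 < Δ * T := Nat.mul_pos hΔ hT
  have hcard : ∀ x : I, Δ * T ≤ (t x).card := by
    intro x
    have h1 : ((x.2.1 : ℕ) + 1) * (Δ * T) ≤ (S x.1).card := by
      have h2 : (x.2.1 : ℕ) + 1 ≤ (S x.1).card / (Δ * T) := x.2.1.2
      exact (Nat.le_div_iff_mul_le hpos).1 h2
    have h3 : (t x).card = (Finset.univ.filter fun r : Fin (S x.1).card =>
      (x.2.1 : ℕ) * (Δ * T) ≤ (r : ℕ) ∧ (r : ℕ) < ((x.2.1 : ℕ) + 1) * (Δ * T)).card :=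
      Finset.card_image_of_injective _ (he x.1)
    rw [h3]
    have h4 : (Finset.range (Δ * T)).card ≤ (Finset.univ.filter fun r : Fin (S x.1).card =>
      (x.2.1 : ℕ) * (Δ * T) ≤ (r : ℕ) ∧ (r : ℕ) < ((x.2.1 : ℕ) + 1) * (Δ * T)).card := by
      refine Finset.card_le_card_of_injOn
        (fun j => if h : (x.2.1 : ℕ) * (Δ * T) + j < (S x.1).card then
          ⟨(x.2.1 : ℕ) * (Δ * T) + j, h⟩ else ⟨0, by
            have : 0 < ((x.2.1 : ℕ) + 1) * (Δ * T) := Nat.mul_pos (Nat.succ_pos _) hpos
            omega⟩) ?_ ?_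
      · intro j hj
        rw [Finset.mem_coe, Finset.mem_range] at hj
        have h5 : (x.2.1 : ℕ) * (Δ * T) + j < (S x.1).card := by
          rw [Nat.add_mul, one_mul] at h1
          omega
        have h6 : ((x.2.1 : ℕ) + 1) * (Δ * T) = (x.2.1 : ℕ) * (Δ * T) + Δ * T := by ring
        simp only [h5, dif_pos, Finset.coe_filter, Finset.mem_univ, true_and, Set.mem_setOf_eq]
        omega
      · intro j hj j' hj' h
        rw [Finset.mem_coe, Finset.mem_range] at hj hj'
        have h5 : (x.2.1 : ℕ) * (Δ * T) + j < (S x.1).card := by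
          rw [Nat.add_mul, one_mul] at h1
          omega
        have h5' : (x.2.1 : ℕ) * (Δ * T) + j' < (S x.1).card := by
          rw [Nat.add_mul, one_mul] at h1
          omega
        simp only [h5, h5', dif_pos, Fin.mk.injEq] at h
        omega
    simpa using h4
  have hall : ∀ s : Finset I, s.card ≤ (s.biUnion t).card := by
    intro s
    have h1 : s.card * (Δ * T) ≤ (s.biUnion t).card * (Δ * T) := by
      refine Finset.card_mul_le_card_mul (fun (x : I) (y : Y) => y ∈ t x) ?_ ?_
      · intro x hx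
        refine (hcard x).trans (Finset.card_le_card ?_)
        intro y hy
        rw [Finset.mem_bipartiteAbove]
        exact ⟨Finset.mem_biUnion.2 ⟨x, hx, hy⟩, hy⟩
      · intro y _
        have h2 : (s.bipartiteBelow (fun (x : I) (y : Y) => y ∈ t x) y).card ≤
            ((Finset.univ.filter fun g => y ∈ S g) ×ˢ (Finset.univ : Finset (Fin T))).card := by
          refine Finset.card_le_card_of_injOn (fun x => (x.1, x.2.2)) ?_ ?_
          · intro x hx
            rw [Finset.mem_coe, Finset.mem_bipartiteBelow] at hx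
            obtain ⟨r, -, hr⟩ := (hmem x y).1 hx.2
            rw [Finset.mem_coe, Finset.mem_product, Finset.mem_filter]
            refine ⟨⟨Finset.mem_univ _, ?_⟩, Finset.mem_univ _⟩
            rw [← hr]
            exact heS _ _
          · rintro ⟨g, u, i⟩ hx ⟨g', u', i'⟩ hx' h
            rw [Finset.mem_coe, Finset.mem_bipartiteBelow] at hx hx'
            simp only [Prod.mk.injEq] at h
            obtain ⟨rfl, rfl⟩ := h
            obtain ⟨r, ⟨hr1, hr2⟩, hr⟩ := (hmem _ y).1 hx.2
            obtain ⟨r', ⟨hr1', hr2'⟩, hr'⟩ := (hmem _ y).1 hx'.2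
            have h3 : r = r' := he g (by rw [hr]; exact hr'.symm)
            subst h3
            simp only at hr1 hr2 hr1' hr2'
            have h4 : (u : ℕ) = u' := by
              have h5 : (u : ℕ) < (u' : ℕ) + 1 :=
                Nat.lt_of_mul_lt_mul_right (lt_of_le_of_lt hr1 hr2')
              have h6 : (u' : ℕ) < (u : ℕ) + 1 :=
                Nat.lt_of_mul_lt_mul_right (lt_of_le_of_lt hr1' hr2)
              omega
            rw [Fin.ext h4]
        refine h2.trans ?_
        rw [Finset.card_product, Finset.card_univ, Fintype.card_fin]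
        exact Nat.mul_le_mul_right _ (hdeg y)
    exact Nat.le_of_mul_le_mul_right h1 hpos
  obtain ⟨f, hf, hft⟩ := (Finset.all_card_le_biUnion_card_iff_exists_injective t).1 hall
  have hch : ∀ x : I, ∃ r : Fin (S x.1).card,
      ((x.2.1 : ℕ) * (Δ * T) ≤ (r : ℕ) ∧ (r : ℕ) < ((x.2.1 : ℕ) + 1) * (Δ * T)) ∧
        e x.1 r = f x := fun x => (hmem x (f x)).1 (hft x)
  choose r hr1 hr2 using hch
  refine ⟨fun g u i => r ⟨g, u, i⟩, fun g u i => hr1 ⟨g, u, i⟩, ?_⟩
  intro g u i g' u' i' h
  have h1 : f ⟨g, u, i⟩ = f ⟨g', u', i'⟩ := by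
    rw [← hr2 ⟨g, u, i⟩, ← hr2 ⟨g', u', i'⟩]
    exact h
  have h2 := hf h1
  cases h2
  exact ⟨rfl, rfl, rfl⟩

end Pool.Agent.W91_5f6b2a
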