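import Pool.Agent.W91_5f6b2a.Sort
import Pool.Agent.W91_5f6b2a.Hall
import Pool.Agent.W91_5f6b2a.Avg
import Pool.Agent.W91_5f6b2a.Cost

/-!
The restriction of one layer of gates.
-/

namespace Pool.Agent.W91_5f6b2a

theorem sum_swap3 {α β γ : Type} [Fintype α] [Fintype β] [Fintype γ] (f : α → β → γ → ℕ) :
    ∑ b, ∑ c, ∑ a, f a b c = ∑ a, ∑ b, ∑ c, f a b c := by
  calc ∑ b, ∑ c, ∑ a, f a b c = ∑ b, ∑ a, ∑ c, f a b c :=
        Finset.sum_congr rfl fun b _ => Finset.sum_comm
    _ = _ := Finset.sum_comm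

theorem card_live_le {B : Type} [Fintype B] [DecidableEq B] {h : ℕ} (S : Finset (B × Fin h))
    (p : B → Fin h) : (Finset.univ.filter fun β => (β, p β) ∈ S).card ≤ hits S p := by
  refine Finset.card_le_card_of_injOn (fun β => (β, p β)) ?_ ?_
  · intro β hβ
    rw [Finset.mem_coe, Finset.mem_filter] at hβ
    exact Finset.mem_coe.2 (Finset.mem_filter.2 ⟨hβ.2, rfl⟩)
  · intro β _ β' _ hβ
    exact congrArg Prod.fst hβ

/-- The main lemma. PROOF. Let `T = 4 * R * K * q`, `ℓ = Δ * T`. For the gates `g` of the second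
kind (not `(S g).card ≤ q`) choose `w g`, `F g`, `c g`; put `w g = 0` for the others. Enumerate
`S g` by `e g` (`exists_enum` for `S g`, `w g`) and choose the representatives `r`
(`exists_rep`). Let `N g p t := ∃ v v', Φ g p (cube p (own w e r t) v) ≠
Φ g p (cube p (own w e r t) v')`. By `own_avg` (with `c0 = c g p`) the hypothesis `hN` of
`gate_cost` holds for `S g`, `e g`, `N g`. Sum `gate_cost` over `g` and use `hsum`:
`R * K * h * ∑ p, ∑ t, ∑ g, (if 2 ≤ hits (S g) p ∧ N g p t then hits (S g) p else 0) ≤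
h ^ card B * (T + 1) ^ card ι * (R * (card B * h))`. So
`K * ∑ p, ∑ t, (∑ g, …) ≤ (number of pairs (p, t)) * card B`, and there are `p`, `t` with
`K * ∑ g, (if … then hits (S g) p else 0) ≤ card B` (there are pairs `(p, t)` since `h > 0`). Take
`x = own w e r t` and let `Del` be the union over the `g` with `2 ≤ hits (S g) p ∧ N g p t` of
`{β | (β, p β) ∈ S g}`, a set of cardinality `hits (S g) p`. For a gate `g`: if `¬ N g p t` take
`A = ∅`. If `hits (S g) p ≤ 1` take `A = {β | (β, p β) ∈ S g}`, and otherwise `A = ∅`, and use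
`hdep`: on `S g` the two assignments `cube p x v` and `cube p x v'` agree. -/
theorem core {B ι : Type} [Fintype B] [DecidableEq B] [Fintype ι] [DecidableEq ι]
    {h L q Δ R K : ℕ} (hq : 1 ≤ q) (hΔ : 1 ≤ Δ) (hR : 1 ≤ R) (hK : 1 ≤ K) (hL : 1 ≤ L)
    (hB : 2 * Fintype.card B < 2 ^ L) (hh : 256 * L * q * Δ * R ^ 3 * K ^ 3 ≤ h)
    (S : ι → Finset (B × Fin h)) (Φ : ι → (B → Fin h) → (B × Fin h → Bool) → Bool)
    (hdep : ∀ g p z z', (∀ y ∈ S g, z y = z' y) → Φ g p z = Φ g p z')
    (hgate : ∀ g, (S g).card ≤ q ∨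
      ∃ (w : B × Fin h → ℝ) (F : ℝ → Bool) (c : (B → Fin h) → ℝ), Jumps q F ∧
        ∀ p z, Φ g p z = F (c p + ∑ y ∈ S g, if z y = true then w y else 0))
    (hdeg : ∀ y, (Finset.univ.filter fun g => y ∈ S g).card ≤ Δ)
    (hsum : ∑ g, (S g).card ≤ R * (Fintype.card B * h)) :
    ∃ (p : B → Fin h) (x : B × Fin h → Bool) (Del : Finset B),
      K * Del.card ≤ Fintype.card B ∧ ∀ g, ∃ A : Finset B, A.card ≤ 1 ∧
        ∀ v v' : B → Bool, (∀ β ∈ Del, v β = v' β) → (∀ β ∈ A, v β = v' β) →
          Φ g p (cube p x v) = Φ g p (cube p x v') := by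
  classical
  have hh0 : 0 < h := lt_of_lt_of_le (by positivity) hh
  have hgate' : ∀ g, ∃ (w : B × Fin h → ℝ) (F : ℝ → Bool) (c : (B → Fin h) → ℝ),
      (S g).card ≤ q ∨ (Jumps q F ∧
        ∀ p z, Φ g p z = F (c p + ∑ y ∈ S g, if z y = true then w y else 0)) := by
    intro g
    rcases hgate g with h1 | ⟨w, F, c, h1, h2⟩
    · exact ⟨fun _ => 0, fun _ => true, fun _ => 0, Or.inl h1⟩
    · exact ⟨w, F, c, Or.inr ⟨h1, h2⟩⟩
  choose w F c hw using hgate'
  choose e he heS hsurj hsort using fun g => exists_enum (S g) (w g)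
  set T := 4 * R * K * q with hT
  have hT1 : 1 ≤ T := by rw [hT]; exact Nat.succ_le_of_lt (by positivity)
  obtain ⟨r, hr, hinj⟩ := exists_rep S e he heS hΔ hT1 hdeg
  let N : ι → (B → Fin h) → (ι → Fin (T + 1)) → Prop := fun g p t =>
    ∃ v v', Φ g p (cube p (own w e r t) v) ≠ Φ g p (cube p (own w e r t) v')
  have hcost : ∀ g, R * K * h * ∑ p : B → Fin h, ∑ t : ι → Fin (T + 1),
      (if 2 ≤ hits (S g) p ∧ N g p t then hits (S g) p else 0) ≤
      h ^ Fintype.card B * (T + 1) ^ Fintype.card ι * (S g).card := by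
    intro g
    refine gate_cost hq hR hK hL hB (ℓ := Δ * T) ?_ hT ?_ (S g) (e g) (heS g) (N g) ?_
    · calc q = 1 * (1 * 1 * 1 * q) := by ring
        _ ≤ Δ * (4 * R * K * q) := by gcongr; norm_num
        _ = Δ * T := by rw [hT]
    · refine le_trans ?_ hh
      calc 16 * L * (Δ * T) * R * K * (R * K) = 64 * L * q * Δ * R ^ 3 * K ^ 3 := by
            rw [hT]; ring
        _ ≤ 256 * L * q * Δ * R ^ 3 * K ^ 3 := by gcongr; norm_num
    · rcases hw g with h1 | ⟨h1, h2⟩
      · exact Or.inl h1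
      · right
        intro p hpre
        refine own_avg (Nat.mul_pos hΔ hT1) p S w e he heS hsurj hsort r hr hinj g h1 (c g p)
          hpre (N g p) ?_
        rintro t ⟨v, v', hv⟩
        refine ⟨v, v', ?_⟩
        rw [← h2, ← h2]
        exact hv
  set H := h ^ Fintype.card B with hH
  set T' := (T + 1) ^ Fintype.card ι with hT'
  have hHpos : 0 < H := by positivity
  have hT'pos : 0 < T' := by positivity
  have htotal : R * K * h * ∑ p : B → Fin h, ∑ t : ι → Fin (T + 1), ∑ g,
      (if 2 ≤ hits (S g) p ∧ N g p t then hits (S g) p else 0) ≤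
      H * T' * (R * (Fintype.card B * h)) := by
    calc R * K * h * ∑ p : B → Fin h, ∑ t : ι → Fin (T + 1), ∑ g,
          (if 2 ≤ hits (S g) p ∧ N g p t then hits (S g) p else 0)
        = ∑ g, R * K * h * ∑ p : B → Fin h, ∑ t : ι → Fin (T + 1),
          (if 2 ≤ hits (S g) p ∧ N g p t then hits (S g) p else 0) := by
          rw [sum_swap3, Finset.mul_sum]
      _ ≤ ∑ g, H * T' * (S g).card := Finset.sum_le_sum fun g _ => hcost g
      _ = H * T' * ∑ g, (S g).card := by rw [← Finset.mul_sum]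
      _ ≤ _ := Nat.mul_le_mul_left _ hsum
  obtain ⟨p, t, hpt⟩ : ∃ (p : B → Fin h) (t : ι → Fin (T + 1)), K * ∑ g,
      (if 2 ≤ hits (S g) p ∧ N g p t then hits (S g) p else 0) ≤ Fintype.card B := by
    by_contra hcon
    push Not at hcon
    have h1 : H * (T' * (Fintype.card B + 1)) ≤ ∑ p : B → Fin h, ∑ t : ι → Fin (T + 1),
        K * ∑ g, (if 2 ≤ hits (S g) p ∧ N g p t then hits (S g) p else 0) := by
      have h2 : ∀ p : B → Fin h, T' * (Fintype.card B + 1) ≤ ∑ t : ι → Fin (T + 1),
          K * ∑ g, (if 2 ≤ hits (S g) p ∧ N g p t then hits (S g) p else 0) := by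
        intro p
        have h3 := Finset.card_nsmul_le_sum (Finset.univ : Finset (ι → Fin (T + 1)))
          (fun t => K * ∑ g, (if 2 ≤ hits (S g) p ∧ N g p t then hits (S g) p else 0))
          (Fintype.card B + 1) (fun t _ => hcon p t)
        rwa [Finset.card_univ, Fintype.card_fun, Fintype.card_fin, smul_eq_mul] at h3
      have h3 := Finset.card_nsmul_le_sum (Finset.univ : Finset (B → Fin h))
        (fun p => ∑ t : ι → Fin (T + 1),
          K * ∑ g, (if 2 ≤ hits (S g) p ∧ N g p t then hits (S g) p else 0))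
        (T' * (Fintype.card B + 1)) (fun p _ => h2 p)
      rwa [Finset.card_univ, Fintype.card_fun, Fintype.card_fin, smul_eq_mul] at h3
    simp_rw [← Finset.mul_sum] at h1
    have h2 : R * h * (H * (T' * (Fintype.card B + 1))) ≤
        R * h * (H * (T' * Fintype.card B)) := by
      calc R * h * (H * (T' * (Fintype.card B + 1))) ≤ R * h * (K * _) :=
            Nat.mul_le_mul_left _ h1
        _ = R * K * h * _ := by ring
        _ ≤ _ := htotal
        _ = _ := by ring
    have h3 : 0 < R * h * H * T' := by positivity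
    nlinarith
  refine ⟨p, own w e r t, Finset.univ.filter (fun β => ∃ g, (2 ≤ hits (S g) p ∧ N g p t) ∧
    (β, p β) ∈ S g), ?_, fun g => ?_⟩
  · refine le_trans (Nat.mul_le_mul_left K ?_) hpt
    calc (Finset.univ.filter (fun β => ∃ g, (2 ≤ hits (S g) p ∧ N g p t) ∧
          (β, p β) ∈ S g)).card
        ≤ ((Finset.univ : Finset ι).biUnion fun g => if 2 ≤ hits (S g) p ∧ N g p t then
            Finset.univ.filter (fun β => (β, p β) ∈ S g) else ∅).card := by
          refine Finset.card_le_card fun β hβ => ?_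
          obtain ⟨g, h1, h2⟩ := (Finset.mem_filter.1 hβ).2
          refine Finset.mem_biUnion.2 ⟨g, Finset.mem_univ _, ?_⟩
          rw [if_pos h1]
          exact Finset.mem_filter.2 ⟨Finset.mem_univ _, h2⟩
      _ ≤ ∑ g, (if 2 ≤ hits (S g) p ∧ N g p t then
            Finset.univ.filter (fun β => (β, p β) ∈ S g) else ∅).card :=
          Finset.card_biUnion_le
      _ ≤ _ := by
          refine Finset.sum_le_sum fun g _ => ?_
          split_ifs with h1
          · exact card_live_le (S g) p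
          · simp
  · by_cases hN : N g p t
    · by_cases h2 : 2 ≤ hits (S g) p
      · refine ⟨∅, by simp, fun v v' hv _ => hdep g p _ _ fun y hy => ?_⟩
        unfold cube
        by_cases hy2 : y.2 = p y.1
        · rw [if_pos hy2, if_pos hy2]
          apply hv
          refine Finset.mem_filter.2 ⟨Finset.mem_univ _, g, ⟨h2, hN⟩, ?_⟩
          rw [← hy2]
          exact hy
        · rw [if_neg hy2, if_neg hy2]
      · refine ⟨Finset.univ.filter (fun β => (β, p β) ∈ S g), ?_,
          fun v v' _ hv => hdep g p _ _ fun y hy => ?_⟩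
        · have := card_live_le (S g) p
          omega
        unfold cube
        by_cases hy2 : y.2 = p y.1
        · rw [if_pos hy2, if_pos hy2]
          apply hv
          refine Finset.mem_filter.2 ⟨Finset.mem_univ _, ?_⟩
          rw [← hy2]
          exact hy
        · rw [if_neg hy2, if_neg hy2]
    · refine ⟨∅, by simp, fun v v' _ _ => ?_⟩
      by_contra hne
      exact hN ⟨v, v', hne⟩

end Pool.Agent.W91_5f6b2a
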