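import Pool.Agent.W_MP_5f6b2a_lc.Defs

/-!
Reductions computed by bounded-depth formulas over the gates of a sparse bounded-depth threshold
circuit; the padded problems.
-/

namespace Pool.Agent.W91_5f6b2a

open Pool.Agent.W_MP_5f6b2a_lc

/-! ### Circuits -/

/-- The function `F` on the real line has at most `q` jumps: there is a set `J` of at most `q`
numbers such that `F` takes the same value at `a ≤ b` if no element of `J` is in `(a, b]`. For
example, `F s = (θ ≤ s)` has one jump. -/
def Jumps (q : ℕ) (F : ℝ → Bool) : Prop :=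
  ∃ J : Finset ℝ, J.card ≤ q ∧ ∀ a b, a ≤ b → (∀ c ∈ J, c ≤ a ∨ b < c) → F a = F b

/-- The gates: `φ` is a function of the signals in `U`, and there are at most `q` signals in `U` or
`φ` is a function with at most `q` jumps of a weighted sum of them, with any real weights (a
threshold gate if there is one jump). -/
def IsGate {Y : Type} (q : ℕ) (U : Finset Y) (φ : (Y → Bool) → Bool) : Prop :=
  (∀ z z', (∀ y ∈ U, z y = z' y) → φ z = φ z') ∧
    (U.card ≤ q ∨ ∃ (w : Y → ℝ) (F : ℝ → Bool), Jumps q F ∧
      ∀ z, φ z = F (∑ y ∈ U, if z y = true then w y else 0))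

/-- Circuits with `n` inputs and `N` gates. The gate `g` computes the function `fn g` of the
signals in `src g`, that are inputs and gates of smaller level. -/
structure Net (n N : ℕ) where
  src : Fin N → Finset (Fin n ⊕ Fin N)
  fn : Fin N → (Fin n ⊕ Fin N → Bool) → Bool
  lev : Fin N → ℕ
  lev_lt : ∀ g g', Sum.inr g' ∈ src g → lev g' < lev g

namespace Net

variable {n N : ℕ} (C : Net n N)

/-- The number of wires. -/
def wires : ℕ := ∑ g, (C.src g).card

/-- The outputs of the gates on the input `x` after `τ` rounds; in every round all gates are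
evaluated. The gates of level less than `τ` have their final values after `τ` rounds. -/
def run (x : Fin n → Bool) : ℕ → Fin N → Bool
  | 0 => fun _ => false
  | τ + 1 => fun g => C.fn g (Sum.elim x (run x τ))

/-- The levels of the gates are less than `D`, and all gates are as in `IsGate q`. -/
def Ok (D q : ℕ) : Prop := (∀ g, C.lev g < D) ∧ ∀ g, IsGate q (C.src g) (C.fn g)

end Net

/-! ### Reductions -/

/-- `Frm 𝓛 s d f`: the predicate `f` is computed by a formula of depth `d` with AND and OR gates of
fan-in at most `s` whose leaves are predicates in the class `𝓛`. -/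
inductive Frm {X : Type} (𝓛 : ((X → Bool) → Prop) → Prop) (s : ℕ) :
    ℕ → ((X → Bool) → Prop) → Prop
  | leaf (f : (X → Bool) → Prop) (hf : 𝓛 f) : Frm 𝓛 s 0 f
  | all {d : ℕ} (m : ℕ) (hm : m ≤ s) (g : Fin m → (X → Bool) → Prop)
      (hg : ∀ i, Frm 𝓛 s d (g i)) : Frm 𝓛 s (d + 1) fun z => ∀ i, g i z
  | ex {d : ℕ} (m : ℕ) (hm : m ≤ s) (g : Fin m → (X → Bool) → Prop)
      (hg : ∀ i, Frm 𝓛 s d (g i)) : Frm 𝓛 s (d + 1) fun z => ∃ i, g i z

/-- The leaves of the formulas: literals, and outputs of the gates of the circuit and their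
negations. -/
def NetLeaf {n N : ℕ} (D : ℕ) (C : Net n N) (f : (Fin n → Bool) → Prop) : Prop :=
  (∃ (p : Fin n) (b : Bool), ∀ x, f x ↔ x p = b) ∨
    ∃ (g : Fin N) (b : Bool), ∀ x, f x ↔ C.run x D g = b

/-- `Q` is reducible to `Q'` by formulas of constant depth and fpt size over the inputs and the
gates of one circuit of depth `D` with `O(n ^ (1 + ε))` wires, whose gates are as in `IsGate q`
with `q = O(n ^ ε)`. -/
def SparseReducible (D : ℕ) (ε : ℝ) (Q Q' : ParamProblem) : Prop :=
  ∃ (c : ℕ) (f g : ℕ → ℕ), ∀ k n : ℕ,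
    ∃ (N q : ℕ) (C : Net n N) (n' : ℕ) (R : (Fin n → Bool) → (Fin n' → Bool))
      (κ : (Fin n → Bool) → ℕ),
      C.Ok D q ∧ (C.wires : ℝ) ≤ f k * (n + 1 : ℝ) ^ (1 + ε) ∧ (q : ℝ) ≤ f k * (n + 1 : ℝ) ^ ε ∧
      n' ≤ f k * (n + 1) ^ c ∧ (∀ x, κ x ≤ g k) ∧
      (∀ i, Frm (NetLeaf D C) (f k * (n + 1) ^ c) c fun x => R x i = true) ∧
      (∀ j, Frm (NetLeaf D C) (f k * (n + 1) ^ c) c fun x => κ x = j) ∧
      ∀ x, Q n x k ↔ Q' n' (R x) (κ x)

/-- The analogue of `W[t]` with these reductions in place of fpt-reductions. -/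
def WS (D : ℕ) (ε : ℝ) (t : ℕ) : Set ParamProblem :=
  {Q | ∃ d, 1 ≤ d ∧ SparseReducible D ε Q (pWSAT t d)}

/-! ### The padded problems -/

/-- The number of bits of a code of depth `k` of a string of length `m`. -/
def len (h : ℕ → ℕ) : ℕ → ℕ → ℕ
  | 0, m => m
  | k + 1, m => len h k (m * (2 * h k * 2))

/-- The position of the bit number `b` of the pair number `j` of the block number `i`. -/
def place {m L : ℕ} (i : Fin m) (j : Fin L) (b : Fin 2) : Fin (m * (L * 2)) :=
  finProdFinEquiv (i, finProdFinEquiv (j, b))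

/-- The string coded by `x`. At depth `0` it is `x` itself. At depth `k + 1` it is given by the
string coded at depth `k`: that string consists of `m` blocks of `2 * h k` pairs of bits, and the
bit number `i` is true if and only if the block number `i` contains a pair of two true bits. -/
def dec (h : ℕ → ℕ) : (k m : ℕ) → (Fin (len h k m) → Bool) → Fin m → Bool
  | 0, _, x => x
  | k + 1, m, x => fun i => decide (∃ j : Fin (2 * h k),
      dec h k (m * (2 * h k * 2)) x (place i j 0) = true ∧
        dec h k (m * (2 * h k * 2)) x (place i j 1) = true)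

/-- Half the number of pairs in a block at depth `j`. -/
def siz (a m j : ℕ) : ℕ := m ^ (a * 5 ^ j)

/-- The padded version of the problem `Q`: the parameter codes `a` and a parameter `k` of `Q`, and
the input codes a string of length `m` as above, at depth `D`, with blocks of `2 * m ^ (a * 5 ^ j)`
pairs. -/
def Pad (D : ℕ) (Q : ParamProblem) : ParamProblem := fun n x K =>
  ∃ (m : ℕ) (h : len (siz K.unpair.1 m) D m = n),
    Q m (dec (siz K.unpair.1 m) D m (x ∘ Fin.cast h)) K.unpair.2

end Pool.Agent.W91_5f6b2a
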