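import Mathlib

/-!
The representatives of the windows outside a sparse set dominate this set.
-/

namespace Pool.Agent.W91_5f6b2a

/-- Abel summation. PROOF: with `D j = ∑ u ∈ range j, d u`, the sum is
`∑ u ∈ range (U - 1), D (u + 1) * (ν u - ν (u + 1)) + D U * ν (U - 1)`; or prove by induction on `U`
that `D U * ν (U - 1) ≤ ∑ u ∈ range U, d u * ν u` for `U ≥ 1`. -/
theorem abel (U : ℕ) (d ν : ℕ → ℝ) (hD : ∀ j ≤ U, 0 ≤ ∑ u ∈ Finset.range j, d u)
    (hν : ∀ u, u + 1 < U → ν (u + 1) ≤ ν u) (hν0 : ∀ u < U, 0 ≤ ν u) :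
    0 ≤ ∑ u ∈ Finset.range U, d u * ν u := by
  rcases Nat.eq_zero_or_pos U with h | h
  · subst h
    simp
  · have key : ∀ m, m + 1 ≤ U →
        (∑ u ∈ Finset.range (m + 1), d u) * ν m ≤ ∑ u ∈ Finset.range (m + 1), d u * ν u := by
      intro m
      induction m with
      | zero =>
        intro _
        simp
      | succ m ih =>
        intro hm
        rw [Finset.sum_range_succ, Finset.sum_range_succ (fun u => d u * ν u)]
        have h1 := ih (by omega)
        have h2 := hν m (by omega)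
        have h3 := hD (m + 1) (by omega)
        have h4 := mul_le_mul_of_nonneg_left h2 h3
        linarith [add_mul (∑ u ∈ Finset.range (m + 1), d u) (d (m + 1)) (ν (m + 1))]
    obtain ⟨m, rfl⟩ : ∃ m, U = m + 1 := ⟨U - 1, by omega⟩
    exact le_trans (mul_nonneg (hD _ le_rfl) (hν0 m (by omega))) (key m le_rfl)

/-- `#{r ∈ A | r < j * ℓ}` as a sum. -/
theorem Dom_count {n ℓ : ℕ} (hℓ : 1 ≤ ℓ) (A : Finset (Fin n)) (j : ℕ) :
    ∑ u ∈ Finset.range j, (A.filter fun r : Fin n => (r : ℕ) / ℓ = u).card =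
      (A.filter fun r : Fin n => (r : ℕ) < j * ℓ).card := by
  induction j with
  | zero => simp
  | succ j ih =>
    rw [Finset.sum_range_succ, ih, Finset.card_filter, Finset.card_filter, Finset.card_filter,
      ← Finset.sum_add_distrib]
    refine Finset.sum_congr rfl fun r _ => ?_
    have e1 : ∀ m : ℕ, ((r : ℕ) < m * ℓ ↔ (r : ℕ) / ℓ < m) := fun m =>
      (Nat.div_lt_iff_lt_mul (by omega)).symm
    simp only [e1]
    split_ifs <;> omega

/-- PROOF. Let `d u` be the number of `r ∈ A` with `u * ℓ ≤ r < (u + 1) * ℓ` and let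
`ν u = a ((u + 1) * ℓ - 1)` for `u < n / ℓ`. By `hA 1`, `d 0 = 0`. If `r ∈ A` is in the window
`u = r / ℓ`, then `1 ≤ u ≤ n / ℓ` and `a r ≤ ν (u - 1)`. So the left side is at most
`∑ u ∈ range (n / ℓ), d (u + 1) * ν u`. If `rk u ∉ A` then `a (rk u) ≥ ν u`, and if `rk u ∈ A` then
`d u ≥ 1`, so the right side is at least `∑ u ∈ range (n / ℓ), (1 - d u) * ν u`. The difference is
at least `∑ u ∈ range (n / ℓ), (1 - d u - d (u + 1)) * ν u ≥ 0` by `abel`, since
`∑ u ∈ range j, (1 - d u - d (u + 1)) = j - (∑ u ∈ range j, d u) - ∑ u ∈ range j, d (u + 1) ≥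
j - 2 * #{r ∈ A | r < (j + 1) * ℓ} ≥ 0` by `hA (j + 1)`. -/
theorem dominate {n ℓ : ℕ} (hℓ : 1 ≤ ℓ) (a : Fin n → ℝ) (ha : ∀ i j, i ≤ j → a j ≤ a i)
    (ha0 : ∀ i, 0 ≤ a i) (A : Finset (Fin n))
    (hA : ∀ u : ℕ, 1 ≤ u → 2 * (A.filter fun r : Fin n => (r : ℕ) < u * ℓ).card < u)
    (rk : Fin (n / ℓ) → Fin n)
    (hrk : ∀ u : Fin (n / ℓ), (u : ℕ) * ℓ ≤ (rk u : ℕ) ∧ (rk u : ℕ) < ((u : ℕ) + 1) * ℓ) :
    ∑ r ∈ A, a r ≤ ∑ u ∈ Finset.univ.filter (fun u => rk u ∉ A), a (rk u) := by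
  classical
  obtain ⟨ν, hν⟩ : ∃ ν : ℕ → ℝ, ∀ u, ν u =
      if h : (u + 1) * ℓ - 1 < n then a ⟨(u + 1) * ℓ - 1, h⟩ else 0 := ⟨_, fun _ => rfl⟩
  obtain ⟨d, hd⟩ : ∃ d : ℕ → ℕ, ∀ u, d u = (A.filter fun r : Fin n => (r : ℕ) / ℓ = u).card :=
    ⟨_, fun _ => rfl⟩
  have hin : ∀ u, u < n / ℓ → (u + 1) * ℓ ≤ n := by
    intro u hu
    exact (Nat.le_div_iff_mul_le (by omega)).1 hu
  have hpos : ∀ u : ℕ, 1 ≤ (u + 1) * ℓ := fun u => Nat.mul_pos (Nat.succ_pos u) hℓ
  have hνe : ∀ u (hu : u < n / ℓ), ν u = a ⟨(u + 1) * ℓ - 1, by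
      have := hin u hu; have := hpos u; omega⟩ := by
    intro u hu
    rw [hν u, dif_pos]
  have hν0 : ∀ u < n / ℓ, 0 ≤ ν u := by
    intro u hu
    rw [hνe u hu]
    exact ha0 _
  have hνm : ∀ u, u + 1 < n / ℓ → ν (u + 1) ≤ ν u := by
    intro u hu
    rw [hνe u (by omega), hνe (u + 1) hu]
    apply ha
    rw [Fin.mk_le_mk]
    have : (u + 1) * ℓ ≤ (u + 1 + 1) * ℓ := Nat.mul_le_mul_right _ (by omega)
    omega
  -- the elements of `A` are in windows `≥ 1`
  have hA1 : ∀ r ∈ A, 1 ≤ (r : ℕ) / ℓ := by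
    intro r hr
    by_contra hc
    have h0 : (r : ℕ) / ℓ = 0 := Nat.lt_one_iff.1 (not_le.1 hc)
    have h1 := hA 1 le_rfl
    have h2 : 0 < (A.filter fun r : Fin n => (r : ℕ) < 1 * ℓ).card := by
      rw [Finset.card_pos]
      refine ⟨r, ?_⟩
      rw [Finset.mem_filter]
      refine ⟨hr, ?_⟩
      rw [← Nat.div_lt_iff_lt_mul (by omega)]
      omega
    omega
  have hA2 : ∀ r : Fin n, (r : ℕ) / ℓ ≤ n / ℓ := fun r => Nat.div_le_div_right r.2.le
  have hleft : ∑ r ∈ A, a r ≤ ∑ u ∈ Finset.range (n / ℓ), (d (u + 1) : ℝ) * ν u := by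
    have h1 : ∀ r ∈ A, a r ≤ ν ((r : ℕ) / ℓ - 1) := by
      intro r hr
      have h2 := hA1 r hr
      have h3 := hA2 r
      rw [hνe _ (by omega)]
      apply ha
      rw [Fin.le_def]
      show ((r : ℕ) / ℓ - 1 + 1) * ℓ - 1 ≤ (r : ℕ)
      rw [Nat.sub_add_cancel h2]
      have := Nat.div_mul_le_self (r : ℕ) ℓ
      omega
    refine (Finset.sum_le_sum h1).trans (le_of_eq ?_)
    rw [← Finset.sum_fiberwise_of_maps_to (t := Finset.range (n / ℓ))
      (g := fun r : Fin n => (r : ℕ) / ℓ - 1)]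
    · refine Finset.sum_congr rfl fun u _ => ?_
      rw [hd (u + 1), ← nsmul_eq_mul]
      have h4 : (A.filter fun r : Fin n => (r : ℕ) / ℓ - 1 = u) =
          A.filter fun r : Fin n => (r : ℕ) / ℓ = u + 1 := by
        apply Finset.filter_congr
        intro r hr
        have := hA1 r hr
        omega
      rw [h4]
      apply Finset.sum_eq_card_nsmul
      intro r hr
      rw [Finset.mem_filter] at hr
      rw [hr.2]
      rfl
    · intro r hr
      rw [Finset.mem_range]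
      have h2 := hA1 r hr
      have h3 := hA2 r
      omega
  have hright : ∑ u ∈ Finset.range (n / ℓ), (1 - (d u : ℝ)) * ν u ≤
      ∑ u ∈ Finset.univ.filter (fun u => rk u ∉ A), a (rk u) := by
    rw [Finset.sum_filter, ← Fin.sum_univ_eq_sum_range (fun u => (1 - (d u : ℝ)) * ν u)]
    refine Finset.sum_le_sum fun u _ => ?_
    have hu0 := hν0 u u.2
    obtain ⟨h5, h6⟩ := hrk u
    have hw : ((rk u : Fin n) : ℕ) / ℓ = u := by
      apply Nat.div_eq_of_lt_le
      · exact h5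
      · exact h6
    by_cases hr : rk u ∈ A
    · rw [if_neg (not_not.2 hr)]
      have h7 : 1 ≤ d u := by
        rw [hd]
        apply Finset.card_pos.2
        exact ⟨rk u, Finset.mem_filter.2 ⟨hr, hw⟩⟩
      have h8 : (1 : ℝ) ≤ (d u : ℝ) := by exact_mod_cast h7
      exact mul_nonpos_of_nonpos_of_nonneg (by linarith) hu0
    · rw [if_pos hr]
      have h9 : ν u ≤ a (rk u) := by
        rw [hνe _ u.2]
        apply ha
        rw [Fin.le_def]
        show ((rk u : Fin n) : ℕ) ≤ (↑u + 1) * ℓ - 1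
        omega
      have h10 : (0 : ℝ) ≤ (d u : ℝ) := Nat.cast_nonneg _
      have h11 : (1 - (d u : ℝ)) * ν u ≤ 1 * ν u :=
        mul_le_mul_of_nonneg_right (by linarith) hu0
      linarith
  have habel := abel (n / ℓ) (fun u => 1 - (d u : ℝ) - (d (u + 1) : ℝ)) ν (by
    intro j _
    have h1 : ∑ u ∈ Finset.range j, (d u : ℝ) ≤
        ((A.filter fun r : Fin n => (r : ℕ) < (j + 1) * ℓ).card : ℝ) := by
      rw [← Dom_count hℓ, Finset.sum_range_succ]
      push_cast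
      simp only [hd]
      linarith [Nat.cast_nonneg (α := ℝ) (A.filter fun r : Fin n => (r : ℕ) / ℓ = j).card]
    have h2 : ∑ u ∈ Finset.range j, (d (u + 1) : ℝ) ≤
        ((A.filter fun r : Fin n => (r : ℕ) < (j + 1) * ℓ).card : ℝ) := by
      rw [← Dom_count hℓ, Finset.sum_range_succ']
      push_cast
      simp only [hd]
      linarith [Nat.cast_nonneg (α := ℝ) (A.filter fun r : Fin n => (r : ℕ) / ℓ = 0).card]
    have h3 := hA (j + 1) (by omega)
    have h4 : 2 * ((A.filter fun r : Fin n => (r : ℕ) < (j + 1) * ℓ).card : ℝ) ≤ (j : ℝ) := by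
      have h5 : 2 * (A.filter fun r : Fin n => (r : ℕ) < (j + 1) * ℓ).card ≤ j := by omega
      exact_mod_cast h5
    rw [Finset.sum_sub_distrib, Finset.sum_sub_distrib, Finset.sum_const, Finset.card_range,
      nsmul_eq_mul, mul_one]
    linarith) hνm hν0
  have hfin : ∑ u ∈ Finset.range (n / ℓ), (1 - (d u : ℝ) - (d (u + 1) : ℝ)) * ν u =
      ∑ u ∈ Finset.range (n / ℓ), (1 - (d u : ℝ)) * ν u -
        ∑ u ∈ Finset.range (n / ℓ), (d (u + 1) : ℝ) * ν u := by
    rw [← Finset.sum_sub_distrib]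
    refine Finset.sum_congr rfl fun u _ => ?_
    ring
  rw [hfin] at habel
  linarith

end Pool.Agent.W91_5f6b2a
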