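import Pool.Agent.W91_5f6b2a.Len
import Pool.Agent.W74_5f6b2a_tape.Member

/-!
The padded problem is reducible to the original problem.
-/

namespace Pool.Agent.W91_5f6b2a

open Pool.Agent.W_MP_5f6b2a_lc Pool.Agent.W74_5f6b2a_tape

/-- PROOF: induction on `k` for all `m`. For `k = 0` it is a literal. For `k + 1` use `AC.ex` over
`j : Fin (2 * h k)` and `AC.and` for the two bits, which are `AC s (2 * k)` by induction. -/
theorem dec_AC {h : ℕ → ℕ} {s : ℕ} (hs : 2 ≤ s) : ∀ (k m : ℕ) (_ : ∀ j < k, 2 * h j ≤ s)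
    (i : Fin m), AC s (2 * k) fun x : Fin (len h k m) → Bool => dec h k m x i = true := by
  intro k
  induction k with
  | zero =>
    intro m _ i
    exact AC.lit (X := Fin m) i true
  | succ k ih =>
    intro m hk i
    have h1 := ih (m * (2 * h k * 2)) (fun j hj => hk j (by omega))
    have h2 : AC s (2 * k + 1 + 1) fun x : Fin (len h k (m * (2 * h k * 2))) → Bool =>
        ∃ j : Fin (2 * h k), dec h k (m * (2 * h k * 2)) x (pos i j 0) = true ∧
          dec h k (m * (2 * h k * 2)) x (pos i j 1) = true :=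
      AC.ex (2 * h k) (hk k (by omega)) (fun j x =>
        dec h k (m * (2 * h k * 2)) x (pos i j 0) = true ∧
          dec h k (m * (2 * h k * 2)) x (pos i j 1) = true)
        fun j => AC.and hs (h1 (pos i j 0)) (h1 (pos i j 1))
    exact h2.congr fun x => by
      show _ ↔ decide (∃ j : Fin (2 * h k), dec h k (m * (2 * h k * 2)) x (pos i j 0) = true ∧
          dec h k (m * (2 * h k * 2)) x (pos i j 1) = true) = true
      rw [decide_eq_true_iff]

/-- PROOF: as `W74_5f6b2a_tape.pad_iff`, by `len_siz_inj`. -/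
theorem pad_iff {D : ℕ} {Q : ParamProblem} {m n K : ℕ} (h : len (siz K.unpair.1 m) D m = n)
    (x : Fin n → Bool) :
    Pad D Q n x K ↔ Q m (dec (siz K.unpair.1 m) D m (x ∘ Fin.cast h)) K.unpair.2 := by
  constructor
  · rintro ⟨m', h', hQ⟩
    obtain rfl : m' = m := len_siz_inj (h'.trans h.symm)
    exact hQ
  · intro hQ
    exact ⟨m, h, hQ⟩

/-- PROOF: as `W74_5f6b2a_tape.pad_reducible`, with `c = 2 * D + 1`, `f = 2`, `g K = K.unpair.2`:
if `n` is not a length take `n' = 0`; otherwise `n' = m` and the bits are given by `dec_AC` with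
`s = 2 * (n + 1) ^ c` and `siz_le_len` (if `m = 0` there are no bits), and `cast_AC`. -/
theorem pad_reducible (D : ℕ) (Q : ParamProblem) (h0 : ∀ x k, ¬ Q 0 x k) :
    ParaAC0Reducible (Pad D Q) Q := by
  refine ⟨2 * D + 1, fun _ => 2, fun K => K.unpair.2, fun K n => ?_⟩
  have hpow : n + 1 ≤ (n + 1) ^ (2 * D + 1) := Nat.le_self_pow (by omega) _
  have hj : ∀ j, AC (X := Fin n) (2 * (n + 1) ^ (2 * D + 1)) (2 * D + 1)
      fun _ => K.unpair.2 = j := fun j => AC.const_succ _ _
  by_cases hm : ∃ m, len (siz K.unpair.1 m) D m = n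
  · obtain ⟨m, h⟩ := hm
    refine ⟨m, fun x => dec (siz K.unpair.1 m) D m (x ∘ Fin.cast h), fun _ => K.unpair.2, ?_,
      fun _ => le_rfl, ?_, hj, fun x => pad_iff h x⟩
    · rcases Nat.eq_zero_or_pos m with h1 | h1
      · omega
      · have h2 : m ≤ len (siz K.unpair.1 m) D m :=
          le_len fun j _ => Nat.one_le_pow _ _ h1
        beta_reduce
        omega
    · intro i
      have h1 : 0 < m := by have := i.2; omega
      beta_reduce
      have h2 : AC (2 * (n + 1) ^ (2 * D + 1)) (2 * D)
          fun x : Fin (len (siz K.unpair.1 m) D m) → Bool =>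
            dec (siz K.unpair.1 m) D m x i = true := by
        refine dec_AC (by omega) D m (fun j hj => ?_) i
        have h3 := siz_le_len (a := K.unpair.1) (D := D) (m := m) (j := j) h1 hj
        omega
      exact (cast_AC h h2).succ (by omega)
  · refine ⟨0, fun _ i => i.elim0, fun _ => K.unpair.2, Nat.zero_le _, fun _ => le_rfl,
      fun i => i.elim0, hj, fun x => ?_⟩
    constructor
    · rintro ⟨m, h, -⟩
      exact absurd ⟨m, h⟩ hm
    · intro h
      exact absurd h (h0 _ _)

theorem pad_mem (D t d : ℕ) (hd : 1 ≤ d) : Pad D (pWSAT t d) ∈ W t :=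
  ⟨d, hd, pad_reducible D _ (pWSAT_zero t d)⟩

theorem Member_plain (h : ℕ → ℕ) : ∀ (D m : ℕ) (_ : ∀ j < D, 1 ≤ h j),
    ∃ σ : (Fin m → Bool) → Fin (len h D m) → Bool, ∀ y, dec h D m (σ y) = y := by
  intro D
  induction D with
  | zero =>
    intro m _
    exact ⟨fun y => y, fun y => rfl⟩
  | succ D ih =>
    intro m hh
    obtain ⟨σ, hσ⟩ := ih (m * (2 * h D * 2)) (fun j hj => hh j (by omega))
    refine ⟨fun y => σ fun a => y (finProdFinEquiv.symm a).1, fun y => ?_⟩
    funext i
    show decide (∃ j : Fin (2 * h D), dec h D (m * (2 * h D * 2))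
        (σ fun a => y (finProdFinEquiv.symm a).1) (pos i j 0) = true ∧
      dec h D (m * (2 * h D * 2)) (σ fun a => y (finProdFinEquiv.symm a).1) (pos i j 1) = true)
      = y i
    rw [hσ]
    have h1 : ∀ (j : Fin (2 * h D)) (b : Fin 2),
        (finProdFinEquiv.symm (pos i j b)).1 = i := by
      intro j b
      unfold pos
      rw [Equiv.symm_apply_apply]
    have hD := hh D (by omega)
    have h2 : (∃ j : Fin (2 * h D), y (finProdFinEquiv.symm (pos i j (0 : Fin 2))).1 = true ∧
        y (finProdFinEquiv.symm (pos i j (1 : Fin 2))).1 = true) ↔ y i = true := by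
      constructor
      · rintro ⟨j, hj, -⟩
        rwa [h1] at hj
      · intro hy
        refine ⟨⟨0, by omega⟩, ?_, ?_⟩
        · rw [h1]; exact hy
        · rw [h1]; exact hy
    by_cases hy : y i = true
    · rw [hy, decide_eq_true_iff, h2]
      exact hy
    · rw [Bool.not_eq_true] at hy
      rw [hy, decide_eq_false_iff_not, h2, hy]
      simp

/-- The plain code. PROOF: if `m = 0` then `Fin m → Bool` has one element. If `0 < m`, induction on
`D` for all `m` (with `h` fixed, `∀ j < D, 1 ≤ h j`): the code of `y` at depth `D + 1` is the code at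
depth `D` of the string `fun a => y (block of a)` (`posEquiv` in `W74_5f6b2a_tape.Restrict`, or
`finProdFinEquiv.symm a`). -/
theorem exists_plain (a D m : ℕ) :
    ∃ σ : (Fin m → Bool) → Fin (len (siz a m) D m) → Bool,
      ∀ y, dec (siz a m) D m (σ y) = y := by
  rcases Nat.eq_zero_or_pos m with h1 | h1
  · subst h1
    exact ⟨fun _ _ => false, fun y => funext fun i => i.elim0⟩
  · exact Member_plain (siz a m) D m fun j _ => Nat.one_le_pow _ _ h1

end Pool.Agent.W91_5f6b2a
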