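import Pool.Agent.W91_5f6b2a.Len
import Pool.Agent.W74_5f6b2a_tape.Main

/-!
The choice of the parameters.
-/

namespace Pool.Agent.W91_5f6b2a

open Finset Pool.Agent.W74_5f6b2a_tape

/-- The exponents: `G = ∑ j < D, 5 ^ j`. PROOF: take `r ≥ 2` large and `s = r - 2`; the condition is
`r * (1 - 5 * G * ε) ≥ 2 + ε * (2 + 10 * G)`. -/
theorem exists_exps {ε : ℝ} {G : ℕ} (hε : 0 ≤ ε) (h : 5 * G * ε < 1) :
    ∃ r : ℕ, 2 ≤ r ∧ ((2 + (5 * r + 10) * G : ℕ) : ℝ) * ε ≤ ((r - 2 : ℕ) : ℝ) := by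
  obtain ⟨r, hr⟩ := exists_nat_ge ((2 + ε * (2 + 10 * G)) / (1 - 5 * G * ε))
  have h1 : 0 < 1 - 5 * (G : ℝ) * ε := by linarith
  rw [div_le_iff₀ h1] at hr
  refine ⟨r + 2, by omega, ?_⟩
  rw [Nat.add_sub_cancel]
  have h2 : (0 : ℝ) ≤ G := Nat.cast_nonneg G
  push_cast
  nlinarith

/-- PROOF. With `n = len (siz a m) D m = 4 ^ D * m ^ (1 + a * G)` (`len_siz`) and `e = 2 + a * G`:
`n + 1 ≤ m ^ e` since `4 ^ D + 1 ≤ m`; by `rpow_bound`, `(n + 1) ^ ε ≤ m ^ (r - 2)`. So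
`q ≤ F * m ^ (r - 2) ≤ m ^ r`, and `w ≤ F * (n + 1) * m ^ (r - 2) ≤ 2 * F * n * m ^ (r - 2) ≤
m ^ r * n`. -/
theorem bounds {ε : ℝ} {D m a r F q w : ℕ} (hε : 0 ≤ ε) (hr : 2 ≤ r)
    (hexp : ((2 + a * ∑ j ∈ range D, 5 ^ j : ℕ) : ℝ) * ε ≤ ((r - 2 : ℕ) : ℝ))
    (hm : 4 ^ D + 1 ≤ m) (hF : 2 * F + 1 ≤ m)
    (hq : (q : ℝ) ≤ F * ((len (siz a m) D m : ℕ) + 1 : ℝ) ^ ε)
    (hw : (w : ℝ) ≤ F * ((len (siz a m) D m : ℕ) + 1 : ℝ) ^ (1 + ε)) :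
    q + 1 ≤ m ^ r ∧ w ≤ m ^ r * len (siz a m) D m := by
  set G := ∑ j ∈ range D, 5 ^ j with hG
  set n := len (siz a m) D m with hn
  have hn' : n = 4 ^ D * m ^ (1 + a * G) := len_siz a D m
  have h4 : 0 < 4 ^ D := by positivity
  have hm1 : 1 ≤ m := by omega
  have hpow : 1 ≤ m ^ (1 + a * G) := Nat.one_le_pow _ _ hm1
  have hn1 : 1 ≤ n := by
    rw [hn']
    exact Nat.mul_pos h4 hpow
  have hle : n + 1 ≤ m ^ (2 + a * G) := by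
    have h1 : m ^ (2 + a * G) = m * m ^ (1 + a * G) := by
      rw [← pow_succ']
      congr 1
      omega
    rw [h1, hn']
    calc 4 ^ D * m ^ (1 + a * G) + 1 ≤ 4 ^ D * m ^ (1 + a * G) + m ^ (1 + a * G) := by omega
      _ = (4 ^ D + 1) * m ^ (1 + a * G) := by ring
      _ ≤ m * m ^ (1 + a * G) := Nat.mul_le_mul_right _ hm
  have hrp := rpow_bound (α := ε) (a := r - 2) hε hm1 hle hexp
  have hF0 : (0 : ℝ) ≤ F := Nat.cast_nonneg F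
  have hmr : m ^ r = m * (m * m ^ (r - 2)) := by
    rw [← pow_succ', ← pow_succ']
    congr 1
    omega
  have hmm : 1 ≤ m ^ (r - 2) := Nat.one_le_pow _ _ hm1
  constructor
  · have h1 : (q : ℝ) ≤ F * (m : ℝ) ^ (r - 2) := hq.trans (by gcongr)
    have h2 : q ≤ F * m ^ (r - 2) := by exact_mod_cast h1
    calc q + 1 ≤ F * m ^ (r - 2) + m ^ (r - 2) := Nat.add_le_add h2 hmm
      _ = (F + 1) * m ^ (r - 2) := by ring
      _ ≤ m * m ^ (r - 2) := Nat.mul_le_mul_right _ (by omega)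
      _ ≤ m * (m * m ^ (r - 2)) := Nat.mul_le_mul_left _ (Nat.le_mul_of_pos_left _ hm1)
      _ = m ^ r := hmr.symm
  · have h0 : (0 : ℝ) < (n : ℝ) + 1 := by positivity
    have h1 : (w : ℝ) ≤ F * (((n : ℝ) + 1) * (m : ℝ) ^ (r - 2)) := by
      refine hw.trans ?_
      rw [Real.rpow_add h0, Real.rpow_one]
      gcongr
    have h2 : w ≤ F * ((n + 1) * m ^ (r - 2)) := by exact_mod_cast h1
    calc w ≤ F * ((n + 1) * m ^ (r - 2)) := h2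
      _ ≤ F * ((2 * n) * m ^ (r - 2)) := by
          apply Nat.mul_le_mul_left
          apply Nat.mul_le_mul_right
          omega
      _ = (2 * F) * (n * m ^ (r - 2)) := by ring
      _ ≤ m * (n * m ^ (r - 2)) := Nat.mul_le_mul_right _ (by omega)
      _ ≤ m * (m * (n * m ^ (r - 2))) := Nat.mul_le_mul_left _ (Nat.le_mul_of_pos_left _ hm1)
      _ = m ^ r * n := by rw [hmr]; ring

/-- PROOF: `∏ i ∈ range j, (2 * siz a m i * 2) = 4 ^ j * m ^ (a * G)` with `G = ∑ i < j, 5 ^ i` and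
`4 * G + 1 = 5 ^ j` (`four_geom`). So the left side is at most
`2 ^ 19 * 4 ^ (4 * D) * m ^ (1 + r + 4 * r + 4 * a * G + 8) ≤ m ^ (5 * r + 10 + 4 * a * G)
= m ^ (a * 5 ^ j)` for `a = 5 * r + 10`. -/
theorem stage_bound {D m r a q j : ℕ} (ha : a = 5 * r + 10) (hm : 2 ^ 19 * 4 ^ (4 * D) ≤ m)
    (hq : q ≤ m ^ r) (hj : j < D) :
    2 ^ 19 * m * q * (m ^ r * ∏ i ∈ range j, (2 * siz a m i * 2)) ^ 4 * (m ^ 2) ^ 4 ≤
      siz a m j := by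
  have hprod : ∏ i ∈ range j, (2 * siz a m i * 2) = 4 ^ j * m ^ (a * ∑ i ∈ range j, 5 ^ i) := by
    have h1 : ∀ i ∈ range j, 2 * siz a m i * 2 = 4 * m ^ (a * 5 ^ i) := by
      intro i _
      unfold siz
      ring
    rw [prod_congr rfl h1, prod_mul_distrib, prod_const, card_range, prod_pow_eq_pow_sum,
      ← mul_sum]
  have hgeom := four_geom j
  set G := ∑ i ∈ range j, 5 ^ i with hG
  rw [hprod]
  unfold siz
  have hexp : a * 5 ^ j = (9 + 5 * r + 4 * (a * G)) + 1 := by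
    rw [← hgeom]
    subst ha
    ring
  have h4 : 2 ^ 19 * 4 ^ (4 * j) ≤ m :=
    (Nat.mul_le_mul_left _ (Nat.pow_le_pow_right (by norm_num) (by omega))).trans hm
  calc 2 ^ 19 * m * q * (m ^ r * (4 ^ j * m ^ (a * G))) ^ 4 * (m ^ 2) ^ 4
      ≤ 2 ^ 19 * m * m ^ r * (m ^ r * (4 ^ j * m ^ (a * G))) ^ 4 * (m ^ 2) ^ 4 := by gcongr
    _ = (2 ^ 19 * 4 ^ (4 * j)) * m ^ (9 + 5 * r + 4 * (a * G)) := by
        rw [pow_add, pow_add, pow_mul' 4 4 j, pow_mul' m 5 r, pow_mul' m 4 (a * G)]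
        ring
    _ ≤ m * m ^ (9 + 5 * r + 4 * (a * G)) := Nat.mul_le_mul_right _ h4
    _ = m ^ (a * 5 ^ j) := by rw [hexp, pow_succ']

end Pool.Agent.W91_5f6b2a
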