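import Pool.Agent.W91_5f6b2a.Stages
import Pool.Agent.W91_5f6b2a.Member
import Pool.Agent.W91_5f6b2a.Numbers
import Pool.Agent.W74_5f6b2a_tape.Elim
import Pool.Agent.W91_5f6b2a.Bridge

/-!
A reduction of the padded problem gives a para-AC0 reduction of the original problem.
-/

namespace Pool.Agent.W91_5f6b2a

open Finset Pool.Agent.W_MP_5f6b2a_lc Pool.Agent.W74_5f6b2a_tape

theorem Jun.toAC {X : Type} {V : Finset X} {f : (X → Bool) → Bool} (hf : Jun V f) (b : Bool) :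
    AC 3 2 fun v => f v = b := by
  classical
  obtain ⟨A, -, hA, h⟩ := hf
  have h1 : DTle 1 fun v => f v = b := by
    refine (DTle.of_depends A _ ?_).mono hA
    intro v v' hv
    rw [h v v' hv]
  exact DTle.toAC h1

theorem elim {D : ℕ} {ε : ℝ} (hε : 0 ≤ ε) (hD : (5 ^ (D + 1) - 5) * ε < 4) {Q Q' : ParamProblem}
    (hred : SparseReducible D ε (Pad D Q) Q') : ParaAC0Reducible Q Q' := by
  classical
  obtain ⟨c, f, g, hred⟩ := hred
  set G := ∑ j ∈ range D, 5 ^ j with hG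
  have hGε : 5 * (G : ℝ) * ε < 1 := by
    have h1 : 4 * G + 1 = 5 ^ D := four_geom D
    have h2 : (4 * (G : ℝ) + 1) = 5 ^ D := by exact_mod_cast h1
    have h3 : (5 : ℝ) ^ (D + 1) - 5 = 20 * G := by rw [pow_succ, ← h2]; ring
    rw [h3] at hD
    linarith
  obtain ⟨r, hr2, hr⟩ := exists_exps (G := G) hε hGε
  set a := 5 * r + 10 with ha
  obtain ⟨m₁, hm₁⟩ := exists_pow_le (3 + a * G)
  let K : ℕ → ℕ := fun k => Nat.pair a k
  let m₀ : ℕ → ℕ := fun k =>
    2 * f (K k) + m₁ + 2 ^ 19 * 4 ^ (4 * D) + 10 * 6 ^ D + 2 * 4 ^ D + 2 + g (K k)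
  let f' : ℕ → ℕ := fun k => f (K k) * (4 ^ D + 1) ^ c + (2 ^ m₀ k + m₀ k) + 3
  have hK : ∀ k, (K k).unpair.1 = a ∧ (K k).unpair.2 = k := by
    intro k
    simp [K]
  set c' := (1 + a * G) * c + c + 2 with hc'
  refine ⟨c', f', fun k => g (K k), fun k m => ?_⟩
  set n := len (siz a m) D m with hn
  obtain ⟨N, q, C, n', R, κ, hok, hw, hq, hn', hκ, hR, hκ', hQ⟩ := hred (K k) n
  set S := f (K k) * (n + 1) ^ c with hS
  have hnval : n = 4 ^ D * m ^ (1 + a * G) := len_siz a D m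
  have hn1 : n + 1 ≤ (4 ^ D + 1) * (m + 1) ^ (1 + a * G) := by
    have h1 : m ^ (1 + a * G) ≤ (m + 1) ^ (1 + a * G) := Nat.pow_le_pow_left (by omega) _
    have h2 : 1 ≤ (m + 1) ^ (1 + a * G) := Nat.one_le_pow _ _ (by omega)
    calc n + 1 ≤ 4 ^ D * (m + 1) ^ (1 + a * G) + (m + 1) ^ (1 + a * G) :=
          Nat.add_le_add (hnval.le.trans (Nat.mul_le_mul_left _ h1)) h2
      _ = _ := by ring
  have hSle : S ≤ f (K k) * (4 ^ D + 1) ^ c * (m + 1) ^ c' := by
    have h1 : (n + 1) ^ c ≤ (4 ^ D + 1) ^ c * (m + 1) ^ ((1 + a * G) * c) := by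
      refine (Nat.pow_le_pow_left hn1 c).trans ?_
      rw [mul_pow, ← pow_mul]
    rw [hS, mul_assoc]
    refine Nat.mul_le_mul_left _ (h1.trans (Nat.mul_le_mul_left _ ?_))
    exact Nat.pow_le_pow_right (by omega) (by omega)
  have hpow1 : 1 ≤ (m + 1) ^ c' := Nat.one_le_pow _ _ (by omega)
  have hf'3 : f' k = f (K k) * (4 ^ D + 1) ^ c + (2 ^ m₀ k + m₀ k) + 3 := rfl
  have hSle' : S ≤ f' k * (m + 1) ^ c' := by
    refine hSle.trans (Nat.mul_le_mul_right _ ?_)
    rw [hf'3, add_assoc]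
    exact Nat.le_add_right _ _
  have hf'le : f' k ≤ f' k * (m + 1) ^ c' := Nat.le_mul_of_pos_right _ hpow1
  have hf'4 : (2 ^ m₀ k + m₀ k) + 3 ≤ f' k := by
    rw [hf'3, add_assoc]
    exact Nat.le_add_left _ _
  have hf'5 : 3 ≤ f' k := le_trans (Nat.le_add_left _ _) hf'4
  have hone : 1 ≤ f' k * (m + 1) ^ c' := by omega
  -- it suffices to find a restriction
  suffices H : ∃ (σ : (Fin m → Bool) → Fin n → Bool), (∀ y, dec (siz a m) D m (σ y) = y) ∧
      (∀ i, AC (f' k * (m + 1) ^ c') c' fun y => R (σ y) i = true) ∧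
      ∀ j, AC (f' k * (m + 1) ^ c') c' fun y => κ (σ y) = j by
    obtain ⟨σ, h1, h2, h3⟩ := H
    refine ⟨n', fun y => R (σ y), fun y => κ (σ y), hn'.trans hSle', fun y => hκ _, h2, h3,
      fun y => ?_⟩
    rw [← hQ (σ y)]
    obtain ⟨k1, k2⟩ := hK k
    have h8 : ∀ (a' : ℕ) (_ : a' = a) (h : len (siz a' m) D m = n),
        dec (siz a' m) D m (σ y ∘ Fin.cast h) = y := by
      intro a' ha' h
      subst ha'
      exact h1 y
    have h9 : len (siz (K k).unpair.1 m) D m = n := by rw [k1]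
    rw [pad_iff h9 (σ y), h8 _ k1 h9, k2]
  by_cases hmk : m < m₀ k
  · -- small `m`
    obtain ⟨σ, hσ⟩ := exists_plain a D m
    have h2 : 2 ^ m + m ≤ f' k * (m + 1) ^ c' := by
      have h3 : 2 ^ m ≤ 2 ^ m₀ k := Nat.pow_le_pow_right (by norm_num) hmk.le
      omega
    exact ⟨σ, hσ, fun i => (brute h2 _).mono_depth hone (by omega),
      fun j => (brute h2 _).mono_depth hone (by omega)⟩
  -- large `m`
  push Not at hmk
  have hmk' : 2 * f (K k) + m₁ + 2 ^ 19 * 4 ^ (4 * D) + 10 * 6 ^ D + 2 * 4 ^ D + 2 + g (K k) ≤ m :=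
    hmk
  have h4D : 0 < 4 ^ D := by positivity
  have h6D : 0 < 6 ^ D := by positivity
  have h4D4 : 0 < 4 ^ (4 * D) := by positivity
  have hbig := hm₁ m (by omega)
  obtain ⟨hq1, hw1⟩ := bounds (D := D) (m := m) (a := a) (r := r) (F := f (K k)) (q := q)
    (w := C.wires) hε hr2 hr (by omega) (by omega) hq hw
  have h2n : 2 * n < 2 ^ m := by
    refine lt_of_lt_of_le ?_ hbig
    rw [hnval]
    have h1 : 0 < m ^ (1 + a * G) := Nat.pow_pos (by omega)
    have h5 : 0 < m ^ (2 + a * G) := Nat.pow_pos (by omega)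
    calc 2 * (4 ^ D * m ^ (1 + a * G)) = (2 * 4 ^ D) * m ^ (1 + a * G) := by ring
      _ ≤ m * m ^ (1 + a * G) := Nat.mul_le_mul_right _ (by omega)
      _ = 1 * m ^ (2 + a * G) := by rw [one_mul, ← pow_succ']; congr 1; omega
      _ < m * m ^ (2 + a * G) := Nat.mul_lt_mul_of_pos_right (by omega) h5
      _ = m ^ (3 + a * G) := by rw [← pow_succ']; congr 1; omega
  obtain ⟨σ, V, hst, hV⟩ := stages (h := siz a m) (N := N) (q := q + 1) (L := m) (R := m ^ r)
    (K := m ^ 2) (by omega) (Nat.one_le_pow _ _ (by omega)) (by omega)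
    (Nat.one_le_pow _ _ (by omega)) D m C (fun g => (hok.2 g).mono (Nat.le_succ q)) hw1
    (by
      have : m ≤ m ^ 2 := Nat.le_self_pow (by norm_num) m
      omega) h2n
    (fun j hj => stage_bound ha (by omega) hq1 hj)
  have hVuniv : V = univ := by
    have h1 : Vᶜ.card = 0 := by
      by_contra hne
      have h2 : 1 ≤ Vᶜ.card := Nat.one_le_iff_ne_zero.2 hne
      have h3 : m ^ 2 * 1 ≤ 6 ^ D * m := (Nat.mul_le_mul_left _ h2).trans hV
      have h5 : 6 ^ D * m < m ^ 2 * 1 := by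
        rw [mul_one, pow_two]
        exact Nat.mul_lt_mul_of_pos_right (by omega) (by omega)
      omega
    rw [card_eq_zero, compl_eq_empty_iff] at h1
    exact h1
  have hleaf : ∀ φ, NetLeaf D C φ → AC 3 2 fun y => φ (σ y) := by
    rintro φ (⟨p, b, hφ⟩ | ⟨g', b, hφ⟩)
    · exact ((hst.bit p).toAC b).congr fun y => (hφ (σ y)).symm
    · exact ((hst.gate g' (hok.1 g')).toAC b).congr fun y => (hφ (σ y)).symm
  have hmax : max S 3 ≤ f' k * (m + 1) ^ c' := max_le hSle' (by omega)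
  refine ⟨σ, fun y => funext fun i => ?_, fun i => ?_, fun j => ?_⟩
  · have h1 := hst.dec y i
    rw [hVuniv] at h1
    have h2 : dec (siz a m) D m (σ y) i = true ↔ y i = true := by simpa using h1
    exact Bool.eq_iff_iff.2 h2
  · exact ((hR i).form.subst (φ := σ) hleaf).mono hone hmax (by omega)
  · exact ((hκ' j).form.subst (φ := σ) hleaf).mono hone hmax (by omega)

end Pool.Agent.W91_5f6b2a
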