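import Pool.Agent.W91_5f6b2a.Defs

/-!
Functions of at most one variable; gates whose signals are functions of at most one variable.
-/

namespace Pool.Agent.W91_5f6b2a

open Finset

/-- `f` depends on at most one variable, which is in `V`. -/
def Jun {X : Type} (V : Finset X) (f : (X → Bool) → Bool) : Prop :=
  ∃ A ⊆ V, A.card ≤ 1 ∧ ∀ v v', (∀ a ∈ A, v a = v' a) → f v = f v'

theorem Jun.const {X : Type} (V : Finset X) (b : Bool) : Jun V fun _ => b :=
  ⟨∅, empty_subset _, by simp, fun _ _ _ => rfl⟩

theorem Jun.congr {X : Type} {V : Finset X} {f f' : (X → Bool) → Bool} (hf : Jun V f)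
    (h : ∀ v, f v = f' v) : Jun V f' := by
  have : f = f' := funext h
  exact this ▸ hf

/-- A function of one variable of a string all of whose bits are functions of one variable. -/
theorem Jun.comp {X X' : Type} {V : Finset X} {V' : Finset X'} {f : (X → Bool) → Bool}
    (hf : Jun V f) {τ : (X' → Bool) → X → Bool} (hτ : ∀ x ∈ V, Jun V' fun v => τ v x) :
    Jun V' fun v => f (τ v) := by
  obtain ⟨A, hAV, hA, h⟩ := hf
  rcases Nat.le_one_iff_eq_zero_or_eq_one.1 hA with h0 | h1
  · rw [card_eq_zero] at h0
    subst h0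
    exact ⟨∅, empty_subset _, by simp, fun v v' _ => h _ _ (by simp)⟩
  · obtain ⟨a, rfl⟩ := card_eq_one.1 h1
    obtain ⟨A', hA', hc, h'⟩ := hτ a (hAV (mem_singleton_self a))
    refine ⟨A', hA', hc, fun v v' hv => h _ _ ?_⟩
    intro b hb
    rw [mem_singleton] at hb
    subst hb
    exact h' v v' hv

theorem Jumps.mono {q q' : ℕ} {F : ℝ → Bool} (hF : Jumps q F) (h : q ≤ q') : Jumps q' F := by
  obtain ⟨J, hJ, hF⟩ := hF
  exact ⟨J, hJ.trans h, hF⟩

/-- PROOF: translate `J` by `-c`. -/
theorem Jumps.shift {q : ℕ} {F : ℝ → Bool} (hF : Jumps q F) (c : ℝ) :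
    Jumps q fun s => F (c + s) := by
  classical
  obtain ⟨J, hJ, h⟩ := hF
  refine ⟨J.image fun x => x - c, card_image_le.trans hJ, fun a b hab hc => ?_⟩
  apply h _ _ (by linarith)
  intro x hx
  rcases hc (x - c) (mem_image_of_mem _ hx) with h1 | h1
  · left; linarith
  · right; linarith

theorem IsGate.mono {Y : Type} {q q' : ℕ} {U : Finset Y} {φ : (Y → Bool) → Bool}
    (hφ : IsGate q U φ) (h : q ≤ q') : IsGate q' U φ := by
  refine ⟨hφ.1, ?_⟩
  rcases hφ.2 with h1 | ⟨w, F, hF, h2⟩
  · exact Or.inl (h1.trans h)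
  · exact Or.inr ⟨w, F, hF.mono h, h2⟩

/-- PROOF. Choose for every `y ∈ U` the set `A y ⊆ V`, `|A y| ≤ 1`, and put `S = ⋃_{y ∈ U} A y`. If
`A y = {a}` then `z v y` is `z 1 y` if `v a` is true and `z 0 y` otherwise, where `0`, `1` are the
constant assignments; if `A y = ∅` it is `z 0 y`. So the weighted sum is a constant plus the sum
over `a ∈ S` with `v a` true of
`w' a = ∑ y ∈ U with A y = {a}, ((if z 1 y then w y else 0) - (if z 0 y then w y else 0))`; use
`Jumps.shift`. -/
theorem IsGate.comp {X Y : Type} {q : ℕ} {U : Finset Y} {φ : (Y → Bool) → Bool}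
    (hφ : IsGate q U φ) {V : Finset X} {z : (X → Bool) → Y → Bool}
    (hz : ∀ y ∈ U, Jun V fun v => z v y) :
    ∃ S ⊆ V, S.card ≤ U.card ∧ IsGate q S fun v => φ (z v) := by
  classical
  have hz' : ∀ y, ∃ A ⊆ V, A.card ≤ 1 ∧ (y ∈ U → ∀ v v' : X → Bool, (∀ a ∈ A, v a = v' a) →
      z v y = z v' y) := by
    intro y
    by_cases hy : y ∈ U
    · obtain ⟨A, h1, h2, h3⟩ := hz y hy
      exact ⟨A, h1, h2, fun _ => h3⟩
    · exact ⟨∅, empty_subset _, by simp, fun h => absurd h hy⟩
  choose A hAV hA1 hA using hz'
  have hdep : ∀ v v' : X → Bool, (∀ a ∈ U.biUnion A, v a = v' a) → ∀ y ∈ U, z v y = z v' y := by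
    intro v v' h y hy
    exact hA y hy v v' fun a ha => h a (mem_biUnion.2 ⟨y, hy, ha⟩)
  have hcard : (U.biUnion A).card ≤ U.card := by
    refine card_biUnion_le.trans ?_
    calc ∑ u ∈ U, (A u).card ≤ ∑ _u ∈ U, 1 := sum_le_sum fun u _ => hA1 u
      _ = U.card := by simp
  refine ⟨U.biUnion A, biUnion_subset.2 fun y _ => hAV y, hcard, ?_, ?_⟩
  · intro v v' h
    exact hφ.1 _ _ (hdep v v' h)
  · rcases hφ.2 with h1 | ⟨w, F, hF, h2⟩
    · exact Or.inl (hcard.trans h1)
    · right
      set z0 : Y → Bool := z fun _ => false with hz0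
      set z1 : Y → Bool := z fun _ => true with hz1
      set δ : Y → ℝ := fun y => (if z1 y = true then w y else 0) - (if z0 y = true then w y else 0)
        with hδ
      refine ⟨fun a => ∑ y ∈ U with A y = {a}, δ y,
        fun s => F ((∑ y ∈ U, if z0 y = true then w y else 0) + s), hF.shift _, fun v => ?_⟩
      show φ (z v) = F ((∑ y ∈ U, if z0 y = true then w y else 0) +
        ∑ a ∈ U.biUnion A, if v a = true then ∑ y ∈ U with A y = {a}, δ y else 0)
      rw [h2]
      congr 1
      -- the contribution of one signal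
      have hone : ∀ y ∈ U, (if z v y = true then w y else 0) =
          (if z0 y = true then w y else 0) + ∑ a ∈ U.biUnion A with A y = {a},
            (if v a = true then δ y else 0) := by
        intro y hy
        rcases Nat.le_one_iff_eq_zero_or_eq_one.1 (hA1 y) with h0 | h1
        · rw [card_eq_zero] at h0
          have e1 : z v y = z0 y := hA y hy _ _ (by rw [h0]; simp)
          have e2 : (U.biUnion A).filter (fun a => A y = {a}) = ∅ := by
            rw [filter_eq_empty_iff]
            intro a _ h
            rw [h0] at h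
            exact absurd h.symm (singleton_ne_empty a)
          rw [e1, e2, sum_empty, add_zero]
        · obtain ⟨a, ha⟩ := card_eq_one.1 h1
          have haU : a ∈ U.biUnion A := mem_biUnion.2 ⟨y, hy, by rw [ha]; simp⟩
          have e2 : (U.biUnion A).filter (fun a' => A y = {a'}) = {a} := by
            ext a'
            rw [mem_filter, mem_singleton, ha, singleton_inj]
            constructor
            · rintro ⟨-, h⟩; exact h.symm
            · rintro rfl; exact ⟨haU, rfl⟩
          rw [e2, sum_singleton]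
          by_cases hv : v a = true
          · have e1 : z v y = z1 y := hA y hy _ _ (by
              rw [ha]; intro b hb; rw [mem_singleton] at hb; subst hb; exact hv)
            rw [e1, if_pos hv, hδ]
            ring
          · have e1 : z v y = z0 y := hA y hy _ _ (by
              rw [ha]; intro b hb; rw [mem_singleton] at hb; subst hb
              simpa using hv)
            rw [e1, if_neg hv]
            ring
      rw [sum_congr rfl hone, sum_add_distrib]
      congr 1
      simp_rw [sum_filter]
      rw [sum_comm]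
      refine sum_congr rfl fun a _ => ?_
      by_cases hv : v a = true
      · simp [hv]
      · simp [hv]

/-- The gates of level less than `τ` have their final values after `τ` rounds. -/
theorem Net.run_succ {n N : ℕ} {C : Net n N} {q : ℕ} (hC : ∀ g, IsGate q (C.src g) (C.fn g))
    (x : Fin n → Bool) :
    ∀ (τ : ℕ) (g : Fin N), C.lev g < τ → C.run x (τ + 1) g = C.run x τ g
  | 0, g, h => by omega
  | τ + 1, g, h => by
    show C.fn g (Sum.elim x (C.run x (τ + 1))) = C.fn g (Sum.elim x (C.run x τ))
    apply (hC g).1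
    rintro (p | g') hg'
    · rfl
    · have h1 := C.lev_lt g g' hg'
      exact Net.run_succ hC x τ g' (by omega)

theorem Net.run_eq {n N : ℕ} {C : Net n N} {q : ℕ} (hC : ∀ g, IsGate q (C.src g) (C.fn g))
    (x : Fin n → Bool) {τ τ' : ℕ} (hτ : τ ≤ τ') (g : Fin N) (hg : C.lev g < τ) : C.run x τ' g = C.run x τ g := by
  induction hτ with
  | refl => rfl
  | @step m hm ih =>
    have h1 : τ ≤ m := hm
    rw [Nat.succ_eq_add_one, Net.run_succ hC x m g (by omega), ih]

end Pool.Agent.W91_5f6b2a
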