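import Pool.Agent.W91_5f6b2a.Blocks
import Pool.Agent.W74_5f6b2a_tape.Restrict

/-!
The good pairs.
-/

namespace Pool.Agent.W91_5f6b2a

open Pool.Agent.W74_5f6b2a_tape

/-- The good pairs. PROOF: `good_blocks` with `G i j := pos i j 0 ∈ V ∧ pos i j 1 ∈ V ∧
#{g | pos i j 1 ∈ S g} ≤ 4 * R * K`. The number `b` of bad pairs is at most
`Vᶜ.card + #{a | 4 * R * K < #{g | a ∈ S g}}` (map the bad pair `(i, j)` to `pos i j 0` if this is
not in `V` and to `pos i j 1` otherwise, and note that an `a` in both sets is needed only once, or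
use that the two sets of pairs inject separately). By `card_big_deg`,
`4 * R * K * #{…} ≤ R * (m * (2 * H * 2))`, so `K * #{…} ≤ m * H`. Hence
`K * b ≤ E * (m * (2 * H * 2)) + m * H = (4 * E + 1) * (m * H)`, and `H * Bᶜ.card ≤ b`; cancel
`H > 0`. -/
theorem exists_good {m H N R K E : ℕ} (hR : 1 ≤ R) (hH : 1 ≤ H)
    (V : Finset (Fin (m * (2 * H * 2)))) (hV : K * Vᶜ.card ≤ E * (m * (2 * H * 2)))
    (S : Fin N → Finset (Fin (m * (2 * H * 2))))
    (hS : ∑ g, (S g).card ≤ R * (m * (2 * H * 2))) :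
    ∃ (B : Finset (Fin m)) (f : B → Fin H → Fin (2 * H)), K * Bᶜ.card ≤ (4 * E + 1) * m ∧
      (∀ β, Function.Injective (f β)) ∧ ∀ (β : B) (r : Fin H),
        (pos (β : Fin m) (f β r) 0 ∈ V ∧ pos (β : Fin m) (f β r) 1 ∈ V) ∧
          (Finset.univ.filter fun g => pos (β : Fin m) (f β r) 1 ∈ S g).card ≤ 4 * R * K := by
  classical
  have hinj : ∀ (i i' : Fin m) (j j' : Fin (2 * H)) (b b' : Fin 2),
      pos i j b = pos i' j' b' → i = i' ∧ j = j' ∧ b = b' := by
    intro i i' j j' b b' h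
    have h1 := congrArg (posEquiv m (2 * H) 2).symm h
    rw [posEquiv_symm, posEquiv_symm] at h1
    simpa [Prod.ext_iff] using h1
  let Dg : Finset (Fin (m * (2 * H * 2))) :=
    Finset.univ.filter fun a => 4 * R * K < (Finset.univ.filter fun g => a ∈ S g).card
  have hD : 4 * R * K * Dg.card ≤ R * (m * (2 * H * 2)) := card_big_deg S hS
  let Gd : Fin m → Fin (2 * H) → Prop := fun i j => pos i j 0 ∈ V ∧ pos i j 1 ∈ V ∧
    (Finset.univ.filter fun g => pos i j 1 ∈ S g).card ≤ 4 * R * K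
  have hbad : (Finset.univ.filter fun x : Fin m × Fin (2 * H) => ¬ Gd x.1 x.2).card ≤
      Vᶜ.card + Dg.card := by
    refine le_trans ?_ (Finset.card_union_le _ _)
    refine Finset.card_le_card_of_injOn
      (fun x => if pos x.1 x.2 0 ∈ V then pos x.1 x.2 1 else pos x.1 x.2 0) ?_ ?_
    · intro x hx
      rw [Finset.mem_coe, Finset.mem_filter] at hx
      have hx2 := hx.2
      rw [Finset.mem_coe, Finset.mem_union, Finset.mem_compl]
      dsimp only
      by_cases h0 : pos x.1 x.2 0 ∈ V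
      · rw [if_pos h0]
        by_cases h1 : pos x.1 x.2 1 ∈ V
        · right
          rw [Finset.mem_filter]
          refine ⟨Finset.mem_univ _, ?_⟩
          by_contra h2
          exact hx2 ⟨h0, h1, not_lt.1 h2⟩
        · exact Or.inl h1
      · rw [if_neg h0]
        exact Or.inl h0
    · intro x _ y _ hxy
      dsimp only at hxy
      by_cases h0 : pos x.1 x.2 0 ∈ V <;> by_cases h1 : pos y.1 y.2 0 ∈ V
      · rw [if_pos h0, if_pos h1] at hxy
        obtain ⟨h2, h3, -⟩ := hinj _ _ _ _ _ _ hxy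
        exact Prod.ext h2 h3
      · rw [if_pos h0, if_neg h1] at hxy
        obtain ⟨-, -, h4⟩ := hinj _ _ _ _ _ _ hxy
        exact absurd h4 (by decide)
      · rw [if_neg h0, if_pos h1] at hxy
        obtain ⟨-, -, h4⟩ := hinj _ _ _ _ _ _ hxy
        exact absurd h4 (by decide)
      · rw [if_neg h0, if_neg h1] at hxy
        obtain ⟨h2, h3, -⟩ := hinj _ _ _ _ _ _ hxy
        exact Prod.ext h2 h3
  obtain ⟨B, f, hB, hf, hG⟩ := good_blocks Gd hbad
  refine ⟨B, f, ?_, hf, fun β r => ⟨⟨(hG β r).1, (hG β r).2.1⟩, (hG β r).2.2⟩⟩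
  have hKD : K * Dg.card ≤ m * H := by
    have h4 : (4 * R) * (K * Dg.card) ≤ (4 * R) * (m * H) := by
      calc (4 * R) * (K * Dg.card) = 4 * R * K * Dg.card := by ring
        _ ≤ R * (m * (2 * H * 2)) := hD
        _ = (4 * R) * (m * H) := by ring
    exact Nat.le_of_mul_le_mul_left h4 (by omega)
  have h5 : H * (K * Bᶜ.card) ≤ H * ((4 * E + 1) * m) := by
    calc H * (K * Bᶜ.card) = K * (H * Bᶜ.card) := by ring
      _ ≤ K * (Vᶜ.card + Dg.card) := Nat.mul_le_mul_left _ hB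
      _ = K * Vᶜ.card + K * Dg.card := by ring
      _ ≤ E * (m * (2 * H * 2)) + m * H := add_le_add hV hKD
      _ = H * ((4 * E + 1) * m) := by ring
  exact Nat.le_of_mul_le_mul_left h5 (by omega)

end Pool.Agent.W91_5f6b2a
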