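import Pool.Agent.W91_5f6b2a.Defs

/-!
The lengths of the codes.
-/

namespace Pool.Agent.W91_5f6b2a

open Finset

/-- PROOF: induction on `k` for all `m`. -/
theorem len_eq (h : ℕ → ℕ) (k m : ℕ) : len h k m = m * ∏ i ∈ range k, (2 * h i * 2) := by
  induction k generalizing m with
  | zero => simp [len]
  | succ k ih =>
    rw [len, ih, Finset.prod_range_succ]
    ring

/-- PROOF: `len_eq`. -/
theorem le_len {h : ℕ → ℕ} {k m : ℕ} (hh : ∀ j < k, 1 ≤ h j) : m ≤ len h k m := by
  rw [len_eq]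
  refine Nat.le_mul_of_pos_right m (Finset.prod_pos fun i hi => ?_)
  have := hh i (mem_range.1 hi)
  omega

/-- PROOF: if `m = 0` and `0 < a` or `0 < m` ... `siz a m i ≤ siz a m' i` for all `i`, and for
`1 ≤ m'` all factors are positive. -/
theorem len_siz_lt {a D m m' : ℕ} (h : m < m') :
    len (siz a m) D m < len (siz a m') D m' := by
  rw [len_eq, len_eq]
  have h1 : ∏ i ∈ range D, (2 * siz a m i * 2) ≤ ∏ i ∈ range D, (2 * siz a m' i * 2) := by
    refine Finset.prod_le_prod' fun i _ => ?_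
    have h2 : siz a m i ≤ siz a m' i := Nat.pow_le_pow_left h.le _
    omega
  have h3 : 0 < ∏ i ∈ range D, (2 * siz a m' i * 2) := by
    refine Finset.prod_pos fun i _ => ?_
    have h4 : 0 < siz a m' i := pow_pos (by omega) _
    omega
  calc m * ∏ i ∈ range D, (2 * siz a m i * 2) ≤ m * ∏ i ∈ range D, (2 * siz a m' i * 2) :=
        Nat.mul_le_mul_left m h1
    _ < m' * ∏ i ∈ range D, (2 * siz a m' i * 2) := Nat.mul_lt_mul_of_pos_right h h3

theorem len_siz_inj {a D m m' : ℕ} (h : len (siz a m) D m = len (siz a m') D m') : m = m' := by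
  rcases lt_trichotomy m m' with h1 | h1 | h1
  · exact absurd h (len_siz_lt h1).ne
  · exact h1
  · exact absurd h (len_siz_lt h1).ne'

/-- PROOF: `len_eq`, `Finset.prod_pow_eq_pow_sum` and `Finset.mul_sum`. -/
theorem len_siz (a D m : ℕ) :
    len (siz a m) D m = 4 ^ D * m ^ (1 + a * ∑ j ∈ range D, 5 ^ j) := by
  rw [len_eq]
  have h1 : ∏ i ∈ range D, (2 * siz a m i * 2) = 4 ^ D * m ^ (a * ∑ j ∈ range D, 5 ^ j) := by
    have h2 : ∀ i ∈ range D, 2 * siz a m i * 2 = 4 * m ^ (a * 5 ^ i) := by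
      intro i _
      unfold siz
      ring
    rw [Finset.prod_congr rfl h2, Finset.prod_mul_distrib, Finset.prod_const, card_range,
      Finset.prod_pow_eq_pow_sum, Finset.mul_sum]
  rw [h1, pow_add, pow_one]
  ring

/-- PROOF: for `i < D` we have `siz a m i ≤ ∏ …` since all factors are positive (`m ≥ 1`). -/
theorem siz_le_len {a D m j : ℕ} (hm : 1 ≤ m) (hj : j < D) :
    2 * siz a m j ≤ len (siz a m) D m := by
  rw [len_eq]
  have h1 : ∀ i, 1 ≤ 2 * siz a m i * 2 := by
    intro i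
    have h4 : 0 < siz a m i := pow_pos (by omega) _
    omega
  have h2 : 2 * siz a m j * 2 ≤ ∏ i ∈ range D, (2 * siz a m i * 2) :=
    Finset.single_le_prod' (f := fun i => 2 * siz a m i * 2) (fun i _ => h1 i) (mem_range.2 hj)
  calc 2 * siz a m j ≤ 2 * siz a m j * 2 := by omega
    _ ≤ ∏ i ∈ range D, (2 * siz a m i * 2) := h2
    _ ≤ m * ∏ i ∈ range D, (2 * siz a m i * 2) := Nat.le_mul_of_pos_left _ (by omega)

/-- PROOF: induction, or `Nat.geomSum_eq`. -/
theorem four_geom (j : ℕ) : 4 * (∑ i ∈ range j, 5 ^ i) + 1 = 5 ^ j := by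
  induction j with
  | zero => simp
  | succ j ih =>
    rw [Finset.sum_range_succ, pow_succ]
    omega

end Pool.Agent.W91_5f6b2a
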