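import Pool.Agent.W91_5f6b2a.Defs

/-!
A function with few jumps is constant on most of many disjoint intervals.
-/

namespace Pool.Agent.W91_5f6b2a

theorem window_aux1 {T : ℕ} (θ : ℕ → ℝ) {L : ℝ} (hL : 0 ≤ L)
    (hθ : ∀ t < T, θ t + L ≤ θ (t + 1)) (t t' : ℕ) (h : t < t') (h' : t' ≤ T) :
    θ t + L ≤ θ t' := by
  induction t' with
  | zero => exact absurd h (Nat.not_lt_zero _)
  | succ u ih =>
    rcases Nat.lt_succ_iff_lt_or_eq.mp h with h1 | h1
    · have h2 := ih h1 (by omega)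
      have h3 := hθ u (by omega)
      linarith
    · rw [h1]
      exact hθ u (by omega)

theorem window_aux2 {F : ℝ → Bool} {J : Finset ℝ}
    (hJ : ∀ a b, a ≤ b → (∀ c ∈ J, c ≤ a ∨ b < c) → F a = F b) (θ L s s' : ℝ)
    (h1 : 0 ≤ s) (h4 : s' ≤ L) (hss : s ≤ s')
    (hne : F (θ + s) ≠ F (θ + s')) : ∃ c ∈ J, θ < c ∧ c ≤ θ + L := by
  by_contra hcon
  apply hne
  apply hJ _ _ (by linarith)
  intro c hc
  by_contra h5
  rw [not_or, not_le, not_lt] at h5
  exact hcon ⟨c, hc, by linarith [h5.1], by linarith [h5.2]⟩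

/-- PROOF. Let `J` be as in `Jumps q F`. If `F` is not constant on `[θ t, θ t + L]`, there is
`c ∈ J` with `θ t < c ≤ θ t + L` (apply the property of `J` to the smaller and the larger of the two
numbers). These half-open intervals are disjoint for different `t ≤ T`, because
`θ t + L ≤ θ (t + 1) ≤ … ≤ θ t'` for `t < t' ≤ T`. So we get an injection into `J`. -/
theorem window {q T : ℕ} {F : ℝ → Bool} (hF : Jumps q F) (θ : ℕ → ℝ) {L : ℝ} (hL : 0 ≤ L)
    (hθ : ∀ t < T, θ t + L ≤ θ (t + 1)) (P : ℕ → Prop) [DecidablePred P]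
    (hP : ∀ t ≤ T, P t → ∃ s s', 0 ≤ s ∧ s ≤ L ∧ 0 ≤ s' ∧ s' ≤ L ∧ F (θ t + s) ≠ F (θ t + s')) :
    ((Finset.range (T + 1)).filter P).card ≤ q := by
  obtain ⟨J, hJc, hJ⟩ := hF
  have key : ∀ t ∈ (Finset.range (T + 1)).filter P, ∃ c ∈ J, θ t < c ∧ c ≤ θ t + L := by
    intro t ht
    rw [Finset.mem_filter, Finset.mem_range] at ht
    obtain ⟨s, s', h1, h2, h3, h4, hne⟩ := hP t (by omega) ht.2
    rcases le_total s s' with h | h
    · exact window_aux2 hJ (θ t) L s s' h1 h4 h hne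
    · exact window_aux2 hJ (θ t) L s' s h3 h2 h (Ne.symm hne)
  choose! c hcJ hc1 hc2 using key
  refine le_trans (Finset.card_le_card_of_injOn c ?_ ?_) hJc
  · intro t ht
    exact hcJ t ht
  · intro t ht t' ht' heq
    by_contra hne
    rcases lt_or_gt_of_ne hne with h | h
    · have h1 := (Finset.mem_filter.mp (Finset.mem_coe.mp ht')).1
      rw [Finset.mem_range] at h1
      have h2 := window_aux1 θ hL hθ t t' h (by omega)
      have h3 := hc2 t ht
      have h4 := hc1 t' ht'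
      rw [← heq] at h4
      linarith
    · have h1 := (Finset.mem_filter.mp (Finset.mem_coe.mp ht)).1
      rw [Finset.mem_range] at h1
      have h2 := window_aux1 θ hL hθ t' t h (by omega)
      have h3 := hc2 t' ht'
      have h4 := hc1 t ht
      rw [heq] at h4
      linarith

end Pool.Agent.W91_5f6b2a
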