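import Pool.Agent.W91_5f6b2a.Cube
import Pool.Agent.W91_5f6b2a.Dom
import Pool.Agent.W91_5f6b2a.Window

/-!
A threshold gate is constant on the cube for most thresholds.
-/

namespace Pool.Agent.W91_5f6b2a

theorem own_cube {B : Type} {h : ℕ} (p : B → Fin h) (S : Finset (B × Fin h))
    (w : B × Fin h → ℝ) (x : B × Fin h → Bool) (v : B → Bool) :
    (∑ y ∈ S, if cube p x v y = true then w y else 0) =
      (∑ y ∈ S, if y.2 = p y.1 then min (w y) 0 else if x y = true then w y else 0) +
      ∑ y ∈ S, if y.2 = p y.1 then ((if v y.1 = true then w y else 0) - min (w y) 0) else 0 := by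
  rw [← Finset.sum_add_distrib]
  refine Finset.sum_congr rfl fun y _ => ?_
  unfold cube
  by_cases hy : y.2 = p y.1
  · rw [if_pos hy, if_pos hy, if_pos hy]
    ring
  · rw [if_neg hy, if_neg hy, if_neg hy, add_zero]

theorem own_nonneg {B : Type} {h : ℕ} (p : B → Fin h) (S : Finset (B × Fin h))
    (w : B × Fin h → ℝ) (v : B → Bool) :
    0 ≤ ∑ y ∈ S,
      if y.2 = p y.1 then ((if v y.1 = true then w y else 0) - min (w y) 0) else 0 := by
  refine Finset.sum_nonneg fun y _ => ?_
  split_ifs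
  · exact sub_nonneg.2 (min_le_left _ _)
  · exact sub_nonneg.2 (min_le_right _ _)
  · exact le_rfl

theorem own_le {B : Type} {h : ℕ} (p : B → Fin h) (S : Finset (B × Fin h))
    (w : B × Fin h → ℝ) (v : B → Bool) :
    (∑ y ∈ S, if y.2 = p y.1 then ((if v y.1 = true then w y else 0) - min (w y) 0) else 0) ≤
      ∑ y ∈ S, if y.2 = p y.1 then |w y| else 0 := by
  refine Finset.sum_le_sum fun y _ => ?_
  rcases le_total (w y) 0 with h0 | h0
  · rw [min_eq_left h0, abs_of_nonpos h0]
    split_ifs <;> linarith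
  · rw [min_eq_right h0, abs_of_nonneg h0]
    split_ifs <;> linarith

theorem own_reindex {Y : Type} (S : Finset Y) (e : Fin S.card → Y)
    (he : Function.Injective e) (heS : ∀ i, e i ∈ S) (hsurj : ∀ y ∈ S, ∃ i, e i = y)
    (f : Y → ℝ) : ∑ y ∈ S, f y = ∑ i, f (e i) := by
  symm
  refine Finset.sum_bij (fun i _ => e i) (fun i _ => heS i) (fun i _ j _ h => he h) ?_
    (fun i _ => rfl)
  intro y hy
  obtain ⟨i, hi⟩ := hsurj y hy
  exact ⟨i, Finset.mem_univ _, hi⟩

theorem own_step {B : Type} {h ℓ T : ℕ} (hℓ : 1 ≤ ℓ) (p : B → Fin h)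
    (S : Finset (B × Fin h)) (w : B × Fin h → ℝ)
    (e : Fin S.card → B × Fin h) (he : Function.Injective e) (heS : ∀ i, e i ∈ S)
    (hsurj : ∀ y ∈ S, ∃ i, e i = y) (hsort : ∀ i j, i ≤ j → |w (e j)| ≤ |w (e i)|)
    (r : Fin (S.card / ℓ) → Fin T → Fin S.card)
    (hr : ∀ (u : Fin (S.card / ℓ)) (i : Fin T),
      (u : ℕ) * ℓ ≤ (r u i : ℕ) ∧ (r u i : ℕ) < ((u : ℕ) + 1) * ℓ)
    (x : Fin (T + 1) → B × Fin h → Bool)
    (hx1 : ∀ (c : Fin (T + 1)) (u : Fin (S.card / ℓ)) (i : Fin T), x c (e (r u i)) =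
      if (i : ℕ) < (c : ℕ) then decide (0 < w (e (r u i))) else decide (w (e (r u i)) < 0))
    (hx2 : ∀ c c' y, (∀ u i, y ≠ e (r u i)) → x c y = x c' y)
    (hpre : ∀ u : ℕ, 1 ≤ u → 2 * hits (top e (u * ℓ)) p < u) (c : Fin T) :
    (∑ y ∈ S, if y.2 = p y.1 then min (w y) 0 else if x c.castSucc y = true then w y else 0) +
      (∑ y ∈ S, if y.2 = p y.1 then |w y| else 0) ≤
      ∑ y ∈ S, if y.2 = p y.1 then min (w y) 0 else if x c.succ y = true then w y else 0 := by
  classical
  set A : Finset (Fin S.card) := Finset.univ.filter fun i => (e i).2 = p (e i).1 with hAdef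
  have hA : ∀ u : ℕ, 1 ≤ u → 2 * (A.filter fun r : Fin S.card => (r : ℕ) < u * ℓ).card < u := by
    intro u hu
    have := hpre u hu
    rw [hits_top e he] at this
    exact this
  have hdom := dominate hℓ (fun i => |w (e i)|) hsort (fun i => abs_nonneg _) A hA
    (fun u => r u c) (fun u => hr u c)
  have hL : (∑ y ∈ S, if y.2 = p y.1 then |w y| else 0) = ∑ i ∈ A, |w (e i)| := by
    rw [own_reindex S e he heS hsurj, hAdef, Finset.sum_filter]
  have hinju : Function.Injective fun u => r u c := by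
    intro u u' huu
    have huu' : (r u c : ℕ) = (r u' c : ℕ) := by
      have : r u c = r u' c := huu
      rw [this]
    obtain ⟨h1, h2⟩ := hr u c
    obtain ⟨h3, h4⟩ := hr u' c
    apply Fin.ext
    by_contra hne
    rcases Nat.lt_or_gt_of_ne hne with hlt | hlt
    · have : ((u : ℕ) + 1) * ℓ ≤ (u' : ℕ) * ℓ := Nat.mul_le_mul_right _ hlt
      omega
    · have : ((u' : ℕ) + 1) * ℓ ≤ (u : ℕ) * ℓ := Nat.mul_le_mul_right _ hlt
      omega
  have hdiff : (∑ y ∈ S, if y.2 = p y.1 then min (w y) 0 else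
        if x c.succ y = true then w y else 0) -
      (∑ y ∈ S, if y.2 = p y.1 then min (w y) 0 else if x c.castSucc y = true then w y else 0) =
      ∑ u ∈ Finset.univ.filter (fun u => r u c ∉ A), |w (e (r u c))| := by
    rw [← Finset.sum_sub_distrib, own_reindex S e he heS hsurj, Finset.sum_filter]
    have himg : ∑ u, (if r u c ∉ A then |w (e (r u c))| else 0) =
        ∑ i ∈ Finset.univ.image (fun u => r u c), (if i ∉ A then |w (e i)| else 0) := by
      rw [Finset.sum_image]
      intro u _ u' _ huu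
      exact hinju huu
    rw [himg]
    symm
    rw [← Finset.sum_subset (Finset.subset_univ (Finset.univ.image (fun u => r u c)))]
    · refine Finset.sum_congr rfl fun i hi => ?_
      obtain ⟨u, -, rfl⟩ := Finset.mem_image.1 hi
      by_cases hlive : (e (r u c)).2 = p (e (r u c)).1
      · have hmem : r u c ∈ A := Finset.mem_filter.2 ⟨Finset.mem_univ _, hlive⟩
        rw [if_neg (not_not.2 hmem), if_pos hlive, if_pos hlive, sub_self]
      · have hmem : r u c ∉ A := fun hm => hlive (Finset.mem_filter.1 hm).2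
        rw [if_pos hmem, if_neg hlive, if_neg hlive, hx1, hx1]
        have h1 : (c : ℕ) < (c.succ : ℕ) := by simp
        have h2 : ¬ (c : ℕ) < (c.castSucc : ℕ) := by simp
        rw [if_pos h1, if_neg h2]
        rcases lt_trichotomy (w (e (r u c))) 0 with hw | hw | hw
        · simp [hw, not_lt.2 hw.le, abs_of_neg hw]
        · simp [hw]
        · simp [hw, not_lt.2 hw.le, abs_of_pos hw]
    · intro i _ hi
      by_cases hlive : (e i).2 = p (e i).1
      · rw [if_pos hlive, if_pos hlive, sub_self]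
      · rw [if_neg hlive, if_neg hlive]
        have hxx : x c.succ (e i) = x c.castSucc (e i) := by
          by_cases hex : ∃ u j, e i = e (r u j)
          · obtain ⟨u, j, hj⟩ := hex
            rw [hj, hx1, hx1]
            have hjc : (j : ℕ) ≠ (c : ℕ) := by
              intro hjc
              have hjc' : j = c := Fin.ext hjc
              apply hi
              rw [Finset.mem_image]
              refine ⟨u, Finset.mem_univ _, ?_⟩
              rw [← hjc']
              exact (he hj).symm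
            have hiff : ((j : ℕ) < (c.succ : ℕ)) ↔ ((j : ℕ) < (c.castSucc : ℕ)) := by
              simp only [Fin.val_succ, Fin.val_castSucc]
              omega
            simp only [hiff]
          · push Not at hex
            exact hx2 _ _ _ hex
        rw [hxx, sub_self]
  rw [hL]
  linarith

theorem own_count {B : Type} {h ℓ T q : ℕ} (hℓ : 1 ≤ ℓ) (p : B → Fin h)
    (S : Finset (B × Fin h)) (w : B × Fin h → ℝ) {F : ℝ → Bool} (hF : Jumps q F) (c0 : ℝ)
    (e : Fin S.card → B × Fin h) (he : Function.Injective e) (heS : ∀ i, e i ∈ S)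
    (hsurj : ∀ y ∈ S, ∃ i, e i = y) (hsort : ∀ i j, i ≤ j → |w (e j)| ≤ |w (e i)|)
    (r : Fin (S.card / ℓ) → Fin T → Fin S.card)
    (hr : ∀ (u : Fin (S.card / ℓ)) (i : Fin T),
      (u : ℕ) * ℓ ≤ (r u i : ℕ) ∧ (r u i : ℕ) < ((u : ℕ) + 1) * ℓ)
    (hinj : ∀ u i i', r u i = r u i' → i = i')
    (x : Fin (T + 1) → B × Fin h → Bool)
    (hx1 : ∀ (c : Fin (T + 1)) (u : Fin (S.card / ℓ)) (i : Fin T), x c (e (r u i)) =
      if (i : ℕ) < (c : ℕ) then decide (0 < w (e (r u i))) else decide (w (e (r u i)) < 0))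
    (hx2 : ∀ c c' y, (∀ u i, y ≠ e (r u i)) → x c y = x c' y)
    (hpre : ∀ u : ℕ, 1 ≤ u → 2 * hits (top e (u * ℓ)) p < u)
    (P : Fin (T + 1) → Prop) [DecidablePred P]
    (hP : ∀ c, P c → ∃ v v' : B → Bool,
      F (c0 + ∑ y ∈ S, if cube p (x c) v y = true then w y else 0) ≠
        F (c0 + ∑ y ∈ S, if cube p (x c) v' y = true then w y else 0)) :
    (Finset.univ.filter P).card ≤ q := by
  classical
  set L : ℝ := ∑ y ∈ S, if y.2 = p y.1 then |w y| else 0 with hLdef
  have hL0 : 0 ≤ L := by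
    refine Finset.sum_nonneg fun y _ => ?_
    split_ifs
    · exact abs_nonneg _
    · exact le_rfl
  let θ : ℕ → ℝ := fun c => c0 + ∑ y ∈ S, if y.2 = p y.1 then min (w y) 0 else
    if x (Fin.ofNat (T + 1) c) y = true then w y else 0
  have hθ : ∀ t < T, θ t + L ≤ θ (t + 1) := by
    intro t ht
    have hstep := own_step hℓ p S w e he heS hsurj hsort r hr x hx1 hx2 hpre ⟨t, ht⟩
    have h1 : Fin.ofNat (T + 1) t = (⟨t, ht⟩ : Fin T).castSucc := by
      apply Fin.ext
      simp only [Fin.val_castSucc, Fin.ofNat]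
      exact Nat.mod_eq_of_lt (by omega)
    have h2 : Fin.ofNat (T + 1) (t + 1) = (⟨t, ht⟩ : Fin T).succ := by
      apply Fin.ext
      simp only [Fin.val_succ, Fin.ofNat]
      exact Nat.mod_eq_of_lt (by omega)
    simp only [θ]
    rw [h1, h2]
    linarith
  have hwin := window hF θ hL0 hθ (fun t => P (Fin.ofNat (T + 1) t)) (by
    intro t ht hPt
    obtain ⟨v, v', hvv⟩ := hP _ hPt
    refine ⟨_, _, own_nonneg p S w v, own_le p S w v, own_nonneg p S w v', own_le p S w v', ?_⟩
    rw [own_cube, own_cube, ← add_assoc, ← add_assoc] at hvv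
    exact hvv)
  refine le_trans ?_ hwin
  refine Finset.card_le_card_of_injOn (fun c => (c : ℕ)) ?_ ?_
  · intro c hc
    rw [Finset.mem_coe, Finset.mem_filter] at hc
    rw [Finset.mem_coe, Finset.mem_filter, Finset.mem_range]
    refine ⟨c.2, ?_⟩
    have : Fin.ofNat (T + 1) (c : ℕ) = c := by
      apply Fin.ext
      simp only [Fin.ofNat]
      exact Nat.mod_eq_of_lt c.2
    rw [this]
    exact hc.2
  · intro c _ c' _ hcc
    exact Fin.ext hcc

end Pool.Agent.W91_5f6b2a
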