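import Pool.Agent.W91_5f6b2a.Cube

/-!
Moments of the number of live elements.
-/

namespace Pool.Agent.W91_5f6b2a

variable {B : Type} [Fintype B] [DecidableEq B] {h : ℕ}

/-- PROOF: `p ↦ (p a, p restricted to the other elements)` is a bijection; or: the sum over
`i : Fin h` of the left cardinalities is `h ^ card B` and they are all equal. -/
theorem card_one (a : B) (i : Fin h) :
    h * (Finset.univ.filter fun p : B → Fin h => i = p a).card = h ^ Fintype.card B := by
  have h1 : (Finset.univ.filter fun p : B → Fin h => i = p a) =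
      Fintype.piFinset fun c => if c = a then ({i} : Finset (Fin h)) else Finset.univ := by
    ext p
    rw [Finset.mem_filter, Fintype.mem_piFinset]
    constructor
    · rintro ⟨-, hp⟩ c
      by_cases hc : c = a
      · rw [if_pos hc, hc, Finset.mem_singleton, hp]
      · rw [if_neg hc]
        exact Finset.mem_univ _
    · intro hp
      refine ⟨Finset.mem_univ _, ?_⟩
      have := hp a
      rw [if_pos rfl, Finset.mem_singleton] at this
      exact this.symm
  rw [h1, Fintype.card_piFinset]
  have h2 : h = ∏ c : B, if c = a then h else 1 := by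
    rw [Finset.prod_ite_eq' Finset.univ a, if_pos (Finset.mem_univ a)]
  conv_lhs => lhs; rw [h2]
  rw [← Finset.prod_mul_distrib]
  have h3 : ∀ c ∈ (Finset.univ : Finset B), ((if c = a then h else 1) *
      (if c = a then ({i} : Finset (Fin h)) else Finset.univ).card) = h := by
    intro c _
    by_cases hc : c = a
    · rw [if_pos hc, if_pos hc, Finset.card_singleton, mul_one]
    · rw [if_neg hc, if_neg hc, Finset.card_univ, Fintype.card_fin, one_mul]
  rw [Finset.prod_congr rfl h3, Finset.prod_const, Finset.card_univ]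

theorem card_two (a b : B) (hab : a ≠ b) (i j : Fin h) :
    h ^ 2 * (Finset.univ.filter fun p : B → Fin h => i = p a ∧ j = p b).card =
      h ^ Fintype.card B := by
  have h1 : (Finset.univ.filter fun p : B → Fin h => i = p a ∧ j = p b) =
      Fintype.piFinset fun c => if c = a then ({i} : Finset (Fin h)) else
        if c = b then ({j} : Finset (Fin h)) else Finset.univ := by
    ext p
    rw [Finset.mem_filter, Fintype.mem_piFinset]
    constructor
    · rintro ⟨-, hp, hp'⟩ c
      by_cases hc : c = a
      · rw [if_pos hc, hc, Finset.mem_singleton, hp]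
      · rw [if_neg hc]
        by_cases hc' : c = b
        · rw [if_pos hc', hc', Finset.mem_singleton, hp']
        · rw [if_neg hc']
          exact Finset.mem_univ _
    · intro hp
      refine ⟨Finset.mem_univ _, ?_, ?_⟩
      · have := hp a
        rw [if_pos rfl, Finset.mem_singleton] at this
        exact this.symm
      · have := hp b
        rw [if_neg (Ne.symm hab), if_pos rfl, Finset.mem_singleton] at this
        exact this.symm
  rw [h1, Fintype.card_piFinset]
  have h2 : h ^ 2 = (∏ c : B, if c = a then h else 1) * ∏ c : B, if c = b then h else 1 := by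
    rw [Finset.prod_ite_eq' Finset.univ a, if_pos (Finset.mem_univ a),
      Finset.prod_ite_eq' Finset.univ b, if_pos (Finset.mem_univ b), pow_two]
  rw [h2, ← Finset.prod_mul_distrib, ← Finset.prod_mul_distrib]
  have h3 : ∀ c ∈ (Finset.univ : Finset B), ((if c = a then h else 1) *
      (if c = b then h else 1) * (if c = a then ({i} : Finset (Fin h)) else
        if c = b then ({j} : Finset (Fin h)) else Finset.univ).card) = h := by
    intro c _
    by_cases hc : c = a
    · have hcb : c ≠ b := fun h => hab (hc.symm.trans h)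
      rw [if_pos hc, if_pos hc, if_neg hcb, Finset.card_singleton, mul_one, mul_one]
    · by_cases hc' : c = b
      · rw [if_neg hc, if_neg hc, if_pos hc', if_pos hc', Finset.card_singleton, mul_one,
          one_mul]
      · rw [if_neg hc, if_neg hc, if_neg hc', if_neg hc', Finset.card_univ, Fintype.card_fin,
          one_mul, one_mul]
  rw [Finset.prod_congr rfl h3, Finset.prod_const, Finset.card_univ]

/-- PROOF: exchange the sums, `card_one`. -/
theorem sum_hits (S : Finset (B × Fin h)) :
    h * ∑ p : B → Fin h, hits S p = h ^ Fintype.card B * S.card := by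
  have h1 : ∑ p : B → Fin h, hits S p =
      ∑ y ∈ S, (Finset.univ.filter fun p : B → Fin h => y.2 = p y.1).card := by
    unfold hits
    simp only [Finset.card_filter]
    exact Finset.sum_comm
  rw [h1, Finset.mul_sum, Finset.sum_congr rfl fun y _ => card_one y.1 y.2, Finset.sum_const,
    smul_eq_mul, mul_comm]

private theorem prob_pair_card (y y' : B × Fin h) (hne : y ≠ y') :
    h ^ 2 * (Finset.univ.filter fun p : B → Fin h => y.2 = p y.1 ∧ y'.2 = p y'.1).card ≤
      h ^ Fintype.card B := by
  by_cases h1 : y.1 = y'.1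
  · have h2 : (Finset.univ.filter fun p : B → Fin h => y.2 = p y.1 ∧ y'.2 = p y'.1) = ∅ := by
      rw [Finset.filter_eq_empty_iff]
      rintro p - ⟨h3, h4⟩
      exact hne (Prod.ext h1 (by rw [h3, h4, h1]))
    rw [h2, Finset.card_empty, mul_zero]
    exact Nat.zero_le _
  · exact (card_two y.1 y'.1 h1 y.2 y'.2).le

/-- PROOF: the left side is `h ^ 2 * ∑ y ∈ S, ∑ y' ∈ S', #{p | y.2 = p y.1 ∧ y'.2 = p y'.1}`; the
terms with `y = y'` give `h * h ^ card B` each (`card_one`), there are at most `S'.card` of them;
the terms with `y.1 = y'.1`, `y ≠ y'` are zero; the others are `h ^ card B` (`card_two`). -/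
theorem sum_hits_mul (S S' : Finset (B × Fin h)) :
    h ^ 2 * ∑ p : B → Fin h, hits S p * hits S' p ≤
      h ^ Fintype.card B * (h * S'.card + S.card * S'.card) := by
  have h1 : ∑ p : B → Fin h, hits S p * hits S' p = ∑ y ∈ S, ∑ y' ∈ S',
      (Finset.univ.filter fun p : B → Fin h => y.2 = p y.1 ∧ y'.2 = p y'.1).card := by
    have e1 : ∀ p : B → Fin h, hits S p * hits S' p =
        ∑ y ∈ S, ∑ y' ∈ S', if y.2 = p y.1 ∧ y'.2 = p y'.1 then 1 else 0 := by
      intro p
      unfold hits
      rw [Finset.card_filter, Finset.card_filter, Finset.sum_mul_sum]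
      refine Finset.sum_congr rfl fun y _ => Finset.sum_congr rfl fun y' _ => ?_
      by_cases h1 : y.2 = p y.1
      · by_cases h2 : y'.2 = p y'.1
        · rw [if_pos h1, if_pos h2, if_pos ⟨h1, h2⟩, mul_one]
        · rw [if_neg h2, mul_zero,
            if_neg (show ¬(y.2 = p y.1 ∧ y'.2 = p y'.1) from fun hh => h2 hh.2)]
      · rw [if_neg h1, zero_mul,
          if_neg (show ¬(y.2 = p y.1 ∧ y'.2 = p y'.1) from fun hh => h1 hh.1)]
    rw [Finset.sum_congr rfl fun p _ => e1 p, Finset.sum_comm]
    refine Finset.sum_congr rfl fun y _ => ?_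
    rw [Finset.sum_comm]
    refine Finset.sum_congr rfl fun y' _ => ?_
    rw [Finset.card_filter]
  rw [h1, Finset.mul_sum]
  have h2 : ∀ y ∈ S, h ^ 2 * ∑ y' ∈ S',
      (Finset.univ.filter fun p : B → Fin h => y.2 = p y.1 ∧ y'.2 = p y'.1).card ≤
      ∑ y' ∈ S', (h ^ Fintype.card B * ((if y = y' then h else 0) + 1)) := by
    intro y _
    rw [Finset.mul_sum]
    refine Finset.sum_le_sum fun y' _ => ?_
    by_cases h3 : y = y'
    · subst h3
      rw [if_pos rfl]
      have h4 : (Finset.univ.filter fun p : B → Fin h => y.2 = p y.1 ∧ y.2 = p y.1) =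
          Finset.univ.filter fun p : B → Fin h => y.2 = p y.1 := by
        simp only [and_self]
      rw [h4]
      have h5 := card_one y.1 y.2
      calc h ^ 2 * (Finset.univ.filter fun p : B → Fin h => y.2 = p y.1).card
          = h * (h * (Finset.univ.filter fun p : B → Fin h => y.2 = p y.1).card) := by ring
        _ = h * h ^ Fintype.card B := by rw [h5]
        _ ≤ h ^ Fintype.card B * (h + 1) := by
          rw [mul_comm]
          exact Nat.mul_le_mul_left _ (Nat.le_succ h)
    · rw [if_neg h3, zero_add, mul_one]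
      exact prob_pair_card y y' h3
  refine (Finset.sum_le_sum h2).trans ?_
  have h6 : ∑ y ∈ S, ∑ y' ∈ S', (h ^ Fintype.card B * ((if y = y' then h else 0) + 1)) =
      h ^ Fintype.card B * ((∑ y ∈ S, ∑ y' ∈ S', if y = y' then h else 0) +
        S.card * S'.card) := by
    simp only [← Finset.mul_sum, Finset.sum_add_distrib, Finset.sum_const, smul_eq_mul, mul_one]
  rw [h6]
  refine Nat.mul_le_mul_left _ (Nat.add_le_add_right ?_ _)
  rw [Finset.sum_comm]
  calc ∑ y' ∈ S', ∑ y ∈ S, (if y = y' then h else 0)
      ≤ ∑ y' ∈ S', h := Finset.sum_le_sum fun y' _ => by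
        rw [Finset.sum_ite_eq']
        split_ifs
        · exact le_rfl
        · exact Nat.zero_le _
    _ = h * S'.card := by rw [Finset.sum_const, smul_eq_mul, mul_comm]

/-- PROOF: `hits S p * (hits S p - 1)` is the number of pairs of different live elements
`(y, y')` of `S` (`Finset.offDiag_card`), with `y.1 ≠ y'.1`; use `card_two`. -/
theorem sum_hits_pred (S : Finset (B × Fin h)) :
    h ^ 2 * ∑ p : B → Fin h, hits S p * (hits S p - 1) ≤
      h ^ Fintype.card B * (S.card * S.card) := by
  have e1 : ∀ p : B → Fin h, hits S p * (hits S p - 1) =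
      ∑ y ∈ S, ∑ y' ∈ S, if y ≠ y' ∧ y.2 = p y.1 ∧ y'.2 = p y'.1 then 1 else 0 := by
    intro p
    have e2 : hits S p * (hits S p - 1) = (S.filter fun y => y.2 = p y.1).offDiag.card := by
      rw [Finset.offDiag_card, Nat.mul_sub_one]
      rfl
    have e3 : (S.filter fun y => y.2 = p y.1).offDiag =
        (S ×ˢ S).filter fun q => q.1 ≠ q.2 ∧ q.1.2 = p q.1.1 ∧ q.2.2 = p q.2.1 := by
      ext q
      simp only [Finset.mem_offDiag, Finset.mem_filter, Finset.mem_product]
      tauto
    rw [e2, e3, Finset.card_filter, Finset.sum_product]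
  have h1 : ∑ p : B → Fin h, hits S p * (hits S p - 1) = ∑ y ∈ S, ∑ y' ∈ S,
      (Finset.univ.filter fun p : B → Fin h => y ≠ y' ∧ y.2 = p y.1 ∧ y'.2 = p y'.1).card := by
    rw [Finset.sum_congr rfl fun p _ => e1 p, Finset.sum_comm]
    refine Finset.sum_congr rfl fun y _ => ?_
    rw [Finset.sum_comm]
    refine Finset.sum_congr rfl fun y' _ => ?_
    rw [Finset.card_filter]
  rw [h1, Finset.mul_sum]
  have h2 : ∀ y ∈ S, h ^ 2 * ∑ y' ∈ S,
      (Finset.univ.filter fun p : B → Fin h => y ≠ y' ∧ y.2 = p y.1 ∧ y'.2 = p y'.1).card ≤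
      ∑ y' ∈ S, h ^ Fintype.card B := by
    intro y _
    rw [Finset.mul_sum]
    refine Finset.sum_le_sum fun y' _ => ?_
    by_cases h3 : y = y'
    · have h4 : (Finset.univ.filter fun p : B → Fin h =>
          y ≠ y' ∧ y.2 = p y.1 ∧ y'.2 = p y'.1) = ∅ := by
        rw [Finset.filter_eq_empty_iff]
        rintro p - ⟨h5, -⟩
        exact h5 h3
      rw [h4, Finset.card_empty, mul_zero]
      exact Nat.zero_le _
    · refine le_trans (Nat.mul_le_mul_left _ (Finset.card_le_card ?_)) (prob_pair_card y y' h3)
      intro p hp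
      rw [Finset.mem_filter] at hp ⊢
      exact ⟨hp.1, hp.2.2⟩
  refine (Finset.sum_le_sum h2).trans ?_
  rw [Finset.sum_const, Finset.sum_const, smul_eq_mul, smul_eq_mul]
  exact le_of_eq (by ring)

end Pool.Agent.W91_5f6b2a
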