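import Mathlib

/-!
Enumerating a finite set in the order of decreasing weights.
-/

namespace Pool.Agent.W91_5f6b2a

/-- PROOF: take any bijection `Fin S.card ≃ S` and compose it with `Tuple.sort` for the function
`- |w|`. -/
theorem exists_enum {Y : Type} (S : Finset Y) (w : Y → ℝ) :
    ∃ e : Fin S.card → Y, Function.Injective e ∧ (∀ i, e i ∈ S) ∧ (∀ y ∈ S, ∃ i, e i = y) ∧
      ∀ i j, i ≤ j → |w (e j)| ≤ |w (e i)| := by
  let f : Fin S.card → ℝ := fun i => - |w (S.equivFin.symm i : Y)|
  let σ := Tuple.sort f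
  refine ⟨fun i => (S.equivFin.symm (σ i) : Y), ?_, ?_, ?_, ?_⟩
  · intro i j hij
    exact σ.injective (S.equivFin.symm.injective (Subtype.ext hij))
  · intro i
    exact (S.equivFin.symm (σ i)).2
  · intro y hy
    refine ⟨σ.symm (S.equivFin ⟨y, hy⟩), ?_⟩
    simp
  · intro i j hij
    have h := Tuple.monotone_sort f hij
    simp only [Function.comp_apply, f] at h
    exact neg_le_neg_iff.1 h

end Pool.Agent.W91_5f6b2a
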