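import Pool.Agent.W91_5f6b2a.Step
import Pool.Agent.W91_5f6b2a.Len

/-!
All steps.
-/

namespace Pool.Agent.W91_5f6b2a

open Finset

theorem jun_var {m : ℕ} (p : Fin m) : Jun univ fun v : Fin m → Bool => v p :=
  ⟨{p}, subset_univ _, by simp, fun _ _ hv => hv p (mem_singleton_self p)⟩

/-- PROOF: induction on `D` for all `m`. For `D = 0` take `σ = id`, `V = univ`. For `D + 1` note that
`len h (D + 1) m = len h D (m * (2 * h D * 2))` by definition, apply the induction hypothesis to
`m * (2 * h D * 2)` and then `step` with `R := R * ∏ i ∈ range D, (2 * h i * 2)` (`len_eq`,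
`le_len`). All `h j`, `j ≤ D`, are positive by the last hypothesis. -/
theorem stages {h : ℕ → ℕ} {N q L R K : ℕ} (hq : 1 ≤ q) (hR : 1 ≤ R) (hL : 1 ≤ L) (hK1 : 1 ≤ K) :
    ∀ (D m : ℕ) (C : Net (len h D m) N), (∀ g, IsGate q (C.src g) (C.fn g)) →
      C.wires ≤ R * len h D m → 10 * 6 ^ D ≤ K → 2 * len h D m < 2 ^ L →
      (∀ j < D, 2 ^ 19 * L * q * (R * ∏ i ∈ range j, (2 * h i * 2)) ^ 4 * K ^ 4 ≤ h j) →
      ∃ (σ : (Fin m → Bool) → Fin (len h D m) → Bool) (V : Finset (Fin m)),
        St C σ V ∧ K * Vᶜ.card ≤ 6 ^ D * m := by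
  intro D
  induction D with
  | zero =>
    intro m C hC hw hK h2 hh
    refine ⟨id, univ, ⟨fun p => jun_var (m := m) p, fun g hg => absurd hg (Nat.not_lt_zero _), fun v a => ?_⟩, by simp⟩
    show v a = true ↔ _
    simp
  | succ k ih =>
    intro m C hC hw hK h2 hh
    have hj : ∀ j < k + 1, 1 ≤ h j := by
      intro j
      induction j using Nat.strong_induction_on with
      | _ j ihj =>
        intro hjk
        have h3 : 0 < ∏ i ∈ range j, (2 * h i * 2) := by
          refine Finset.prod_pos fun i hi => ?_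
          have := ihj i (mem_range.1 hi) (by have := mem_range.1 hi; omega)
          omega
        exact le_trans (Nat.succ_le_of_lt (by positivity)) (hh j hjk)
    have hpow : 6 ^ k ≤ 6 ^ (k + 1) := Nat.pow_le_pow_right (by norm_num) (Nat.le_succ k)
    obtain ⟨σ, V, hst, hV⟩ := ih (m * (2 * h k * 2)) C hC hw (by omega) h2
      fun j hj => hh j (by omega)
    have hprod : 0 < ∏ i ∈ range k, (2 * h i * 2) := by
      refine Finset.prod_pos fun i hi => ?_
      have := hj i (by have := mem_range.1 hi; omega)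
      omega
    refine step (q := q) (L := L) (R := R * ∏ i ∈ range k, (2 * h i * 2)) C hC hst hV ?_
      (by omega) hq (Nat.succ_le_of_lt (by positivity)) ?_ hL (hh k (Nat.lt_succ_self k))
    · refine hw.trans (le_of_eq ?_)
      show R * len h k (m * (2 * h k * 2)) = _
      rw [len_eq]
      ring
    · have := le_len (m := m) hj
      omega

end Pool.Agent.W91_5f6b2a
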