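import Pool.Agent.W91_5f6b2a.Asg
import Pool.Agent.W91_5f6b2a.Good
import Pool.Agent.W91_5f6b2a.Core

/-!
One step: the gates of level `k` become functions of one variable.
-/

namespace Pool.Agent.W91_5f6b2a

open Pool.Agent.W74_5f6b2a_tape

/-- The state after `k` steps: under the restriction `σ`, the input bits and the gates of level less
than `k` are functions of one variable in `V`, and the string coded at depth `k` is the given one,
with the bits outside `V` replaced by false. -/
structure St {h : ℕ → ℕ} {k M N : ℕ} (C : Net (len h k M) N)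
    (σ : (Fin M → Bool) → Fin (len h k M) → Bool) (V : Finset (Fin M)) : Prop where
  bit : ∀ p, Jun V fun v => σ v p
  gate : ∀ g, C.lev g < k → Jun V fun v => C.run (σ v) k g
  dec : ∀ v a, dec h k M (σ v) a = true ↔ v a = true ∧ a ∈ V

/-- The gates of level `k` are gates of the bits of the string coded at depth `k`. PROOF:
`IsGate.comp` for the gate `g` and the signals `Sum.elim (σ v) (C.run (σ v) k)`; the signals in
`C.src g` are input bits and gates of smaller level (`C.lev_lt`). -/
theorem St.level {h : ℕ → ℕ} {k M N q : ℕ} {C : Net (len h k M) N}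
    {σ : (Fin M → Bool) → Fin (len h k M) → Bool} {V : Finset (Fin M)} (hst : St C σ V)
    (hC : ∀ g, IsGate q (C.src g) (C.fn g)) (g : Fin N) (hg : C.lev g = k) :
    ∃ U ⊆ V, U.card ≤ (C.src g).card ∧ IsGate q U fun v => C.run (σ v) (k + 1) g := by
  have h1 : ∀ s ∈ C.src g, Jun V fun v => Sum.elim (σ v) (C.run (σ v) k) s := by
    rintro (p | g') hs
    · exact hst.bit p
    · exact hst.gate g' (by have := C.lev_lt g g' hs; omega)
  obtain ⟨U, hU, hc, hφ⟩ := (hC g).comp (V := V)
    (z := fun v => Sum.elim (σ v) (C.run (σ v) k)) h1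
  exact ⟨U, hU, hc, hφ⟩

/-- The next state. PROOF: `bit`: `Jun.comp` with `hst.bit` and `sub_jun`. `gate`: if
`C.lev g < k` then `C.run _ (k + 1) g = C.run _ k g` by `Net.run_eq` and `Jun.comp` applies with
`hst.gate`; if `C.lev g = k` then by `hcore` the function depends only on the bits in `A` with
`β ∉ Del` (change the bits in `Del` to false, this does not change `sub`). `dec`: unfold `dec`
once, use `hst.dec` and `sub_dec`. -/
theorem St.next {h : ℕ → ℕ} {k m N q : ℕ} {C : Net (len h k (m * (2 * h k * 2))) N}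
    {σ : (Fin (m * (2 * h k * 2)) → Bool) → Fin (len h k (m * (2 * h k * 2))) → Bool}
    {V : Finset (Fin (m * (2 * h k * 2)))} (hst : St C σ V)
    (hC : ∀ g, IsGate q (C.src g) (C.fn g)) {B : Finset (Fin m)}
    (f : B → Fin (h k) → Fin (2 * h k)) (hf : ∀ β, Function.Injective (f β))
    (hV : ∀ (β : B) (r : Fin (h k)),
      pos (β : Fin m) (f β r) 0 ∈ V ∧ pos (β : Fin m) (f β r) 1 ∈ V)
    (p : B → Fin (h k)) (x : B × Fin (h k) → Bool) (Del : Finset B)
    (hcore : ∀ g, C.lev g = k → ∃ A : Finset B, A.card ≤ 1 ∧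
      ∀ v v' : B → Bool, (∀ β ∈ Del, v β = v' β) → (∀ β ∈ A, v β = v' β) →
        C.run (σ (asg f p (cube p x v))) (k + 1) g =
          C.run (σ (asg f p (cube p x v'))) (k + 1) g) :
    St (h := h) (k := k + 1) (M := m) C (fun v => σ (sub f p x Del v)) (surv Del) := by
  classical
  refine ⟨fun a => Jun.comp (hst.bit a) fun b _ => sub_jun hf p x Del b, fun g hg => ?_,
    fun v a => ?_⟩
  · rcases Nat.lt_succ_iff_lt_or_eq.1 hg with h1 | h1
    · refine (Jun.comp (hst.gate g h1) (fun b _ => sub_jun hf p x Del b)).congr fun v => ?_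
      exact (Net.run_succ hC _ k g h1).symm
    · obtain ⟨A, hA, hA'⟩ := hcore g h1
      refine ⟨(A \ Del).image Subtype.val, ?_, ?_, fun v v' hv => ?_⟩
      · intro i hi
        obtain ⟨β, hβ, rfl⟩ := Finset.mem_image.1 hi
        refine Finset.mem_image.2 ⟨β, ?_, rfl⟩
        rw [Finset.mem_compl]
        exact (Finset.mem_sdiff.1 hβ).2
      · refine Finset.card_image_le.trans (le_trans ?_ hA)
        exact Finset.card_le_card Finset.sdiff_subset
      · refine hA' _ _ (fun β hβ => ?_) fun β hβ => ?_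
        · simp [hβ]
        · by_cases hd : β ∈ Del
          · simp [hd]
          · have h2 : v (β : Fin m) = v' (β : Fin m) :=
              hv _ (Finset.mem_image.2 ⟨β, Finset.mem_sdiff.2 ⟨hβ, hd⟩, rfl⟩)
            rw [h2]
  · have h1 : W91_5f6b2a.dec h (k + 1) m (σ (sub f p x Del v)) a = true ↔
        ∃ j : Fin (2 * h k),
          W91_5f6b2a.dec h k (m * (2 * h k * 2)) (σ (sub f p x Del v)) (pos a j 0) = true ∧
          W91_5f6b2a.dec h k (m * (2 * h k * 2)) (σ (sub f p x Del v)) (pos a j 1) = true := by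
      show decide _ = true ↔ _
      rw [decide_eq_true_iff]
      exact Iff.rfl
    rw [h1]
    simp only [hst.dec]
    exact sub_dec hf p x Del V hV v a

/-- PROOF. For every gate `g` of level `k` let `S g ⊆ V` be the set `U` of `St.level`, and let
`S g = ∅` for the other gates; `∑ g, (S g).card ≤ C.wires ≤ R * (m * (2 * h k * 2))`. Take `B`, `f`
from `exists_good` with `E = 6 ^ k`. Since `K * Bᶜ.card ≤ (4 * 6 ^ k + 1) * m ≤ 5 * 6 ^ k * m` and
`10 * 6 ^ k ≤ K`, we have `2 * Bᶜ.card ≤ m` and `m ≤ 2 * B.card`. Apply `core` with `ι = Fin N`,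
`R := 8 * R`, `Δ := 4 * R * K`, the sets `pull f (S g)` and
`Φ g p z = if C.lev g = k then C.run (σ (asg f p z)) (k + 1) g else false`; its hypotheses follow
from `asg_gate`, `card_pull_le` (`∑ g, (pull f (S g)).card ≤ R * (m * (2 * h k * 2)) ≤
8 * R * (B.card * h k)`), and the numerical hypothesis from
`256 * L * q * (4 * R * K) * (8 * R) ^ 3 * K ^ 3 = 2 ^ 19 * L * q * R ^ 4 * K ^ 4`. Then use
`St.next`, and `K * (surv Del)ᶜ.card ≤ K * Bᶜ.card + K * Del.card ≤ (4 * 6 ^ k + 1) * m + m ≤
6 ^ (k + 1) * m` by `card_surv_compl`. -/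
theorem step {h : ℕ → ℕ} {k m N q L R K : ℕ} (C : Net (len h k (m * (2 * h k * 2))) N)
    (hC : ∀ g, IsGate q (C.src g) (C.fn g))
    {σ : (Fin (m * (2 * h k * 2)) → Bool) → Fin (len h k (m * (2 * h k * 2))) → Bool}
    {V : Finset (Fin (m * (2 * h k * 2)))} (hst : St C σ V)
    (hV : K * Vᶜ.card ≤ 6 ^ k * (m * (2 * h k * 2)))
    (hw : C.wires ≤ R * (m * (2 * h k * 2))) (hK : 10 * 6 ^ k ≤ K) (hq : 1 ≤ q) (hR : 1 ≤ R)
    (hL : 2 * m < 2 ^ L) (hL1 : 1 ≤ L) (hh : 2 ^ 19 * L * q * R ^ 4 * K ^ 4 ≤ h k) :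
    ∃ (σ' : (Fin m → Bool) → Fin (len h (k + 1) m) → Bool) (V' : Finset (Fin m)),
      St (h := h) (k := k + 1) (M := m) C σ' V' ∧ K * V'ᶜ.card ≤ 6 ^ (k + 1) * m := by
  classical
  have hK1 : 1 ≤ K := le_trans (by have : 0 < 6 ^ k := by positivity
                                   omega) hK
  have hH : 1 ≤ h k := le_trans (Nat.succ_le_of_lt (by positivity)) hh
  -- the sets of the gates of level `k`
  have hU : ∀ g, ∃ U ⊆ V, U.card ≤ (C.src g).card ∧
      (C.lev g = k → IsGate q U fun v => C.run (σ v) (k + 1) g) ∧ (C.lev g ≠ k → U = ∅) := by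
    intro g
    by_cases hg : C.lev g = k
    · obtain ⟨U, h1, h2, h3⟩ := hst.level hC g hg
      exact ⟨U, h1, h2, fun _ => h3, fun h => absurd hg h⟩
    · exact ⟨∅, Finset.empty_subset _, by simp, fun h => absurd h hg, fun _ => rfl⟩
  choose S hSV hSc hSg hS0 using hU
  have hsumS : ∑ g, (S g).card ≤ R * (m * (2 * h k * 2)) :=
    (Finset.sum_le_sum fun g _ => hSc g).trans hw
  obtain ⟨B, f, hB, hf, hgood⟩ := exists_good hR hH V hV S hsumS
  have hBc : B.card + Bᶜ.card = m := by
    rw [Finset.card_add_card_compl, Fintype.card_fin]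
  have hB2 : m ≤ 2 * B.card := by
    have h1 : 10 * 6 ^ k * Bᶜ.card ≤ (4 * 6 ^ k + 1) * m :=
      (Nat.mul_le_mul_right _ hK).trans hB
    have h2 : (4 * 6 ^ k + 1) * m ≤ 5 * 6 ^ k * m := by
      refine Nat.mul_le_mul_right _ ?_
      have : 0 < 6 ^ k := by positivity
      omega
    have h3 : 5 * 6 ^ k * (2 * Bᶜ.card) ≤ 5 * 6 ^ k * m := by
      calc 5 * 6 ^ k * (2 * Bᶜ.card) = 10 * 6 ^ k * Bᶜ.card := by ring
        _ ≤ _ := h1.trans h2
    have h4 := Nat.le_of_mul_le_mul_left h3 (by positivity)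
    omega
  let Φ : Fin N → (B → Fin (h k)) → (B × Fin (h k) → Bool) → Bool := fun g p z =>
    if C.lev g = k then C.run (σ (asg f p z)) (k + 1) g else false
  have hcardB : Fintype.card B = B.card := Fintype.card_coe B
  have hgate : ∀ g, (∀ (p : B → Fin (h k)) z z', (∀ y ∈ pull f (S g), z y = z' y) →
      Φ g p z = Φ g p z') ∧ ((pull f (S g)).card ≤ q ∨
        ∃ (w : B × Fin (h k) → ℝ) (F : ℝ → Bool) (c : (B → Fin (h k)) → ℝ), Jumps q F ∧
          ∀ p z, Φ g p z = F (c p + ∑ y ∈ pull f (S g), if z y = true then w y else 0)) := by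
    intro g
    by_cases hg : C.lev g = k
    · simp only [Φ, if_pos hg]
      exact asg_gate hf (hSg g hg)
    · have hΦ : ∀ p z, Φ g p z = false := fun p z => if_neg hg
      refine ⟨fun p z z' _ => by rw [hΦ, hΦ], Or.inl ?_⟩
      have h1 := card_pull_le hf (S g)
      rw [hS0 g hg, Finset.card_empty] at h1
      rw [hS0 g hg]
      omega
  obtain ⟨p, x, Del, hDel, hcore⟩ := core (B := B) (ι := Fin N) (h := h k) (L := L) (q := q)
    (Δ := 4 * R * K) (R := 8 * R) (K := K) hq (Nat.succ_le_of_lt (by positivity))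
    (by omega) hK1 hL1 (by
      rw [hcardB]
      omega) (by
      refine le_trans (le_of_eq ?_) hh
      ring) (fun g => pull f (S g)) Φ (fun g => (hgate g).1) (fun g => (hgate g).2) (by
      intro y
      refine le_trans (Finset.card_le_card fun g hg => ?_) (hgood y.1 y.2).2
      rw [Finset.mem_filter] at hg ⊢
      exact ⟨hg.1, (Finset.mem_filter.1 hg.2).2⟩) (by
      refine (Finset.sum_le_sum fun g _ => card_pull_le hf (S g)).trans (hsumS.trans ?_)
      rw [hcardB]
      calc R * (m * (2 * h k * 2)) = 4 * R * h k * m := by ring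
        _ ≤ 4 * R * h k * (2 * B.card) := Nat.mul_le_mul_left _ hB2
        _ = 8 * R * (B.card * h k) := by ring)
  refine ⟨fun v => σ (sub f p x Del v), surv Del, ?_, ?_⟩
  · refine hst.next hC f hf (fun β r => (hgood β r).1) p x Del fun g hg => ?_
    obtain ⟨A, hA, hA'⟩ := hcore g
    refine ⟨A, hA, fun v v' h1 h2 => ?_⟩
    have h3 := hA' v v' h1 h2
    simp only [Φ, if_pos hg] at h3
    exact h3
  · calc K * (surv Del)ᶜ.card ≤ K * (Bᶜ.card + Del.card) :=
          Nat.mul_le_mul_left _ (card_surv_compl Del)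
      _ = K * Bᶜ.card + K * Del.card := by ring
      _ ≤ (4 * 6 ^ k + 1) * m + m := by
          refine Nat.add_le_add hB (hDel.trans ?_)
          rw [hcardB]
          omega
      _ = (4 * 6 ^ k + 2) * m := by ring
      _ ≤ 6 ^ (k + 1) * m := by
          refine Nat.mul_le_mul_right _ ?_
          rw [pow_succ]
          have : 0 < 6 ^ k := by positivity
          omega

end Pool.Agent.W91_5f6b2a
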